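import Pool.Agent.Lib.MP_240c17_al.Rep.Spec

/-!
The standard identity for endomorphisms of a finite dimensional space.
-/

set_option autoImplicit false

namespace Pool.Agent.Lib.MP_240c17_al.Rep

universe u

open Pool.Agent.Lib.MP_240c17_al Pool.Agent.Lib.MP_240c17_al.Two Pool.Agent.Lib.MP_240c17_al.Tor

theorem altEnd : AltEndProp.{u} := by
  intro K _ B _ _ _ d hd φ
  have hdep : ¬ LinearIndependent K φ := by
    intro h
    have h1 := h.fintype_card_le_finrank
    rw [Fintype.card_fin] at h1
    have h2 : Module.finrank K (Module.End K B) = Module.finrank K B * Module.finrank K B :=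
      Module.finrank_linearMap K K B B
    omega
  have h := (MultilinearMap.alternatization
    (MultilinearMap.mkPiAlgebraFin K d (Module.End K B))).map_linearDependent φ hdep
  rw [MultilinearMap.alternatization_apply] at h
  rw [← h]
  apply Finset.sum_congr rfl
  intro σ _
  rw [Units.smul_def]
  congr 1

end Pool.Agent.Lib.MP_240c17_al.Rep
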