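import Pool.Agent.Lib.MP_240c17_al.Rep.Spec

/-!
# Finite generation by short words (helper31)
-/

set_option autoImplicit false

namespace Pool.Agent.Lib.MP_240c17_al.Rep

universe u

open Pool.Agent.Lib.MP_240c17_al Pool.Agent.Lib.MP_240c17_al.Two Pool.Agent.Lib.MP_240c17_al.Tor

namespace AssocFgAux

/-- the span of the words of length `l` -/
def Wl (k : Type u) [Field k] {R : Type u} [Ring R] [Algebra k R] {n : ℕ} (a : Fin n → R) (l : ℕ) :
    Submodule k R :=
  Submodule.span k {r | ∃ w : List (Fin n), w.length = l ∧ r = (w.map a).prod}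

section

variable {k : Type u} [Field k] {R : Type u} [Ring R] [Algebra k R] {n : ℕ} {a : Fin n → R}

theorem word_mem (w : List (Fin n)) : (w.map a).prod ∈ Wl k a w.length :=
  Submodule.subset_span ⟨w, rfl, rfl⟩

theorem Wl_mul {l l' : ℕ} {r s : R} (hr : r ∈ Wl k a l) (hs : s ∈ Wl k a l') :
    r * s ∈ Wl k a (l + l') := by
  unfold Wl at hr
  induction hr using Submodule.span_induction with
  | mem x hx =>
    obtain ⟨w, hw, rfl⟩ := hx
    unfold Wl at hs
    induction hs using Submodule.span_induction with
    | mem y hy =>
      obtain ⟨w', hw', rfl⟩ := hy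
      refine Submodule.subset_span ⟨w ++ w', ?_, ?_⟩
      · rw [List.length_append, hw, hw']
      · rw [List.map_append, List.prod_append]
    | zero =>
      rw [mul_zero]
      exact Submodule.zero_mem _
    | add x y _ _ hx hy =>
      rw [mul_add]
      exact Submodule.add_mem _ hx hy
    | smul c x _ hx =>
      rw [mul_smul_comm]
      exact Submodule.smul_mem _ c hx
  | zero =>
    rw [zero_mul]
    exact Submodule.zero_mem _
  | add x y _ _ hx hy =>
    rw [add_mul]
    exact Submodule.add_mem _ hx hy
  | smul c x _ hx =>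
    rw [smul_mul_assoc]
    exact Submodule.smul_mem _ c hx

theorem Wl_pow {l : ℕ} {r : R} (hr : r ∈ Wl k a l) (q : ℕ) : r ^ q ∈ Wl k a (q * l) := by
  induction q with
  | zero =>
    rw [pow_zero, zero_mul]
    exact Submodule.subset_span ⟨[], rfl, by simp⟩
  | succ q ih =>
    rw [pow_succ, Nat.succ_mul]
    exact Wl_mul ih hr

theorem Up_le (w : List (Fin n)) : Up k a w ≤ Wl k a w.length := by
  unfold Up
  rw [Submodule.span_le]
  rintro r ⟨w', h1, _, rfl⟩
  exact Submodule.subset_span ⟨w', h1, rfl⟩

theorem rp_length {α : Type*} (q : ℕ) (t : List α) : (rp q t).length = q * t.length := by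
  unfold rp
  rw [List.length_flatten, List.map_replicate, List.sum_replicate, smul_eq_mul]

/-- the relation `z` larger than `y` -/
def Gt {n : ℕ} (z y : List (Fin n)) : Prop := Ls y z

instance {n : ℕ} : IsStrictOrder (List (Fin n)) (Gt (n := n)) where
  irrefl u := ls_irrefl u
  trans _ _ _ h1 h2 := Ls.trans h2 h1

/-- induction from above on the words of a given length -/
theorem induct_above {l : ℕ} {C : List (Fin n) → Prop}
    (h : ∀ w : List (Fin n), w.length = l → (∀ w' : List (Fin n), w'.length = l → Ls w w' → C w') →
      C w) (w : List (Fin n)) (hw : w.length = l) : C w := by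
  have hfin : {w : List (Fin n) | w.length = l}.Finite := List.finite_length_eq (Fin n) l
  have hwf := hfin.wellFoundedOn (r := Gt (n := n))
  exact Set.WellFoundedOn.induction hwf (x := w) hw
    (fun y hy ih => h y hy fun w' hw' hl => ih w' hw' hl)

end

end AssocFgAux

open AssocFgAux

theorem assocFg (h1 : ShirLynProp) (h2 : DvRedProp.{u}) (h3 : PowRedProp.{u}) :
    AssocFgProp.{u} := by
  intro k _ n d P N g hg hN
  obtain ⟨N0, hN0⟩ := h1 d (P + N) n
  refine ⟨N0, ?_⟩
  intro r ts hts L _ _ R _ _ φ x T hφ halt hpow hcomm
  obtain ⟨M, hM⟩ : ∃ M, M = Submodule.span k {r | ∃ c ∈ Algebra.adjoin k (Set.range T),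
      ∃ w' : List (Fin n), w'.length < N0 ∧ r = c * (w'.map fun i => φ (x i)).prod} := ⟨_, rfl⟩
  rw [← hM]
  have hstab : ∀ j, ∀ m ∈ M, T j * m ∈ M := by
    intro j m hm
    rw [hM] at hm ⊢
    induction hm using Submodule.span_induction with
    | mem y hy =>
      obtain ⟨c, hc, w', hw', rfl⟩ := hy
      refine Submodule.subset_span ⟨T j * c, ?_, w', hw', ?_⟩
      · exact mul_mem (Algebra.subset_adjoin ⟨j, rfl⟩) hc
      · rw [mul_assoc]
    | zero =>
      rw [mul_zero]
      exact Submodule.zero_mem _
    | add y z _ _ hy hz =>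
      rw [mul_add]
      exact Submodule.add_mem _ hy hz
    | smul c y _ hy =>
      rw [mul_smul_comm]
      exact Submodule.smul_mem _ c hy
  have hcw : ∀ j (w : List (Fin n)), Commute (T j) (w.map fun i => φ (x i)).prod := by
    intro j w
    induction w with
    | nil => simp
    | cons i w ih =>
      rw [List.map_cons, List.prod_cons]
      exact (hcomm j i).mul_right ih
  suffices hmain : ∀ l : ℕ, ∀ w : List (Fin n), w.length = l →
      (w.map fun i => φ (x i)).prod ∈ M from fun w => hmain w.length w rfl
  intro l
  induction l using Nat.strong_induction_on with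
  | _ l ihl =>
    by_cases hl : l < N0
    · intro w hw
      rw [hM]
      refine Submodule.subset_span ⟨1, one_mem _, w, by omega, ?_⟩
      rw [one_mul]
    · apply induct_above
      intro w hw ihw
      have hUp : Up k (fun i => φ (x i)) w ≤ M := by
        unfold Up
        rw [Submodule.span_le]
        rintro s ⟨w', hw1, hw2, rfl⟩
        exact ihw w' (by omega) hw2
      rcases hN0 w (by omega) with hd | ⟨A, t, B, ht, htd, rfl⟩
      · exact hUp (h2 k R n d (fun i => φ (x i)) halt w hd)
      · obtain ⟨j, rfl⟩ := hts.2 t ht htd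
        have hy := hg.2 (ts j) ht L R φ hφ x
        have h4 := h3 k R n (fun i => φ (x i)) (ts j) (φ (FreeLieAlgebra.lift k x (g (ts j)))) hy
          (P + N) A B
        have hyW : φ (FreeLieAlgebra.lift k x (g (ts j))) ∈
            Wl k (fun i => φ (x i)) (ts j).length := by
          have h5 := Submodule.add_mem _ (Up_le _ hy)
            (word_mem (k := k) (a := fun i => φ (x i)) (ts j))
          rwa [sub_add_cancel] at h5
        have hlow : ∀ l' < l, Wl k (fun i => φ (x i)) l' ≤ M := by
          intro l' hl'
          unfold Wl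
          rw [Submodule.span_le]
          rintro s ⟨w', hw', rfl⟩
          exact ihl l' hl' w' hw'
        have htl : 0 < (ts j).length := List.length_pos_iff.2 ht.1
        rw [List.length_append, List.length_append, rp_length] at hw
        have h6 : ((A.map fun i => φ (x i)).prod *
            φ (FreeLieAlgebra.lift k x (g (ts j))) ^ P) * (B.map fun i => φ (x i)).prod ∈ M := by
          refine hlow (A.length + P * (ts j).length + B.length) ?_ ?_
          · have h7 : 0 < N * (ts j).length := Nat.mul_pos hN htl
            rw [Nat.add_mul] at hw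
            omega
          · exact Wl_mul (Wl_mul (word_mem A) (Wl_pow hyW P)) (word_mem B)
        have h8 := hstab j _ h6
        have h9 : T j * ((A.map fun i => φ (x i)).prod *
            φ (FreeLieAlgebra.lift k x (g (ts j))) ^ P * (B.map fun i => φ (x i)).prod) =
            (A.map fun i => φ (x i)).prod * φ (FreeLieAlgebra.lift k x (g (ts j))) ^ (P + N) *
              (B.map fun i => φ (x i)).prod := by
          rw [hpow j, ← mul_assoc, ← mul_assoc, ← mul_assoc, (hcw j A).eq]
        rw [h9] at h8
        have h10 := Submodule.sub_mem _ h8 (hUp h4)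
        rwa [sub_sub_cancel] at h10

end Pool.Agent.Lib.MP_240c17_al.Rep
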