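import Pool.Agent.Lib.MP_240c17_al.Rep.Spec

/-!
# (L5) Long words vanish
-/

set_option autoImplicit false

namespace Pool.Agent.Lib.MP_240c17_al.Rep

universe u

open Pool.Agent.Lib.MP_240c17_al Pool.Agent.Lib.MP_240c17_al.Two Pool.Agent.Lib.MP_240c17_al.Tor

theorem assocNil (h1 : ShirLynProp) (h2 : DvRedProp.{u}) (h3 : PowRedProp.{u}) :
    AssocNilProp.{u} := by
  intro k _ n d q g hg
  obtain ⟨N0, hN0⟩ := h1 d q n
  refine ⟨N0, fun L _ _ R _ _ φ x hφ halt hnil => ?_⟩
  have key : ∀ (ℓ : ℕ), N0 ≤ ℓ → ∀ v : List.Vector (Fin n) ℓ,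
      (v.1.map fun i => φ (x i)).prod = 0 := by
    intro ℓ hℓ
    have wf : WellFounded fun v' v : List.Vector (Fin n) ℓ => Ls v.1 v'.1 := by
      haveI : IsTrans (List.Vector (Fin n) ℓ) fun v' v => Ls v.1 v'.1 :=
        ⟨fun a b c hab hbc => hbc.trans hab⟩
      haveI : Std.Irrefl fun v' v : List.Vector (Fin n) ℓ => Ls v.1 v'.1 :=
        ⟨fun a => ls_irrefl a.1⟩
      exact Finite.wellFounded_of_trans_of_irrefl _
    intro v
    induction v using wf.induction with
    | _ v ih =>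
      have hup : ∀ r ∈ Up k (fun i => φ (x i)) v.1, r = 0 := by
        intro r hr
        have hle : Up k (fun i => φ (x i)) v.1 ≤ ⊥ := by
          refine Submodule.span_le.mpr ?_
          rintro s ⟨w', hw1, hw2, rfl⟩
          exact ih ⟨w', hw1.trans v.2⟩ hw2
        exact (Submodule.mem_bot k).mp (hle hr)
      rcases hN0 v.1 (hℓ.trans v.2.ge) with h | ⟨A, t, B, hly, hlen, he⟩
      · exact hup _ (h2 k R n d _ halt v.1 h)
      · have h4 := h3 k R n (fun i => φ (x i)) t (φ (FreeLieAlgebra.lift k x (g t)))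
          (hg.2 t hly L R φ hφ x) q A B
        rw [← he, hnil t hly hlen, mul_zero, zero_mul, zero_sub] at h4
        exact neg_eq_zero.mp (hup _ h4)
  intro w hw
  exact key w.length hw ⟨w, rfl⟩

end Pool.Agent.Lib.MP_240c17_al.Rep
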