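import Pool.Agent.Lib.MP_240c17_al.Semi.Spec
import Pool.Agent.Lib.MP_240c17_al.Sol.Spec

/-!
# Words, divisibility, Lyndon words

Definitions for the theorem on varieties generated by Lie algebras of bounded finite dimension over extension fields.
-/

set_option autoImplicit false

namespace Pool.Agent.Lib.MP_240c17_al.Rep

universe u

open Pool.Agent.Lib.MP_240c17_al.Two Pool.Agent.Lib.MP_240c17_al.Tor

section Words

variable {α : Type*} [LinearOrder α]

/-- `Ls u v`: at the first place where `u` and `v` differ (it exists in both words) `u` has the smaller letter. -/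
def Ls (u v : List α) : Prop :=
  ∃ (p : List α) (a b : α) (s t : List α), u = p ++ a :: s ∧ v = p ++ b :: t ∧ a < b

theorem Ls.append_left {u v : List α} (h : Ls u v) (c : List α) : Ls (c ++ u) (c ++ v) := by
  obtain ⟨p, a, b, s, t, rfl, rfl, hab⟩ := h
  exact ⟨c ++ p, a, b, s, t, by simp, by simp, hab⟩

theorem Ls.append_right {u v : List α} (h : Ls u v) (c d : List α) : Ls (u ++ c) (v ++ d) := by
  obtain ⟨p, a, b, s, t, rfl, rfl, hab⟩ := h
  exact ⟨p, a, b, s ++ c, t ++ d, by simp, by simp, hab⟩

theorem ls_cons {a : α} {u v : List α} : Ls (a :: u) (a :: v) ↔ Ls u v := by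
  constructor
  · rintro ⟨p, c, d, s, t, h1, h2, hcd⟩
    rcases p with _ | ⟨e, p⟩
    · simp only [List.nil_append, List.cons.injEq] at h1 h2
      rw [← h1.1, ← h2.1] at hcd
      exact absurd hcd (lt_irrefl _)
    · simp only [List.cons_append, List.cons.injEq] at h1 h2
      exact ⟨p, c, d, s, t, h1.2, h2.2, hcd⟩
  · intro h
    exact h.append_left [a]

theorem ls_cons_of_lt {a b : α} (h : a < b) (u v : List α) : Ls (a :: u) (b :: v) :=
  ⟨[], a, b, u, v, rfl, rfl, h⟩

theorem not_ls_nil_left (v : List α) : ¬ Ls [] v := by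
  rintro ⟨p, a, b, s, t, h1, _, _⟩
  simp at h1

theorem not_ls_nil_right (v : List α) : ¬ Ls v [] := by
  rintro ⟨p, a, b, s, t, _, h1, _⟩
  simp at h1

theorem ls_cons_cons {a b : α} {u v : List α} :
    Ls (a :: u) (b :: v) ↔ a < b ∨ (a = b ∧ Ls u v) := by
  constructor
  · intro h
    rcases lt_trichotomy a b with h1 | h1 | h1
    · exact Or.inl h1
    · subst h1
      exact Or.inr ⟨rfl, ls_cons.mp h⟩
    · obtain ⟨p, c, d, s, t, h2, h3, hcd⟩ := h
      rcases p with _ | ⟨e, p⟩
      · simp only [List.nil_append, List.cons.injEq] at h2 h3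
        rw [← h2.1, ← h3.1] at hcd
        exact absurd hcd (lt_asymm h1)
      · simp only [List.cons_append, List.cons.injEq] at h2 h3
        rw [h2.1, h3.1] at h1
        exact absurd h1 (lt_irrefl _)
  · rintro (h | ⟨rfl, h⟩)
    · exact ls_cons_of_lt h u v
    · exact ls_cons.mpr h

theorem ls_irrefl (u : List α) : ¬ Ls u u := by
  induction u with
  | nil => exact not_ls_nil_left _
  | cons a u ih =>
    rw [ls_cons]
    exact ih

theorem Ls.trans {u v w : List α} (h : Ls u v) (h' : Ls v w) : Ls u w := by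
  induction u generalizing v w with
  | nil => exact absurd h (not_ls_nil_left _)
  | cons a u ih =>
    rcases v with _ | ⟨b, v⟩
    · exact absurd h (not_ls_nil_right _)
    rcases w with _ | ⟨c, w⟩
    · exact absurd h' (not_ls_nil_right _)
    rw [ls_cons_cons] at h h' ⊢
    rcases h with h | ⟨rfl, h⟩
    · rcases h' with h' | ⟨rfl, h'⟩
      · exact Or.inl (h.trans h')
      · exact Or.inl h
    · rcases h' with h' | ⟨rfl, h'⟩
      · exact Or.inl h'
      · exact Or.inr ⟨rfl, ih h h'⟩

theorem Ls.asymm {u v : List α} (h : Ls u v) : ¬ Ls v u := fun h' => ls_irrefl _ (h.trans h')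

/-- `Ls` is a linear order on the words of the same length. -/
theorem ls_total {u v : List α} (h : u.length = v.length) : Ls u v ∨ u = v ∨ Ls v u := by
  induction u generalizing v with
  | nil =>
    rcases v with _ | ⟨b, v⟩
    · exact Or.inr (Or.inl rfl)
    · simp at h
  | cons a u ih =>
    rcases v with _ | ⟨b, v⟩
    · simp at h
    rw [ls_cons_cons, ls_cons_cons]
    rcases lt_trichotomy a b with h1 | h1 | h1
    · exact Or.inl (Or.inl h1)
    · subst h1
      rcases ih (by simpa using h) with h2 | h2 | h2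
      · exact Or.inl (Or.inr ⟨rfl, h2⟩)
      · exact Or.inr (Or.inl (by rw [h2]))
      · exact Or.inr (Or.inr (Or.inr ⟨rfl, h2⟩))
    · exact Or.inr (Or.inr (Or.inl h1))

/-- A common prefix may be removed. -/
theorem ls_append_iff (c : List α) {u v : List α} : Ls (c ++ u) (c ++ v) ↔ Ls u v := by
  induction c with
  | nil => rfl
  | cons a c ih =>
    rw [List.cons_append, List.cons_append, ls_cons]
    exact ih

/-- Different tails do not matter for words of the same length. -/
theorem ls_of_append {u v : List α} (h : u.length = v.length) {c d : List α}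
    (hl : Ls (u ++ c) (v ++ d)) : Ls u v ∨ (u = v ∧ Ls c d) := by
  rcases ls_total h with h1 | h1 | h1
  · exact Or.inl h1
  · subst h1
    exact Or.inr ⟨rfl, (ls_append_iff _).mp hl⟩
  · exact absurd hl (h1.append_right d c).asymm

/-- `w = f 0 ++ f 1 ++ … ++ f (d-1)` with nonempty factors, and every other arrangement of the factors gives a
larger word. -/
def Dv (d : ℕ) (w : List α) : Prop :=
  ∃ f : Fin d → List α, (∀ i, f i ≠ []) ∧ w = (List.ofFn f).flatten ∧
    ∀ σ : Equiv.Perm (Fin d), σ ≠ 1 → Ls w (List.ofFn (f ∘ σ)).flatten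

/-- `w` has a `d`-divisible factor. -/
def HasDv (d : ℕ) (w : List α) : Prop := ∃ a u b, w = a ++ u ++ b ∧ Dv d u

/-- The power `u ^ q`. -/
def rp (q : ℕ) (u : List α) : List α := (List.replicate q u).flatten

/-- `t` is a Lyndon word: smaller than all its proper suffixes. -/
def Lyn (t : List α) : Prop := t ≠ [] ∧ ∀ v w, v ≠ [] → w ≠ [] → t = v ++ w → Ls t w

/-- `z = 0 … 0 v` with at least one `0`, `v` nonempty without the letter `0`. -/
def Blk {k : ℕ} (z : List (Fin (k + 1))) : Prop :=
  ∃ (i : ℕ) (v : List (Fin (k + 1))), 1 ≤ i ∧ v ≠ [] ∧ (0 : Fin (k + 1)) ∉ v ∧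
    z = List.replicate i 0 ++ v

/-- An increasing enumeration of blocks; a proper prefix of a block is smaller than the block. -/
def BEnum {k k' : ℕ} (e : Fin k' → List (Fin (k + 1))) : Prop :=
  (∀ c, Blk (e c)) ∧ ∀ c c', c < c' → Ls (e c) (e c') ∨ ∃ g, g ≠ [] ∧ e c' = e c ++ g

/-- `s` is not a product of two nonempty commuting words. -/
def Prim (s : List α) : Prop := s ≠ [] ∧ ∀ x y, x ≠ [] → y ≠ [] → s = x ++ y → x ++ y ≠ y ++ x

/-- `ts` is an enumeration of the Lyndon words of length `< d`. -/
def LE (n d : ℕ) {r : ℕ} (ts : Fin r → List (Fin n)) : Prop :=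
  (∀ j, Lyn (ts j) ∧ (ts j).length < d) ∧ ∀ t : List (Fin n), Lyn t → t.length < d → ∃ j, ts j = t

end Words

section Alg

variable (k : Type u) [Field k]

/-- The standard identity of degree `d` for products of the `a i`. -/
def AltR {R : Type u} [Ring R] (n d : ℕ) (a : Fin n → R) : Prop :=
  ∀ f : Fin d → List (Fin n), ∑ σ : Equiv.Perm (Fin d),
    (Equiv.Perm.sign σ : ℤ) • ((List.ofFn (f ∘ σ)).flatten.map a).prod = 0

/-- The standard identity of degree `d` for products of the operators `⁅·, x i⁆`. -/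
def AltL {F : Type u} [LieRing F] (n d : ℕ) (x : Fin n → F) : Prop :=
  ∀ (m : F) (f : Fin d → List (Fin n)), ∑ σ : Equiv.Perm (Fin d),
    (Equiv.Perm.sign σ : ℤ) • wd m ((List.ofFn (f ∘ σ)).flatten.map x) = 0

/-- The linear combinations of the words of the same length as `w` and larger than `w`, evaluated in `R`. -/
def Up {R : Type u} [Ring R] [Algebra k R] {n : ℕ} (a : Fin n → R) (w : List (Fin n)) :
    Submodule k R :=
  Submodule.span k {r | ∃ w' : List (Fin n), w'.length = w.length ∧ Ls w w' ∧
    r = (w'.map a).prod}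

/-- `φ` is a homomorphism from a Lie algebra to the commutator algebra of an associative algebra. -/
def AHom {L R : Type u} [LieRing L] [LieAlgebra k L] [Ring R] [Algebra k R] (φ : L →ₗ[k] R) : Prop :=
  ∀ a b, φ ⁅a, b⁆ = φ a * φ b - φ b * φ a

/-- `g t` is a Lie polynomial with the smallest associative word `t`, for all Lyndon words `t`. -/
def Brk (n : ℕ) (g : List (Fin n) → FreeLieAlgebra k (Fin n)) : Prop :=
  (∀ i, g [i] = FreeLieAlgebra.of k i) ∧ ∀ t : List (Fin n), Lyn t →
    ∀ (L : Type u) [LieRing L] [LieAlgebra k L] (R : Type u) [Ring R] [Algebra k R] (φ : L →ₗ[k] R),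
      AHom k φ → ∀ x : Fin n → L,
      φ (FreeLieAlgebra.lift k x (g t)) - (t.map fun i => φ (x i)).prod ∈
        Up k (fun i => φ (x i)) t

/-- Linear combinations of the `u j`. -/
def cmb {F : Type u} [AddCommGroup F] [Module k F] {r : ℕ} (u : Fin r → F) (t : Fin r → k) : F :=
  ∑ j, t j • u j

/-- The operators `S t` depend polynomially on `t`, with degree at most `N`. -/
def PolyS {X : Type u} [AddCommGroup X] [Module k X] (r N : ℕ)
    (S : (Fin r → k) → Module.End k X) : Prop :=
  ∃ (s : Finset (Fin r → ℕ)) (Q : (Fin r → ℕ) → Module.End k X), (∀ α ∈ s, ∑ i, α i ≤ N) ∧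
    ∀ t, S t = ∑ α ∈ s, (∏ i, t i ^ α i) • Q α

/-- The operators `S t` on the Lie algebra `X ⊇ Φ (F)`: they are linear over `X`, commute, and
`(ad v)^(P + N) = S t (ad v)^P` for `v = Φ (cmb u t)`. -/
structure SOp {F X : Type u} [LieRing F] [LieAlgebra k F] [LieRing X] [LieAlgebra k X]
    (Φ : F →ₗ⁅k⁆ X) (P N : ℕ) {r : ℕ} (u : Fin r → F) (S : (Fin r → k) → Module.End k X) : Prop where
  poly : PolyS k r N S
  lin : ∀ t (a b : X), S t ⁅a, b⁆ = ⁅S t a, b⁆
  comm : ∀ t t' (a : X), S t (S t' a) = S t' (S t a)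
  pow : ∀ t (a : X), pw k (Φ (cmb k u t)) (P + N) a = S t (pw k (Φ (cmb k u t)) P a)

/-- All operators `S t` are combinations of those with `t` in the list `l`. -/
def Spn {X : Type u} [AddCommGroup X] [Module k X] {r : ℕ}
    (S : (Fin r → k) → Module.End k X) (l : List (Fin r → k)) : Prop :=
  ∀ t, S t ∈ Submodule.span k {R | ∃ t' ∈ l, R = S t'}

/-- The variety is residually of bounded dimension in every finite rank: for every `n` there is a `D` such that every
element of the free Lie algebra of rank `n` outside the verbal ideal is mapped to a nonzero element of some Lie algebra of the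
variety which has dimension at most `D` over an extension field of `k`. -/
def ResBdd (Id : Set (FreeLieAlgebra k ℕ)) : Prop :=
  ∀ n : ℕ, ∃ D : ℕ, ∀ f : FreeLieAlgebra k (Fin n), f ∉ verbalIdeal Id n →
    ∃ (K : Type u) (_ : Field K) (_ : Algebra k K) (A : Type u) (_ : LieRing A)
      (_ : LieAlgebra k A) (_ : LieAlgebra K A) (_ : IsScalarTower k K A),
      FiniteDimensional K A ∧ Module.finrank K A ≤ D ∧ InVariety Id A ∧
        ∃ ρ : Fin n → A, FreeLieAlgebra.lift k ρ f ≠ 0

end Alg

end Pool.Agent.Lib.MP_240c17_al.Rep
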