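import Pool.Agent.Lib.MP_240c17_al.Rep.Spec
import Pool.Agent.Lib.MP_240c17_al.Semi.Ext

/-!
# Algebraic closure of the extension field (helper25)
-/

set_option autoImplicit false

namespace Pool.Agent.Lib.MP_240c17_al.Rep

universe u

open Pool.Agent.Lib.MP_240c17_al Pool.Agent.Lib.MP_240c17_al.Two Pool.Agent.Lib.MP_240c17_al.Tor
open scoped TensorProduct

/-- **Base change.** -/
theorem baseChg : BaseChgProp.{u} := by
  intro k _ _ K _ _ A _ _ _ _ _ n f hf
  obtain ⟨ρ, hρ⟩ := hf
  let K' := AlgebraicClosure K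
  have htow : ∀ (t : k) (z : K' ⊗[K] A), t • z = (algebraMap k K' t) • z := fun t z =>
    (algebraMap_smul K' t z).symm
  let _ : LieAlgebra k (K' ⊗[K] A) :=
    { lie_smul := by
        intro t x y
        rw [htow, lie_smul, htow] }
  let j : A →ₗ⁅k⁆ (K' ⊗[K] A) :=
    { toFun := fun a => (1 : K') ⊗ₜ[K] a
      map_add' := fun a b => TensorProduct.tmul_add _ _ _
      map_smul' := by
        intro t a
        show (1 : K') ⊗ₜ[K] (t • a) = t • ((1 : K') ⊗ₜ[K] a)
        rw [← algebraMap_smul K t a, TensorProduct.tmul_smul, algebraMap_smul]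
      map_lie' := by
        intro x y
        show (1 : K') ⊗ₜ[K] ⁅x, y⁆ = ⁅(1 : K') ⊗ₜ[K] x, (1 : K') ⊗ₜ[K] y⁆
        rw [LieAlgebra.ExtendScalars.bracket_tmul, mul_one] }
  have hj : ∀ x, j x = (1 : K') ⊗ₜ[K] x := fun x => rfl
  have hspan : Submodule.span K' (Set.range j) = ⊤ := by
    rw [eq_top_iff]
    intro z _
    induction z using TensorProduct.induction_on with
    | zero => exact Submodule.zero_mem _
    | tmul a x =>
      have h1 : a ⊗ₜ[K] x = a • j x := by
        rw [hj, TensorProduct.smul_tmul', smul_eq_mul, mul_one]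
      rw [h1]
      exact Submodule.smul_mem _ _ (Submodule.subset_span ⟨x, rfl⟩)
    | add z w hz hw => exact Submodule.add_mem _ (hz trivial) (hw trivial)
  have hinj : Function.Injective j := by
    intro x y hxy
    rw [hj, hj] at hxy
    have h1 : Function.Injective (LinearMap.rTensor A (Algebra.linearMap K K')) :=
      Module.Flat.rTensor_preserves_injective_linearMap _ (algebraMap K K').injective
    have h2 : (1 : K) ⊗ₜ[K] x = (1 : K) ⊗ₜ[K] y := by
      apply h1
      simpa using hxy
    have h3 := congrArg (TensorProduct.lid K A) h2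
    simpa using h3
  have hB : Semi.idOf k A ⊆ Semi.idOf k (K' ⊗[K] A) := Semi.ext_ k K' A (K' ⊗[K] A) j hspan
  refine ⟨K', inferInstance, inferInstance, inferInstance, K' ⊗[K] A, inferInstance, inferInstance,
    inferInstance, inferInstance, inferInstance, ?_, hB, fun i => j (ρ i), ?_⟩
  · rw [Module.finrank_baseChange]
  · have h4 : FreeLieAlgebra.lift k (fun i => j (ρ i)) = j.comp (FreeLieAlgebra.lift k ρ) := by
      apply FreeLieAlgebra.hom_ext
      intro i
      simp
    rw [h4]
    intro h5
    apply hρ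
    apply hinj
    rw [map_zero]
    exact h5

end Pool.Agent.Lib.MP_240c17_al.Rep
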