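import Pool.Agent.Lib.MP_240c17_al.Rep.Spec

/-!
# MP_240c17_al, Rep/Blocks: decomposition of a word into blocks (helper37)
-/

universe u

namespace Pool.Agent.Lib.MP_240c17_al.Rep

open Pool.Agent.Lib.MP_240c17_al Pool.Agent.Lib.MP_240c17_al.Two Pool.Agent.Lib.MP_240c17_al.Tor

namespace BlocksAux

variable {k : ℕ}

theorem splitA (w : List (Fin (k + 1))) : ∃ v r, w = v ++ r ∧ (0 : Fin (k + 1)) ∉ v ∧
    (r = [] ∨ ∃ r', r = 0 :: r') := by
  induction w with
  | nil => exact ⟨[], [], rfl, by simp, Or.inl rfl⟩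
  | cons x w ih =>
    by_cases hx : x = 0
    · exact ⟨[], x :: w, rfl, by simp, Or.inr ⟨w, by rw [hx]⟩⟩
    · obtain ⟨v, r, h1, h2, h3⟩ := ih
      refine ⟨x :: v, r, by rw [h1]; rfl, ?_, h3⟩
      rw [List.mem_cons, not_or]
      exact ⟨Ne.symm hx, h2⟩

theorem splitB (w : List (Fin (k + 1))) : ∃ (i : ℕ) (r : List (Fin (k + 1))),
    w = List.replicate i 0 ++ r ∧ (r = [] ∨ ∃ x r', x ≠ 0 ∧ r = x :: r') := by
  induction w with
  | nil => exact ⟨0, [], rfl, Or.inl rfl⟩
  | cons x w ih =>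
    by_cases hx : x = 0
    · obtain ⟨i, r, h1, h2⟩ := ih
      refine ⟨i + 1, r, ?_, h2⟩
      rw [List.replicate_succ, h1, hx]; rfl
    · exact ⟨0, x :: w, rfl, Or.inr ⟨x, w, hx, rfl⟩⟩

/-- the hypotheses on the word -/
structure Good (q N1 : ℕ) (w : List (Fin (k + 1))) : Prop where
  z : ∀ a b : List (Fin (k + 1)), w ≠ a ++ List.replicate q 0 ++ b
  u : ∀ a u b : List (Fin (k + 1)), w = a ++ u ++ b → (0 : Fin (k + 1)) ∉ u → u.length < N1

theorem Good.suffix {q N1 : ℕ} {x w : List (Fin (k + 1))} (h : Good q N1 (x ++ w)) :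
    Good q N1 w := by
  refine ⟨fun a b hab => h.z (x ++ a) b ?_, fun a u b hab hu => h.u (x ++ a) u b ?_ hu⟩
  · rw [hab]; simp only [List.append_assoc]
  · rw [hab]; simp only [List.append_assoc]

theorem Good.lt {q N1 : ℕ} {i : ℕ} {x w : List (Fin (k + 1))}
    (h : Good q N1 (x ++ (List.replicate i 0 ++ w))) : i < q := by
  by_contra hi
  push Not at hi
  refine h.z x (List.replicate (i - q) 0 ++ w) ?_
  have e : List.replicate i (0 : Fin (k + 1)) = List.replicate q 0 ++ List.replicate (i - q) 0 := by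
    rw [List.replicate_append_replicate]
    congr 1
    omega
  rw [e]
  simp only [List.append_assoc]

theorem main (q N1 : ℕ) : ∀ (n : ℕ) (w : List (Fin (k + 1))), w.length ≤ n → Good q N1 w →
    (w = [] ∨ ∃ r, w = 0 :: r) →
    ∃ (zs : List (List (Fin (k + 1)))) (j : ℕ), w = zs.flatten ++ List.replicate j 0 ∧ j < q ∧
      ∀ z ∈ zs, ∃ (i : ℕ) (v : List (Fin (k + 1))), 1 ≤ i ∧ i < q ∧ v ≠ [] ∧
        (0 : Fin (k + 1)) ∉ v ∧ v.length < N1 ∧ z = List.replicate i 0 ++ v := by
  intro n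
  induction n with
  | zero =>
    intro w hn hg _
    have hw : w = [] := List.length_eq_zero_iff.1 (by omega)
    subst hw
    exact ⟨[], 0, by simp, Good.lt (x := []) (w := []) (i := 0) (by simpa using hg), by simp⟩
  | succ n ih =>
    intro w hn hg hw
    rcases hw with hw | ⟨r, hw⟩
    · subst hw
      exact ⟨[], 0, by simp, Good.lt (x := []) (w := []) (i := 0) (by simpa using hg), by simp⟩
    obtain ⟨i, r2, h1, h2⟩ := splitB w
    have hi : i < q := Good.lt (x := []) (w := r2) (i := i) (by rw [List.nil_append, ← h1]; exact hg)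
    have hi1 : 1 ≤ i := by
      by_contra h0
      have h0' : i = 0 := by omega
      rw [h0', List.replicate_zero, List.nil_append] at h1
      rcases h2 with h2 | ⟨x, r', hx, h2⟩
      · rw [h2, hw] at h1; exact List.cons_ne_nil _ _ h1
      · rw [h2, hw] at h1
        exact hx (List.cons.inj h1).1.symm
    rcases h2 with h2 | ⟨x, r', hx, h2⟩
    · exact ⟨[], i, by rw [h1, h2]; simp, hi, by simp⟩
    obtain ⟨v, r3, h3, h4, h5⟩ := splitA r2
    have hv : v ≠ [] := by
      rintro rfl
      rw [List.nil_append, h2] at h3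
      rcases h5 with h5 | ⟨r4, h5⟩
      · rw [h5] at h3; exact List.cons_ne_nil _ _ h3
      · rw [h5] at h3; exact hx (List.cons.inj h3).1
    have hvN : v.length < N1 := by
      refine hg.u (List.replicate i 0) v r3 ?_ h4
      rw [h1, h3, List.append_assoc]
    have hg3 : Good q N1 r3 := by
      refine Good.suffix (x := List.replicate i 0 ++ v) ?_
      rw [List.append_assoc, ← h3, ← h1]
      exact hg
    have hlen : r3.length ≤ n := by
      have e : w.length = i + (v.length + r3.length) := by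
        rw [h1, h3]; simp
      omega
    obtain ⟨zs, j, g1, g2, g3⟩ := ih r3 hlen hg3 h5
    refine ⟨(List.replicate i 0 ++ v) :: zs, j, ?_, g2, ?_⟩
    · rw [List.flatten_cons, h1, h3, g1]
      simp only [List.append_assoc]
    · intro z hz
      rcases List.mem_cons.1 hz with hz | hz
      · exact ⟨i, v, hi1, hi, hv, h4, hvN, hz⟩
      · exact g3 z hz

end BlocksAux

open BlocksAux

theorem blocks : BlocksProp := by
  intro k q N1 w hz hu
  have hg : Good q N1 w := ⟨hz, hu⟩
  obtain ⟨v0, r, h1, h2, h3⟩ := splitA w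
  have hgr : Good q N1 r := Good.suffix (x := v0) (by rw [← h1]; exact hg)
  obtain ⟨zs, j, g1, g2, g3⟩ := main q N1 r.length r le_rfl hgr h3
  refine ⟨v0, zs, j, ?_, hu [] v0 r (by rw [h1]; simp) h2, g2, g3⟩
  rw [h1, g1, List.append_assoc]

end Pool.Agent.Lib.MP_240c17_al.Rep
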