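import Pool.Agent.Lib.MP_240c17_al.Rep.Spec

/-!
# Lie brackets of Lyndon words
-/

set_option autoImplicit false

namespace Pool.Agent.Lib.MP_240c17_al.Rep

universe u

open Pool.Agent.Lib.MP_240c17_al Pool.Agent.Lib.MP_240c17_al.Two Pool.Agent.Lib.MP_240c17_al.Tor

namespace BrkAux

section

variable (k : Type u) [Field k] {R : Type u} [Ring R] [Algebra k R] {n : ℕ} (a : Fin n → R)

/-- words of the same length which are equal or larger -/
def Ge (w : List (Fin n)) : Submodule k R :=
  Submodule.span k {r | ∃ w' : List (Fin n), w'.length = w.length ∧ (w' = w ∨ Ls w w') ∧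
    r = (w'.map a).prod}

theorem up_le_ge (w : List (Fin n)) : Up k a w ≤ Ge k a w := by
  apply Submodule.span_mono
  rintro r ⟨w', h1, h2, h3⟩
  exact ⟨w', h1, Or.inr h2, h3⟩

theorem mem_ge (w : List (Fin n)) : (w.map a).prod ∈ Ge k a w :=
  Submodule.subset_span ⟨w, rfl, Or.inl rfl, rfl⟩

theorem mem_ge_of_sub {w : List (Fin n)} {A : R} (h : A - (w.map a).prod ∈ Up k a w) :
    A ∈ Ge k a w := by
  have h1 := (Ge k a w).add_mem (up_le_ge k a w h) (mem_ge k a w)
  rwa [sub_add_cancel] at h1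

theorem mul_mem_of {S T : Set R} {M : Submodule k R} (h : ∀ x ∈ S, ∀ y ∈ T, x * y ∈ M) {r s : R}
    (hr : r ∈ Submodule.span k S) (hs : s ∈ Submodule.span k T) : r * s ∈ M := by
  have h1 : r * s ∈ Submodule.span k S * Submodule.span k T := Submodule.mul_mem_mul hr hs
  rw [Submodule.span_mul_span] at h1
  refine Submodule.span_le.2 ?_ h1
  rintro z ⟨x, hx, y, hy, rfl⟩
  exact h x hx y hy

theorem one1 {v w : List (Fin n)} {B' : R} (hB : B' ∈ Up k a w) :
    (v.map a).prod * B' ∈ Up k a (v ++ w) := by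
  refine mul_mem_of k (S := {(v.map a).prod}) (T := _) ?_
    (Submodule.subset_span rfl) hB
  rintro x hx y ⟨w', h1, h2, rfl⟩
  rw [Set.mem_singleton_iff] at hx
  subst hx
  refine Submodule.subset_span ⟨v ++ w', by simp [h1], h2.append_left v, ?_⟩
  rw [List.map_append, List.prod_append]

theorem one2 {v w : List (Fin n)} {A' B : R} (hA : A' ∈ Up k a v) (hB : B ∈ Ge k a w) :
    A' * B ∈ Up k a (v ++ w) := by
  refine mul_mem_of k ?_ hA hB
  rintro x ⟨v', h1, h2, rfl⟩ y ⟨w', h3, _, rfl⟩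
  refine Submodule.subset_span ⟨v' ++ w', by simp [h1, h3], h2.append_right w w', ?_⟩
  rw [List.map_append, List.prod_append]

theorem two {v w : List (Fin n)} {A B : R} (hA : A ∈ Ge k a v) (hB : B ∈ Ge k a w)
    (h : Ls (v ++ w) w) : B * A ∈ Up k a (v ++ w) := by
  refine mul_mem_of k ?_ hB hA
  rintro x ⟨w', h1, h2, rfl⟩ y ⟨v', h3, _, rfl⟩
  refine Submodule.subset_span ⟨w' ++ v', by simp [h1, h3, Nat.add_comm], ?_, ?_⟩
  · have h4 : Ls (v ++ w) w' := by
      rcases h2 with rfl | h2
      · exact h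
      · exact h.trans h2
    have h5 := h4.append_right [] v'
    rwa [List.append_nil] at h5
  · rw [List.map_append, List.prod_append]

theorem bracket {v w : List (Fin n)} {A B : R} (hA : A - (v.map a).prod ∈ Up k a v)
    (hB : B - (w.map a).prod ∈ Up k a w) (h : Ls (v ++ w) w) :
    (A * B - B * A) - ((v ++ w).map a).prod ∈ Up k a (v ++ w) := by
  have hA' := mem_ge_of_sub k a hA
  have hB' := mem_ge_of_sub k a hB
  have e : (A * B - B * A) - ((v ++ w).map a).prod
      = (v.map a).prod * (B - (w.map a).prod) + (A - (v.map a).prod) * B - B * A := by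
    rw [List.map_append, List.prod_append]
    noncomm_ring
  rw [e]
  exact Submodule.sub_mem _ (Submodule.add_mem _ (one1 k a hB) (one2 k a hA hB'))
    (two k a hA' hB' h)

end

/-- the property of the Lie polynomial -/
def Pol (k : Type u) [Field k] (n : ℕ) (h : FreeLieAlgebra k (Fin n)) (t : List (Fin n)) : Prop :=
  ∀ (L : Type u) [LieRing L] [LieAlgebra k L] (R : Type u) [Ring R] [Algebra k R] (φ : L →ₗ[k] R),
    AHom k φ → ∀ x : Fin n → L,
    φ (FreeLieAlgebra.lift k x h) - (t.map fun i => φ (x i)).prod ∈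
      Up k (fun i => φ (x i)) t

theorem pol_of (k : Type u) [Field k] (n : ℕ) (i : Fin n) :
    Pol k n (FreeLieAlgebra.of k i) [i] := by
  intro L _ _ R _ _ φ _ x
  have e : φ (FreeLieAlgebra.lift k x (FreeLieAlgebra.of k i))
      - (([i] : List (Fin n)).map fun i => φ (x i)).prod = 0 := by
    rw [FreeLieAlgebra.lift_of_apply]
    simp
  rw [e]
  exact Submodule.zero_mem _

theorem ex (h1 : LynFactProp) (k : Type u) [Field k] (n : ℕ) : ∀ (m : ℕ) (t : List (Fin n)),
    t.length ≤ m → Lyn t → ∃ h, Pol k n h t := by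
  intro m
  induction m with
  | zero =>
    intro t ht hL
    exact absurd (List.length_eq_zero_iff.1 (by omega)) hL.1
  | succ m ih =>
    intro t ht hL
    by_cases h2 : 2 ≤ t.length
    · obtain ⟨v, w, hv, hw, rfl⟩ := h1 n t hL h2
      have l1 : 0 < v.length := List.length_pos_iff.2 hv.1
      have l2 : 0 < w.length := List.length_pos_iff.2 hw.1
      rw [List.length_append] at ht
      obtain ⟨hv', pv⟩ := ih v (by omega) hv
      obtain ⟨hw', pw⟩ := ih w (by omega) hw
      refine ⟨⁅hv', hw'⁆, ?_⟩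
      intro L _ _ R _ _ φ hφ x
      rw [LieHom.map_lie, hφ]
      exact bracket k (fun i => φ (x i)) (pv L R φ hφ x) (pw L R φ hφ x)
        (hL.2 v w hv.1 hw.1 rfl)
    · have h3 : 0 < t.length := List.length_pos_iff.2 hL.1
      obtain ⟨i, rfl⟩ := List.length_eq_one_iff.1 (by omega : t.length = 1)
      exact ⟨_, pol_of k n i⟩

end BrkAux

open BrkAux in
theorem brk (h1 : LynFactProp) : BrkProp.{u} := by
  intro k _ n
  have h : ∀ t : List (Fin n), ∃ h : FreeLieAlgebra k (Fin n),
      (∀ i, t = [i] → h = FreeLieAlgebra.of k i) ∧ (Lyn t → Pol k n h t) := by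
    intro t
    by_cases ht : ∃ i, t = [i]
    · obtain ⟨i, rfl⟩ := ht
      refine ⟨FreeLieAlgebra.of k i, ?_, fun _ => pol_of k n i⟩
      intro j hj
      rw [List.cons.injEq] at hj
      rw [hj.1]
    · by_cases hL : Lyn t
      · obtain ⟨h, hh⟩ := ex h1 k n t.length t le_rfl hL
        exact ⟨h, fun i hi => absurd ⟨i, hi⟩ ht, fun _ => hh⟩
      · exact ⟨0, fun i hi => absurd ⟨i, hi⟩ ht, fun h => absurd h hL⟩
  choose g hg using h
  exact ⟨g, fun i => (hg [i]).1 i rfl, fun t ht => (hg t).2 ht⟩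

end Pool.Agent.Lib.MP_240c17_al.Rep
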