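import Pool.Agent.Lib.MP_240c17_al.Rep.Spec
import Pool.Agent.Lib.MP_240c17_al.Two.Mod
import Pool.Agent.Lib.MP_240c17_al.Two.Hilbert
import Pool.Agent.Lib.MP_240c17_al.Two.Rfd
import Pool.Agent.Lib.MP_240c17_al.Two.Ann
import Pool.Agent.Lib.MP_240c17_al.Two.Integral
import Pool.Agent.Lib.MP_240c17_al.Two.Closed

/-!
(C3) Closedness for commuting families with `z t * T t ^ a = z t ^ (1 + b)` and additional operators `y j`.
-/

set_option autoImplicit false

namespace Pool.Agent.Lib.MP_240c17_al.Rep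

universe u

open Pool.Agent.Lib.MP_240c17_al Pool.Agent.Lib.MP_240c17_al.Two Pool.Agent.Lib.MP_240c17_al.Tor

private theorem closedT2_append {n m : ℕ} {α : Type u} {f : Fin n → α} {g : Fin m → α}
    {P : α → Prop} (hf : ∀ i, P (f i)) (hg : ∀ j, P (g j)) : ∀ l, P (Fin.append f g l) := by
  intro l
  refine Fin.addCases (fun i => ?_) (fun j => ?_) l
  · rw [Fin.append_left]
    exact hf i
  · rw [Fin.append_right]
    exact hg j

theorem closedT2 (h : X0LineProp.{u}) : ClosedT2Prop.{u} := by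
  classical
  intro k _ _ X _ _ r n m d a b z T ν y Ψ B ζ ha hz hT hzz hTT hzT hyz hyT hyy hrel hgen hB hyB
    hBgen hΨ hnil hζ
  obtain ⟨X₀, q, hX1, hX3, hX4⟩ := h k X r d a b z T hz hT hzz hTT hzT hrel
  obtain ⟨q', hq'⟩ := hnil X₀ q (fun ψ hψ w hw => hX1 ψ (fun t => (hΨ ψ hψ t).1)
    (fun t => (hΨ ψ hψ t).2) w hw) hX3
  have hcl : ClosedProp.{u} := closed (hilbert mod_) (rfd mod_) (ann mod_) polyFd
  obtain ⟨σ, hσ⟩ : ∃ σ : Fin (n + m) → Module.End k X,
      σ = Fin.append (fun i => z (ν i)) y := ⟨_, rfl⟩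
  obtain ⟨τ, hτ⟩ : ∃ τ : Fin (n + m) → Module.End k X,
      τ = Fin.append (fun i => T (ν i)) (fun _ => 0) := ⟨_, rfl⟩
  have hσl : ∀ i : Fin n, σ (Fin.castAdd m i) = z (ν i) := by
    intro i; rw [hσ, Fin.append_left]
  have hσr : ∀ j : Fin m, σ (Fin.natAdd n j) = y j := by
    intro j; rw [hσ, Fin.append_right]
  have hτl : ∀ i : Fin n, τ (Fin.castAdd m i) = T (ν i) := by
    intro i; rw [hτ, Fin.append_left]
  have hσP : ∀ P : Module.End k X → Prop, (∀ i, P (z (ν i))) → (∀ j, P (y j)) → ∀ l, P (σ l) := by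
    intro P h1 h2
    rw [hσ]
    exact closedT2_append (P := P) h1 h2
  have hτP : ∀ P : Module.End k X → Prop, (∀ i, P (T (ν i))) → P 0 → ∀ l, P (τ l) := by
    intro P h1 h2
    rw [hτ]
    exact closedT2_append (P := P) h1 (fun _ => h2)
  have hss : ∀ i j, Commute (σ i) (σ j) := by
    intro i
    refine hσP _ (fun j => ?_) (fun j => ?_)
    · exact hσP (fun φ => Commute φ (z (ν j))) (fun i => hzz _ _) (fun i => hyz _ _) i
    · exact hσP (fun φ => Commute φ (y j)) (fun i => (hyz _ _).symm) (fun i => hyy _ _) i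
  have htt : ∀ i j, Commute (τ i) (τ j) := by
    intro i
    refine hτP _ (fun j => ?_) (Commute.zero_right _)
    exact hτP (fun φ => Commute φ (T (ν j))) (fun i => hTT _ _) (Commute.zero_left _) i
  have hst : ∀ i j, Commute (σ i) (τ j) := by
    intro i
    refine hτP _ (fun j => ?_) (Commute.zero_right _)
    exact hσP (fun φ => Commute φ (T (ν j))) (fun i => hzT _ _) (fun i => hyT _ _) i
  have hXz : ∀ t, ∀ w ∈ X₀, z t w ∈ X₀ := fun t =>
    hX1 (z t) (fun t' => hzz _ _) (fun t' => hzT _ _)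
  have hXT : ∀ t, ∀ w ∈ X₀, T t w ∈ X₀ := fun t =>
    hX1 (T t) (fun t' => (hzT _ _).symm) (fun t' => hTT _ _)
  have hXy : ∀ j, ∀ w ∈ X₀, y j w ∈ X₀ := fun j =>
    hX1 (y j) (fun t' => hyz _ _) (fun t' => hyT _ _)
  have hsX : Stab (Sum.elim σ τ) X₀ := by
    refine stab_elim.mpr ⟨fun i => ?_, fun i => ?_⟩
    · exact hσP (fun φ => ∀ w ∈ X₀, φ w ∈ X₀) (fun i => hXz _) (fun j => hXy j) i
    · exact hτP (fun φ => ∀ w ∈ X₀, φ w ∈ X₀) (fun i => hXT _)
        (fun w _ => by rw [LinearMap.zero_apply]; exact X₀.zero_mem) i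
  have hgen2 : ∃ S : Finset X, Two.gen (Sum.elim σ τ) (S : Set X) = ⊤ := by
    obtain ⟨S, hS⟩ := hgen
    refine ⟨S, ?_⟩
    rw [eq_top_iff, ← hS]
    refine gen_le (fun i w hw => ?_) (subset_gen _ _)
    have h1 := (stab_elim.mp (gen_stab (Sum.elim σ τ) (S : Set X))).2 (Fin.castAdd m i) w hw
    rw [hτl] at h1
    exact h1
  have hcomm : ∀ i j x, (Sum.elim σ τ) i ((Sum.elim σ τ) j x) =
      (Sum.elim σ τ) j ((Sum.elim σ τ) i x) := by
    rintro (i | i) (j | j) x
    · exact LinearMap.congr_fun (hss i j).eq x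
    · exact LinearMap.congr_fun (hst i j).eq x
    · exact (LinearMap.congr_fun (hst j i).eq x).symm
    · exact LinearMap.congr_fun (htt i j).eq x
  have hint : ∃ S : Finset X, Two.gen σ (S : Set X) ⊔ X₀ = ⊤ := by
    apply integral k X (Fin (n + m)) (Fin n) σ (fun i => T (ν i)) X₀ ⊤
    · refine stab_elim.mpr ⟨(stab_elim.mp hsX).1, fun i w hw => hXT _ w hw⟩
    · intro i j x _
      have h1 : (Sum.elim σ fun i => T (ν i)) i ((Sum.elim σ fun i => T (ν i)) j x) =
          (Sum.elim σ fun i => T (ν i)) j ((Sum.elim σ fun i => T (ν i)) i x) := by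
        rcases i with i | i <;> rcases j with j | j
        · exact hcomm (Sum.inl i) (Sum.inl j) x
        · have := hcomm (Sum.inl i) (Sum.inr (Fin.castAdd m j)) x
          simp only [Sum.elim_inl, Sum.elim_inr, hτl] at this
          exact this
        · have := hcomm (Sum.inr (Fin.castAdd m i)) (Sum.inl j) x
          simp only [Sum.elim_inl, Sum.elim_inr, hτl] at this
          exact this
        · exact LinearMap.congr_fun (hTT (ν i) (ν j)).eq x
      rw [h1, sub_self]
      exact X₀.zero_mem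
    · obtain ⟨S, hS⟩ := hgen
      refine ⟨S, ?_⟩
      have h1 : Two.gen (Sum.elim σ fun i => T (ν i)) (S : Set X) = ⊤ := by
        rw [eq_top_iff, ← hS]
        exact gen_le (stab_elim.mp (gen_stab _ (S : Set X))).2 (subset_gen _ _)
      rw [h1, top_sup_eq]
    · intro j
      refine ⟨a, fun l => if l = 0 then σ (Fin.castAdd m j) ^ b else 0, ?_, ?_⟩
      · intro l
        by_cases hl : l = 0
        · simp only [if_pos hl]
          have h5 : σ (Fin.castAdd m j) ∈ Algebra.adjoin k (Set.range σ) :=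
            Algebra.subset_adjoin ⟨_, rfl⟩
          exact pow_mem h5 b
        · simp only [if_neg hl]
          exact zero_mem _
      · intro x _
        rw [Finset.sum_eq_single 0]
        · simp only [if_true, pow_zero, Module.End.one_apply]
          rw [hσl]
          exact hX4 (ν j) x
        · intro l _ hl
          simp only [if_neg hl, LinearMap.zero_apply]
        · intro h0
          exact absurd (Finset.mem_range.mpr ha) h0
  have hBs : Stab σ B := fun i =>
    hσP (fun φ => ∀ w ∈ B, φ w ∈ B) (fun i => hB _) (fun j => hyB j) i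
  obtain ⟨D, _, hD2, hD3, hD4⟩ := hcl k X (n + m) σ τ ⊥ X₀ B (q + q') ζ hss htt hst
    (stab_bot _) hsX bot_le bot_le hBs (by
      obtain ⟨S, hS⟩ := hgen2
      exact ⟨S, by rw [hS, top_sup_eq]⟩) (by
      obtain ⟨S, hS⟩ := hBgen
      refine ⟨S, ?_⟩
      rw [sup_bot_eq]
      refine le_antisymm (gen_le hBs ?_) ?_
      · rw [← hS]
        exact subset_gen _ _
      · rw [← hS]
        refine gen_le (fun j w hw => ?_) (subset_gen _ _)
        have h1 := gen_stab σ (S : Set X) (Fin.natAdd n j) w hw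
        rw [hσr] at h1
        exact h1) hint (fun i x hx => by
      rw [Submodule.mem_bot]
      revert i
      refine hσP (fun φ => (φ ^ (q + q')) x = 0) (fun i => ?_) (fun j => ?_)
      · rw [add_comm, pow_add, Module.End.mul_apply, hX3 (ν i) x hx, map_zero]
      · rw [pow_add, Module.End.mul_apply, hq' j x hx, map_zero]) hζ
  refine ⟨D, fun i w hw => ?_, hD3, hD4⟩
  have h1 := (stab_elim.mp hD2).2 (Fin.castAdd m i) w hw
  rw [hτl] at h1
  exact h1

end Pool.Agent.Lib.MP_240c17_al.Rep
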