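import Pool.Agent.Lib.MP_240c17_al.Rep.Spec

/-!
# (S7) Commuting words are powers of the same word
-/

set_option autoImplicit false

namespace Pool.Agent.Lib.MP_240c17_al.Rep

universe u

open Pool.Agent.Lib.MP_240c17_al Pool.Agent.Lib.MP_240c17_al.Two Pool.Agent.Lib.MP_240c17_al.Tor

namespace CommAux

theorem rp_add {α : Type*} (m n : ℕ) (u : List α) : rp (m + n) u = rp m u ++ rp n u := by
  unfold rp
  rw [List.replicate_add, List.flatten_append]

theorem rp_zero {α : Type*} (u : List α) : rp 0 u = [] := by simp [rp]

theorem rp_one {α : Type*} (u : List α) : rp 1 u = u := by simp [rp]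

end CommAux

open CommAux in
theorem comm_ : CommProp := by
  intro k x y hxy
  obtain ⟨n, hn⟩ : ∃ n, x.length + y.length = n := ⟨_, rfl⟩
  induction n using Nat.strong_induction_on generalizing x y with
  | _ n ih =>
    by_cases hx : x = []
    · exact ⟨y, 0, 1, by rw [rp_zero, hx], by rw [rp_one]⟩
    by_cases hy : y = []
    · exact ⟨x, 1, 0, by rw [rp_one], by rw [rp_zero, hy]⟩
    have hx0 : 0 < x.length := List.length_pos_iff.mpr hx
    have hy0 : 0 < y.length := List.length_pos_iff.mpr hy
    rcases le_total x.length y.length with hl | hl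
    · have hp : x <+: y := by
        apply List.prefix_of_prefix_length_le (List.prefix_append x y) _ hl
        rw [hxy]
        exact List.prefix_append y x
      obtain ⟨y', rfl⟩ := hp
      rw [List.append_assoc] at hxy
      have h' := List.append_cancel_left hxy
      rw [List.length_append] at hn
      obtain ⟨t, i, j, h1, h2⟩ := ih (x.length + y'.length) (by omega) x y' h' rfl
      exact ⟨t, i, i + j, h1, by rw [rp_add, ← h1, ← h2]⟩
    · have hp : y <+: x := by
        apply List.prefix_of_prefix_length_le (List.prefix_append y x) _ hl
        rw [← hxy]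
        exact List.prefix_append x y
      obtain ⟨x', rfl⟩ := hp
      rw [List.append_assoc] at hxy
      have h' := List.append_cancel_left hxy
      rw [List.length_append] at hn
      obtain ⟨t, i, j, h1, h2⟩ := ih (x'.length + y.length) (by omega) x' y h' rfl
      exact ⟨t, j + i, j, by rw [rp_add, ← h1, ← h2], h2⟩

end Pool.Agent.Lib.MP_240c17_al.Rep
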