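import Pool.Agent.Lib.MP_240c17_al.Rep.Spec
import Pool.Agent.Lib.MP_240c17_al.Tor.Main

/-!
Assembly of the core theorem (Z1).
-/

set_option autoImplicit false

namespace Pool.Agent.Lib.MP_240c17_al.Rep

universe u

open Pool.Agent.Lib.MP_240c17_al Pool.Agent.Lib.MP_240c17_al.Two Pool.Agent.Lib.MP_240c17_al.Tor

theorem core_enum (n d : ℕ) : ∃ (r : ℕ) (ts : Fin r → List (Fin n)), LE n d ts := by
  classical
  have hfin : {t : List (Fin n) | Lyn t ∧ t.length < d}.Finite :=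
    (List.finite_length_lt (Fin n) d).subset (fun t ht => ht.2)
  refine ⟨hfin.toFinset.card, fun j => (hfin.toFinset.equivFin.symm j : List (Fin n)), ?_, ?_⟩
  · intro j
    have h := (hfin.toFinset.equivFin.symm j).2
    rw [Set.Finite.mem_toFinset] at h
    exact h
  · intro t ht hd
    refine ⟨hfin.toFinset.equivFin ⟨t, ?_⟩, ?_⟩
    · rw [Set.Finite.mem_toFinset]
      exact ⟨ht, hd⟩
    · simp

theorem core_cmb_single {k : Type u} [Field k] {F : Type u} [AddCommGroup F] [Module k F] {r : ℕ}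
    (u : Fin r → F) (j : Fin r) : cmb k u (Pi.single j 1) = u j := by
  classical
  unfold cmb
  rw [Finset.sum_eq_single j]
  · simp
  · intro i _ hi
    simp [hi]
  · intro h
    exact absurd (Finset.mem_univ j) h

theorem core (hBrk : BrkProp.{u}) (hNil : LieNilProp.{u}) (hFg : LieFgProp.{u}) (hGT : GTProp.{u})
    (hNL : NilLineProp.{u}) (hGP : GPropsProp.{u}) (hPw : PwNilProp.{u}) (hCof : WdCofProp.{u})
    (hFin : Finish2Prop.{u}) (hKfg : Kfg2Prop.{u}) (hGfg : Gfg2Prop.{u}) (hFrob : FrobProp.{u})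
    (hExt : Sol.ExtGenProp.{u}) (hCofFg : CofFgProp.{u}) (hXfg : XfgProp.{u}) : CoreProp.{u} := by
  intro k _ _ p hp _ F X _ _ _ _ Φ n s N d x K ζ hΦ hx hN _ hAlt hS0 hK hζ
  have hp0 : 0 < p := hp.out.pos
  obtain ⟨g, hg⟩ := hBrk k n
  obtain ⟨r, ts, hts⟩ := core_enum n d
  obtain ⟨u, hu⟩ : ∃ u : Fin r → F, u = fun j => FreeLieAlgebra.lift k x (g (ts j)) := ⟨_, rfl⟩
  obtain ⟨S, hS⟩ := hS0 r u
  obtain ⟨G, T, hG1, hG2⟩ := hGT k F X Φ (p ^ s) N r u S hΦ hS
  obtain ⟨h1, h2, h3, h4, n', ν, hν⟩ := hGP k F X Φ (p ^ s) N r u S G T hΦ hS hG2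
  obtain ⟨M, hM⟩ := hNL k F X (p ^ s) N r u S G hS.poly hG1
  obtain ⟨N0, hN0⟩ := hNil k n d M g hg
  have hw : ∀ w : List (Fin n), N0 ≤ w.length → ∀ z : F, wd z (w.map x) ∈ G := by
    intro w hw z
    refine hN0 F x G.toSubmodule ⊤ hx hAlt le_top ?_ ?_ ?_ w hw z trivial
    · intro i a ha
      exact lie_mem_right ha _
    · intro i a _
      trivial
    · intro t ht htd z _
      obtain ⟨j, rfl⟩ := hts.2 t ht htd
      have := hM j z
      rw [hu] at this
      exact this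
  have hGfc : FC G.toSubmodule ⊤ := hCof k F n x G N0 hx hw
  have hpwG : ∀ y w : F, pw k y N0 w ∈ G := by
    intro y w
    exact hPw k F n x G.toSubmodule ⊤ N0 hx (fun w hw' z _ => hw w hw' z) y w trivial
  obtain ⟨s4, hs4⟩ := main_pow p (max N0 (p ^ s))
  obtain ⟨P', hP'⟩ : ∃ P', P' = p ^ s4 := ⟨_, rfl⟩
  rw [← hP'] at hs4
  have hNP' : N0 ≤ P' := (le_max_left _ _).trans hs4
  have hPP' : p ^ s ≤ P' := (le_max_right _ _).trans hs4
  have hP'pos : 0 < P' := by
    have : 0 < p ^ s := by positivity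
    omega
  have hDerP' : Der k F P' := by rw [hP']; exact hFrob k p F s4
  have hP'G : ∀ y w : F, pw k y P' w ∈ G := by
    intro y w
    obtain ⟨t, rfl⟩ := Nat.exists_eq_add_of_le' hNP'
    rw [pw_add]
    exact pw_mem (hpwG y w) _ t
  obtain ⟨m, b, hb1, hb2⟩ := hExt k F n x G hx hGfc
  have hK1 := hKfg k F m b P' G K hb1 hb2 hP'pos hDerP' (fun j w => hP'G (b j) w) hK
  have hK2 := hXfg k F m b P' G K hDerP' (fun j w => hP'G (b j) w) hK1
  have hGid := hCofFg k F n x hx G hGfc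
  have hTpw : ∀ t, ∀ a ∈ G, ∀ (y : F) (e : ℕ), T t (pw k y e a) = pw k y e (T t a) := by
    intro t a ha y e
    induction e with
    | zero => simp
    | succ e ih =>
      rw [pw_succ, pw_succ, h2 t _ (pw_mem ha y e) y, ih]
  have hG3 := hFg k n d (p ^ s) N g hg hN r ts hts F x G (fun j => T (Pi.single j 1)) hx hAlt
    (fun j a ha => (hG2 _ a ha).1) (fun j a ha z => h2 _ a ha z) (by
      intro j a ha
      have h5 := h4 (Pi.single j 1) a ha
      rw [core_cmb_single, hu] at h5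
      show pw k (FreeLieAlgebra.lift k x (g (ts j))) (p ^ s + N) a =
        T (Pi.single j 1) (pw k (FreeLieAlgebra.lift k x (g (ts j))) (p ^ s) a)
      rw [hTpw _ a ha, h5]) hGid
  have hno := hGfg k F r n' G T ν (fun t a ha => (hG2 t a ha).1) h3 hν hG3
  refine hFin k F r n' m N N P' u b G K T ν ζ hGfc hP'pos hDerP' hP'G h1
    (fun t a ha => (hG2 t a ha).1) h2 h3 ?_ hno hK2 ?_ hζ
  · intro t a ha
    obtain ⟨e, he⟩ := Nat.exists_eq_add_of_le' hPP'
    rw [he, pw_add, h4 t a ha, ← pw_add, add_assoc]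
  · rintro Y Z hYZ ⟨M1, hM1⟩
    obtain ⟨N1, hN1⟩ := hNil k n d M1 g hg
    refine ⟨N1, fun j w hw' => ?_⟩
    refine hPw k F n x Y.toSubmodule Z.toSubmodule N1 hx ?_ (b j) w hw'
    intro l hl z hz
    refine hN1 F x Y.toSubmodule Z.toSubmodule hx hAlt hYZ ?_ ?_ ?_ l hl z hz
    · intro i a ha
      exact lie_mem_right ha _
    · intro i a ha
      exact lie_mem_right ha _
    · intro t ht htd z hz
      obtain ⟨j, rfl⟩ := hts.2 t ht htd
      have h5 := hM1 (Pi.single j 1) z hz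
      rw [core_cmb_single, hu] at h5
      exact h5

end Pool.Agent.Lib.MP_240c17_al.Rep
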