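import Pool.Agent.Lib.MP_240c17_al.Rep.Spec

/-!
# Decomposition of a finite dimensional algebra by the `N`-th powers of eigenvalues
-/

set_option autoImplicit false

namespace Pool.Agent.Lib.MP_240c17_al.Rep

universe u

open Pool.Agent.Lib.MP_240c17_al Pool.Agent.Lib.MP_240c17_al.Two Pool.Agent.Lib.MP_240c17_al.Tor

namespace DecIdAux

section Abstract

variable {K A : Type u} [Field K] [LieRing A] [LieAlgebra K A]

/-- The smallest subspace containing `C` and closed under brackets with `A₀` and `C`. -/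
inductive JP (A₀ C : Submodule K A) : A → Prop
  | base (c : A) : c ∈ C → JP A₀ C c
  | add (a b : A) : JP A₀ C a → JP A₀ C b → JP A₀ C (a + b)
  | smul (t : K) (a : A) : JP A₀ C a → JP A₀ C (t • a)
  | lie (a z : A) : JP A₀ C a → (z ∈ A₀ ∨ z ∈ C) → JP A₀ C ⁅a, z⁆

def JS (A₀ C : Submodule K A) : Submodule K A where
  carrier := {a | JP A₀ C a}
  zero_mem' := JP.base 0 C.zero_mem
  add_mem' := fun ha hb => JP.add _ _ ha hb
  smul_mem' := fun t _ ha => JP.smul t _ ha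

theorem mem_JS {A₀ C : Submodule K A} {a : A} : a ∈ JS A₀ C ↔ JP A₀ C a := Iff.rfl

theorem J_lie {A₀ C : Submodule K A} {b : A} (hb : JP A₀ C b) :
    ∀ a ∈ JS A₀ C, ⁅a, b⁆ ∈ JS A₀ C := by
  induction hb with
  | base c hc => exact fun a ha => JP.lie a c ha (Or.inr hc)
  | add b b' _ _ ih ih' =>
    intro a ha
    rw [lie_add]
    exact (JS A₀ C).add_mem (ih a ha) (ih' a ha)
  | smul t b _ ih =>
    intro a ha
    rw [lie_smul]
    exact (JS A₀ C).smul_mem t (ih a ha)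
  | lie b z _ hz ih =>
    intro a ha
    rw [lie_lie_right]
    exact (JS A₀ C).sub_mem (JP.lie _ z (ih a ha) hz) (ih _ (JP.lie a z ha hz))

theorem J_zero1 {A₀ C C' : Submodule K A} (h1 : ∀ c ∈ C, ∀ c' ∈ C', ⁅c, c'⁆ = 0)
    (h2 : ∀ z ∈ A₀, ∀ c ∈ C', ⁅z, c⁆ ∈ C') {a : A} (ha : JP A₀ C a) : ∀ c ∈ C', ⁅a, c⁆ = 0 := by
  induction ha with
  | base a ha => exact h1 a ha
  | add a b _ _ ih ih' =>
    intro c hc
    rw [add_lie, ih c hc, ih' c hc, add_zero]
  | smul t a _ ih =>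
    intro c hc
    rw [smul_lie, ih c hc, smul_zero]
  | lie a z _ hz ih =>
    intro c hc
    rw [lie_lie_swap, ih c hc, zero_lie, zero_add]
    rcases hz with hz | hz
    · exact ih _ (h2 z hz c hc)
    · rw [h1 z hz c hc, lie_zero]

theorem J_zero2 {A₀ C C' : Submodule K A} (h1 : ∀ c ∈ C, ∀ c' ∈ C', ⁅c, c'⁆ = 0)
    (h2 : ∀ z ∈ A₀, ∀ c ∈ C', ⁅z, c⁆ ∈ C') {b : A} (hb : JP A₀ C' b) :
    ∀ a, JP A₀ C a → ⁅a, b⁆ = 0 := by
  induction hb with
  | base b hb => exact fun a ha => J_zero1 h1 h2 ha b hb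
  | add b b' _ _ ih ih' =>
    intro a ha
    rw [lie_add, ih a ha, ih' a ha, add_zero]
  | smul t b _ ih =>
    intro a ha
    rw [lie_smul, ih a ha, smul_zero]
  | lie b z _ hz ih =>
    intro a ha
    rw [lie_lie_right, ih a ha, zero_lie, zero_sub, neg_eq_zero]
    rcases hz with hz | hz
    · exact ih _ (JP.lie a z ha (Or.inl hz))
    · rw [J_zero1 h1 h2 ha z hz, zero_lie]

end Abstract

section Claim

variable {k K A : Type u} [Field k] [Field K] [Algebra k K] [LieRing A] [LieAlgebra k A]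
  [LieAlgebra K A] [IsScalarTower k K A] {ι : Type u}

/-- The conditions of the claim for three values. -/
def Ok (𝒯 : Finset ι) (A₀ : Submodule K A) (C : ι → Submodule K A) (x y : A) (z : ι → A) : Prop :=
  y ∈ A₀ ∧ (∀ t, z t - y ∈ JS A₀ (C t)) ∧ x = y + ∑ t ∈ 𝒯, (z t - y)

theorem Ok.lie {𝒯 : Finset ι} {A₀ : Submodule K A} {C : ι → Submodule K A}
    (h0 : ∀ a ∈ A₀, ∀ b ∈ A₀, ⁅a, b⁆ ∈ A₀)
    (h1 : ∀ i j, i ≠ j → ∀ c ∈ C i, ∀ c' ∈ C j, ⁅c, c'⁆ = 0)
    (h2 : ∀ i, ∀ z ∈ A₀, ∀ c ∈ C i, ⁅z, c⁆ ∈ C i) {x y x' y' : A} {z z' : ι → A}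
    (h : Ok 𝒯 A₀ C x y z) (h' : Ok 𝒯 A₀ C x' y' z') :
    Ok 𝒯 A₀ C ⁅x, x'⁆ ⁅y, y'⁆ (fun t => ⁅z t, z' t⁆) := by
  classical
  obtain ⟨hy, hz, hx⟩ := h
  obtain ⟨hy', hz', hx'⟩ := h'
  have key : ∀ t, ⁅z t, z' t⁆ - ⁅y, y'⁆ =
      ⁅y, z' t - y'⁆ + ⁅z t - y, y'⁆ + ⁅z t - y, z' t - y'⁆ := by
    intro t
    simp only [lie_sub, sub_lie]
    abel
  refine ⟨h0 y hy y' hy', fun t => ?_, ?_⟩
  · rw [key]
    refine (JS A₀ (C t)).add_mem ((JS A₀ (C t)).add_mem ?_ ?_) ?_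
    · rw [← lie_skew]
      exact (JS A₀ (C t)).neg_mem (JP.lie _ _ (hz' t) (Or.inl hy))
    · exact JP.lie _ _ (hz t) (Or.inl hy')
    · exact J_lie (hz' t) _ (hz t)
  · have hsum : ⁅∑ t ∈ 𝒯, (z t - y), ∑ t ∈ 𝒯, (z' t - y')⁆ =
        ∑ t ∈ 𝒯, ⁅z t - y, z' t - y'⁆ := by
      rw [sum_lie_sum]
      refine Finset.sum_congr rfl fun t ht => ?_
      refine Finset.sum_eq_single t (fun s _ hne => ?_) (fun h => absurd ht h)
      exact J_zero2 (h1 t s (Ne.symm hne)) (h2 s) (hz' s) _ (hz t)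
    rw [hx, hx']
    simp only [key]
    rw [Finset.sum_add_distrib, Finset.sum_add_distrib, ← lie_sum, ← sum_lie, ← hsum]
    simp only [add_lie, lie_add]
    abel

/-- The claim of the proof. -/
theorem claim (n : ℕ) {𝒯 : Finset ι} {A₀ : Submodule K A} {C : ι → Submodule K A}
    (h0 : ∀ a ∈ A₀, ∀ b ∈ A₀, ⁅a, b⁆ ∈ A₀)
    (h1 : ∀ i j, i ≠ j → ∀ c ∈ C i, ∀ c' ∈ C j, ⁅c, c'⁆ = 0)
    (h2 : ∀ i, ∀ z ∈ A₀, ∀ c ∈ C i, ⁅z, c⁆ ∈ C i)
    (F F₀ : FreeLieAlgebra k (Fin n) →ₗ⁅k⁆ A) (G : ι → FreeLieAlgebra k (Fin n) →ₗ⁅k⁆ A)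
    (hof : ∀ i, Ok 𝒯 A₀ C (F (FreeLieAlgebra.of k i)) (F₀ (FreeLieAlgebra.of k i))
      (fun t => G t (FreeLieAlgebra.of k i)))
    (g : FreeLieAlgebra k (Fin n)) : Ok 𝒯 A₀ C (F g) (F₀ g) (fun t => G t g) := by
  let S : LieSubalgebra k (FreeLieAlgebra k (Fin n)) :=
    { carrier := {g | Ok 𝒯 A₀ C (F g) (F₀ g) (fun t => G t g)}
      zero_mem' := by
        refine ⟨?_, fun t => ?_, ?_⟩
        · rw [map_zero]
          exact A₀.zero_mem
        · show G t 0 - F₀ 0 ∈ JS A₀ (C t)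
          rw [map_zero, map_zero, sub_zero]
          exact (JS A₀ (C t)).zero_mem
        · show F 0 = F₀ 0 + ∑ t ∈ 𝒯, (G t 0 - F₀ 0)
          simp only [map_zero, sub_zero, Finset.sum_const_zero, add_zero]
      add_mem' := by
        rintro x x' ⟨hy, hz, hx⟩ ⟨hy', hz', hx'⟩
        refine ⟨?_, fun t => ?_, ?_⟩
        · rw [map_add]
          exact A₀.add_mem hy hy'
        · show G t (x + x') - F₀ (x + x') ∈ JS A₀ (C t)
          rw [map_add, map_add, add_sub_add_comm]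
          exact (JS A₀ (C t)).add_mem (hz t) (hz' t)
        · show F (x + x') = F₀ (x + x') + ∑ t ∈ 𝒯, (G t (x + x') - F₀ (x + x'))
          simp only [map_add, add_sub_add_comm, Finset.sum_add_distrib]
          rw [hx, hx']
          abel
      smul_mem' := by
        rintro c x ⟨hy, hz, hx⟩
        refine ⟨?_, fun t => ?_, ?_⟩
        · rw [map_smul]
          exact Submodule.smul_of_tower_mem A₀ c hy
        · show G t (c • x) - F₀ (c • x) ∈ JS A₀ (C t)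
          rw [map_smul, map_smul, ← smul_sub]
          exact Submodule.smul_of_tower_mem (JS A₀ (C t)) c (hz t)
        · show F (c • x) = F₀ (c • x) + ∑ t ∈ 𝒯, (G t (c • x) - F₀ (c • x))
          simp only [map_smul, ← smul_sub, ← Finset.smul_sum]
          rw [hx, smul_add]
      lie_mem' := by
        intro x x' hx hx'
        have h := Ok.lie h0 h1 h2 hx hx'
        show Ok 𝒯 A₀ C (F ⁅x, x'⁆) (F₀ ⁅x, x'⁆) (fun t => G t ⁅x, x'⁆)
        simp only [LieHom.map_lie]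
        exact h }
  have hS : ∀ i, FreeLieAlgebra.of k i ∈ S := hof
  have h : S.incl.comp (FreeLieAlgebra.lift k (fun i => (⟨FreeLieAlgebra.of k i, hS i⟩ : S))) =
      LieHom.id := by
    apply FreeLieAlgebra.hom_ext
    intro x
    rw [LieHom.comp_apply, FreeLieAlgebra.lift_of_apply]
    rfl
  have h' : S.incl (FreeLieAlgebra.lift k (fun i => (⟨FreeLieAlgebra.of k i, hS i⟩ : S)) g) = g :=
    congrArg (fun φ => φ g) h
  have hmem : g ∈ S := by
    rw [← h']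
    exact (FreeLieAlgebra.lift k (fun i => (⟨FreeLieAlgebra.of k i, hS i⟩ : S)) g).2
  exact hmem

end Claim

section Ops

variable {K A : Type u} [Field K] [LieRing A] [LieAlgebra K A]

/-- The kernel of `D`. -/
def A0 (v : A) (P : ℕ) : Submodule K A := LinearMap.ker (pw K v P)

/-- The eigenspaces of `E`. -/
def CC (v : A) (N : ℕ) (τ : Kˣ) : Submodule K A := LinearMap.ker (pw K v N - (τ : K) • 1)

theorem mem_A0 {v : A} {P : ℕ} {a : A} : a ∈ A0 (K := K) v P ↔ pw K v P a = 0 := LinearMap.mem_ker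

theorem mem_CC {v : A} {N : ℕ} {τ : Kˣ} {a : A} : a ∈ CC v N τ ↔ pw K v N a = (τ : K) • a := by
  unfold CC
  rw [LinearMap.mem_ker, LinearMap.sub_apply, LinearMap.smul_apply, Module.End.one_apply,
    sub_eq_zero]

theorem A0_lie {P : ℕ} (hD : Der K A P) (v : A) : ∀ a ∈ A0 (K := K) v P, ∀ b ∈ A0 (K := K) v P,
    ⁅a, b⁆ ∈ A0 (K := K) v P := by
  intro a ha b hb
  rw [mem_A0] at ha hb ⊢
  rw [hD, ha, hb, zero_lie, lie_zero, add_zero]

theorem exists_pre {P N : ℕ} (hPN : P ≤ N) (v : A) (τ : Kˣ) {a : A} (ha : a ∈ CC v N τ) :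
    ∃ a' : A, pw K v P a' = a ∧ pw K v (P + N) a' = (τ : K) • a := by
  have ha' := mem_CC.mp ha
  have e1 : pw K v P ((τ : K)⁻¹ • pw K v (N - P) a) = a := by
    rw [map_smul, ← pw_add, show P + (N - P) = N by omega, ha', smul_smul,
      inv_mul_cancel₀ τ.ne_zero, one_smul]
  refine ⟨(τ : K)⁻¹ • pw K v (N - P) a, e1, ?_⟩
  rw [pw_add', e1, ha']

theorem CC_zero {P N : ℕ} (hPN : P ≤ N) (hB : BalW K A 0 P N) (v : A) :
    ∀ i j : Kˣ, i ≠ j → ∀ c ∈ CC v N i, ∀ c' ∈ CC v N j, ⁅c, c'⁆ = 0 := by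
  intro i j hij c hc c' hc'
  obtain ⟨a, ha1, ha2⟩ := exists_pre hPN v i hc
  obtain ⟨b, hb1, hb2⟩ := exists_pre hPN v j hc'
  have h := hB v a b [] (by simp)
  rw [wd_nil, wd_nil, ha1, ha2, hb1, hb2, smul_lie, lie_smul] at h
  have h2 : ((i : K) - (j : K)) • ⁅c, c'⁆ = 0 := by rw [sub_smul, h, sub_self]
  rcases smul_eq_zero.mp h2 with h3 | h3
  · exact absurd (Units.ext (sub_eq_zero.mp h3)) hij
  · exact h3

theorem A0_CC {P N' : ℕ} (hD : Der K A P) (v : A) : ∀ i : Kˣ, ∀ z ∈ A0 (K := K) v P,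
    ∀ c ∈ CC v (P * N') i, ⁅z, c⁆ ∈ CC v (P * N') i := by
  intro i z hz c hc
  rw [mem_A0] at hz
  have h : ∀ (m : ℕ) (c : A), pw K v (P * m) ⁅z, c⁆ = ⁅z, pw K v (P * m) c⁆ := by
    intro m
    induction m with
    | zero => intro c; simp
    | succ m ih =>
      intro c
      rw [Nat.mul_succ, pw_add, hD, hz, zero_lie, zero_add, ih, pw_add]
  rw [mem_CC] at hc ⊢
  rw [h, hc, lie_smul]

theorem decomp [IsAlgClosed K] [FiniteDimensional K A] (p : ℕ) [Fact p.Prime] [CharP K p]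
    (s N' : ℕ) (hd : Module.finrank K A ≤ p ^ s) (v a : A) :
    a ∈ A0 (K := K) v (p ^ s) ⊔ ⨆ τ : Kˣ, CC v (p ^ s * N') τ := by
  rcases subsingleton_or_nontrivial A with hA | hA
  · rw [Subsingleton.elim a 0]
    exact Submodule.zero_mem _
  have hch : CharP (Module.End K A) p :=
    charP_of_injective_algebraMap (algebraMap K (Module.End K A)).injective p
  have hP : 0 < p ^ s := pow_pos (Fact.out : p.Prime).pos s
  have key : ∀ α : K, Module.End.maxGenEigenspace (adr K v) α ≤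
      A0 (K := K) v (p ^ s) ⊔ ⨆ τ : Kˣ, CC v (p ^ s * N') τ := by
    intro α b hb
    rw [Module.End.maxGenEigenspace_eq_genEigenspace_finrank, Module.End.mem_genEigenspace_nat,
      LinearMap.mem_ker] at hb
    have hb1 : ((adr K v - α • (1 : Module.End K A)) ^ (p ^ s)) b = 0 := by
      obtain ⟨m, hm⟩ := Nat.exists_eq_add_of_le' hd
      rw [hm, pow_add, Module.End.mul_apply, hb, map_zero]
    have hcomm : Commute (adr K v) (α • (1 : Module.End K A)) :=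
      (Commute.one_right _).smul_right α
    rw [sub_pow_char_pow_of_commute (p := p) (n := s) hcomm, smul_pow, one_pow,
      LinearMap.sub_apply, LinearMap.smul_apply, Module.End.one_apply, sub_eq_zero] at hb1
    have hb2 : pw K v (p ^ s) b = α ^ (p ^ s) • b := hb1
    by_cases hα : α = 0
    · refine Submodule.mem_sup_left ?_
      rw [mem_A0, hb2, hα, zero_pow hP.ne', zero_smul]
    · refine Submodule.mem_sup_right ?_
      have h3 : ∀ m : ℕ, pw K v (p ^ s * m) b = (α ^ (p ^ s * m)) • b := by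
        intro m
        induction m with
        | zero => simp
        | succ m ih =>
          rw [Nat.mul_succ, pw_add, hb2, map_smul, ih, smul_smul, ← pow_add, add_comm]
      refine Submodule.mem_iSup_of_mem (Units.mk0 (α ^ (p ^ s * N')) (pow_ne_zero _ hα)) ?_
      rw [mem_CC, h3, Units.val_mk0]
  have htop : a ∈ ⨆ α : K, Module.End.maxGenEigenspace (adr K v) α := by
    rw [Module.End.iSup_maxGenEigenspace_eq_top]
    exact Submodule.mem_top
  exact (iSup_le key) htop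

end Ops

end DecIdAux

open DecIdAux in
/-- (A1) -/
theorem decId : DecIdProp.{u} := by
  intro k _ p _ _ K _ _ _ A _ _ _ _ _ s N hd hN hPN hD1 _ hB v n f hf ρ
  classical
  have hch : CharP K p := charP_of_injective_algebraMap (algebraMap k K).injective p
  obtain ⟨N', rfl⟩ := hPN
  have hN' : 0 < N' := Nat.pos_of_mul_pos_left hN
  have hPle : p ^ s ≤ p ^ s * N' := Nat.le_mul_of_pos_right _ hN'
  have hdec : ∀ i, ∃ b c : A, b ∈ A0 (K := K) v (p ^ s) ∧
      (∃ S : Finset Kˣ, c ∈ ⨆ τ ∈ S, CC v (p ^ s * N') τ) ∧ ρ i = b + c := by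
    intro i
    obtain ⟨b, hb, c, hc, hbc⟩ := Submodule.mem_sup.mp (decomp p s N' hd v (ρ i))
    exact ⟨b, c, hb, Submodule.mem_iSup_iff_exists_finset.mp hc, hbc.symm⟩
  choose ρ₀ r hρ₀ hr hsum using hdec
  choose S hS using hr
  have hr' : ∀ i, ∃ μ : (τ : Kˣ) → CC v (p ^ s * N') τ,
      (∑ τ ∈ Finset.univ.biUnion S, (μ τ : A)) = r i := by
    intro i
    rw [← Submodule.mem_iSup_finset_iff_exists_sum]
    have hle : (⨆ τ ∈ S i, CC (K := K) v (p ^ s * N') τ) ≤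
        ⨆ τ ∈ Finset.univ.biUnion S, CC v (p ^ s * N') τ :=
      biSup_mono fun τ hτ => Finset.mem_biUnion.mpr ⟨i, Finset.mem_univ i, hτ⟩
    exact hle (hS i)
  choose μ hμ using hr'
  have hmain := claim (k := k) n (𝒯 := Finset.univ.biUnion S) (A0_lie hD1 v)
    (CC_zero hPle hB v) (A0_CC hD1 v) (FreeLieAlgebra.lift k ρ) (FreeLieAlgebra.lift k ρ₀)
    (fun τ => FreeLieAlgebra.lift k (fun i => ρ₀ i + (μ i τ : A))) (fun i => by
      refine ⟨?_, fun t => ?_, ?_⟩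
      · rw [FreeLieAlgebra.lift_of_apply]
        exact hρ₀ i
      · show FreeLieAlgebra.lift k (fun i => ρ₀ i + (μ i t : A)) (FreeLieAlgebra.of k i) -
          FreeLieAlgebra.lift k ρ₀ (FreeLieAlgebra.of k i) ∈ JS _ _
        rw [FreeLieAlgebra.lift_of_apply, FreeLieAlgebra.lift_of_apply, add_sub_cancel_left]
        exact JP.base _ (μ i t).2
      · simp only [FreeLieAlgebra.lift_of_apply, add_sub_cancel_left]
        rw [hμ i, hsum i]) f
  have hz : ∀ i, pw K v (p ^ s + p ^ s * N') (ρ₀ i) = 0 := fun i => by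
    rw [pw_add', mem_A0.mp (hρ₀ i), map_zero]
  have h0 : FreeLieAlgebra.lift k ρ₀ f = 0 := by
    refine hf 0 ρ₀ fun i => ?_
    rw [hz i, zero_smul]
  have h1 : ∀ τ : Kˣ, FreeLieAlgebra.lift k (fun i => ρ₀ i + (μ i τ : A)) f = 0 := by
    intro τ
    refine hf τ _ fun i => ?_
    rw [map_add, map_add, hz i, mem_A0.mp (hρ₀ i), zero_add, zero_add, pw_add,
      mem_CC.mp (μ i τ).2, map_smul]
  rw [hmain.2.2, h0]
  simp only [h1, sub_zero, Finset.sum_const_zero, add_zero]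

end Pool.Agent.Lib.MP_240c17_al.Rep
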