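import Pool.Agent.Lib.MP_240c17_al.Rep.Spec

/-!
# (L3) Reduction of divisible words by the standard identity
-/

set_option autoImplicit false

namespace Pool.Agent.Lib.MP_240c17_al.Rep

universe u

open Pool.Agent.Lib.MP_240c17_al Pool.Agent.Lib.MP_240c17_al.Two Pool.Agent.Lib.MP_240c17_al.Tor

theorem dvRed : DvRedProp.{u} := by
  classical
  intro k _ R _ _ n d a ha w hw
  obtain ⟨A, v, B, rfl, f, hf, rfl, hσ⟩ := hw
  have h1 := ha f
  rw [← Finset.add_sum_erase _ _ (Finset.mem_univ (1 : Equiv.Perm (Fin d)))] at h1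
  have h2 : ((List.ofFn f).flatten.map a).prod =
      -∑ σ ∈ Finset.univ.erase (1 : Equiv.Perm (Fin d)),
        (Equiv.Perm.sign σ : ℤ) • ((List.ofFn (f ∘ σ)).flatten.map a).prod := by
    rw [Equiv.Perm.sign_one] at h1
    have h3 : (List.ofFn (f ∘ (1 : Equiv.Perm (Fin d)))).flatten = (List.ofFn f).flatten := rfl
    rw [h3] at h1
    simp only [Units.val_one, one_smul] at h1
    exact eq_neg_of_add_eq_zero_left h1
  rw [List.map_append, List.map_append, List.prod_append, List.prod_append, h2, mul_neg, neg_mul,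
    Finset.mul_sum, Finset.sum_mul]
  refine Submodule.neg_mem _ (Submodule.sum_mem _ fun σ hσ1 => ?_)
  rw [mul_smul_comm, smul_mul_assoc]
  refine Submodule.smul_of_tower_mem _ _ (Submodule.subset_span ?_)
  refine ⟨A ++ (List.ofFn (f ∘ σ)).flatten ++ B, ?_, ?_, ?_⟩
  · have h4 : (List.ofFn (f ∘ σ)).flatten.length = (List.ofFn f).flatten.length :=
      ((σ.ofFn_comp_perm f).flatten).length_eq
    rw [List.length_append, List.length_append, List.length_append, List.length_append, h4]
  · exact ((hσ σ (Finset.ne_of_mem_erase hσ1)).append_left A).append_right B B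
  · rw [List.map_append, List.map_append, List.prod_append, List.prod_append]

end Pool.Agent.Lib.MP_240c17_al.Rep
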