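import Pool.Agent.Lib.MP_240c17_al.Rep.Spec

/-!
# The ordered enumeration of a finite set of blocks
-/

set_option autoImplicit false

namespace Pool.Agent.Lib.MP_240c17_al.Rep

universe u

open Pool.Agent.Lib.MP_240c17_al Pool.Agent.Lib.MP_240c17_al.Two Pool.Agent.Lib.MP_240c17_al.Tor

namespace EnumAux

theorem ls_of_lex {α : Type*} [LinearOrder α] {u v : List α} (h : List.Lex (· < ·) u v) :
    Ls u v ∨ ∃ g, g ≠ [] ∧ v = u ++ g := by
  induction h with
  | nil => exact Or.inr ⟨_, List.cons_ne_nil _ _, rfl⟩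
  | cons h ih =>
    rcases ih with h1 | ⟨g, h1, h2⟩
    · exact Or.inl (ls_cons.mpr h1)
    · exact Or.inr ⟨g, h1, by rw [h2]; rfl⟩
  | rel h => exact Or.inl (ls_cons_of_lt h _ _)

end EnumAux

open EnumAux in
theorem enum_ : EnumProp := by
  intro k Z hZ
  classical
  refine ⟨Z.card, fun c => Z.orderEmbOfFin rfl c, ⟨fun c => hZ _ (Z.orderEmbOfFin_mem rfl c), ?_⟩, ?_⟩
  · intro c c' hc
    have h : Z.orderEmbOfFin rfl c < Z.orderEmbOfFin rfl c' := (Z.orderEmbOfFin rfl).strictMono hc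
    exact ls_of_lex h
  · intro z hz
    have h : z ∈ Set.range (Z.orderEmbOfFin rfl) := by
      rw [Finset.range_orderEmbOfFin]
      exact hz
    exact h

end Pool.Agent.Lib.MP_240c17_al.Rep
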