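import Pool.Agent.Lib.MP_240c17_al.Rep.Spec
import Pool.Agent.Lib.MP_240c17_al.Tor.Final
import Pool.Agent.Lib.MP_240c17_al.Tor.AlgFin
import Pool.Agent.Lib.MP_240c17_al.Two.RelFree

/-!
Varieties which are residually of bounded dimension: the final statements.
-/

set_option autoImplicit false

namespace Pool.Agent.Lib.MP_240c17_al.Rep

universe u

open Pool.Agent.Lib.MP_240c17_al Pool.Agent.Lib.MP_240c17_al.Two Pool.Agent.Lib.MP_240c17_al.Tor
  Pool.Agent.Lib.MP_240c17_al.Semi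

variable {k : Type u} [Field k]

theorem final_kill (Id : Set (FreeLieAlgebra k ℕ)) (n : ℕ) {L : Type u} [LieRing L]
    [LieAlgebra k L] (hL : InVariety Id L) (ρ : Fin n → L) :
    ∀ w ∈ verbalIdeal Id n, FreeLieAlgebra.lift k ρ w = 0 := by
  obtain ⟨θ, hθ⟩ := relFree_lift Id n hL ρ
  intro w hw
  have h1 : FreeLieAlgebra.lift k ρ = θ.comp (qMk (verbalIdeal Id n)) := by
    apply FreeLieAlgebra.hom_ext
    intro i
    rw [LieHom.comp_apply, hθ, FreeLieAlgebra.lift_of_apply]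
  rw [h1, LieHom.comp_apply, (qMk_eq_zero _ _).mpr hw, map_zero]

theorem rep_final (hCore : CoreProp.{u}) (hModel : ModelProp.{u}) (hPack : PackProp.{u})
    [Infinite k] (p : ℕ) [Fact p.Prime] [Algebra (ZMod p) k] (Id : Set (FreeLieAlgebra k ℕ))
    (hRB : ResBdd k Id) (m : ℕ) (co : ℕ → k)
    (hne : ∃ i ≤ m, co i ≠ 0) (halg : ∀ i ≤ m, IsAlgebraic (ZMod p) (co i))
    (hI : ∀ (L : Type u) [LieRing L] [LieAlgebra k L], InVariety Id L → ∀ a b y : L,
      ∑ i ∈ Finset.range (m + 1),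
        co i • ⁅(fun l => ⁅l, y⁆)^[i] a, (fun l => ⁅l, y⁆)^[m - i] b⁆ = 0)
    (L : Type u) [LieRing L] [LieAlgebra k L] (hL : RelFinitelyPresented Id L) :
    ResiduallyFiniteDimensional k L := by
  have : CharP k p := charP_of_injective_algebraMap (algebraMap (ZMod p) k).injective p
  obtain ⟨r, hr, hco⟩ := algFin k p m co halg
  have hI' : ∀ (L' : Type u) [LieRing L'] [LieAlgebra k L'], InVariety Id L' →
      IdI k L' m co := by
    intro L' _ _ hL' a b y
    have h := hI L' hL' a b y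
    simp only [← pw_iterate (k := k)] at h
    exact h
  refine final_gen Id ?_ L hL
  intro n K ζ hK hζ
  obtain ⟨D, hD⟩ := hRB n
  obtain ⟨s, N, hN, hM⟩ := hModel k p m r (D + 1) co hr hco hne
  obtain ⟨X, _, _, Φ, hΦ, hAlt, hS⟩ := hPack k (p ^ s) N (D + 1) n (verbalIdeal Id n) (by
    intro f hf
    obtain ⟨K0, _, _, A, _, _, _, _, hfd, hfr, hA, hρ⟩ := hD f hf
    obtain ⟨K', i1, i2, i3, B, i4, i5, i6, i7, hfd', hfr', hid, hτ, ρ, hρf⟩ :=
      hM K0 A hfd (by omega) (hI' A hA) n f hρ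
    refine ⟨K', i1, i2, i3, B, i4, i5, i6, i7, hfd', hfr', hτ, ρ, ?_, hρf⟩
    have hB : InVariety Id B := fun g hg ρ => hid (show g ∈ idOf k A from fun ρ' => hA g hg ρ') ρ
    exact final_kill Id n hB ρ)
  exact hCore k p _ X Φ n s N ((D + 1) * (D + 1) + 1) _ K ζ hΦ (relFree_gen Id n) hN
    (by nlinarith) hAlt hS hK hζ

/-- The variety generated by a family of Lie algebras of bounded dimension over extension fields is residually of
bounded dimension. -/
theorem resBdd_family (D : ℕ) (ι : Type u) (E : ι → Type u) [∀ i, Field (E i)]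
    [∀ i, Algebra k (E i)] (A : ι → Type u) [∀ i, LieRing (A i)] [∀ i, LieAlgebra k (A i)]
    [∀ i, LieAlgebra (E i) (A i)] [∀ i, IsScalarTower k (E i) (A i)]
    [∀ i, FiniteDimensional (E i) (A i)] (hD : ∀ i, Module.finrank (E i) (A i) ≤ D) :
    ResBdd k {g : FreeLieAlgebra k ℕ | ∀ i, ∀ ρ : ℕ → A i, FreeLieAlgebra.lift k ρ g = 0} := by
  intro n
  refine ⟨D, fun f hf => ?_⟩
  by_contra hno
  push Not at hno
  apply hf
  -- the identity
  obtain ⟨g, hg⟩ : ∃ g, g = FreeLieAlgebra.lift k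
      (fun i : Fin n => FreeLieAlgebra.of k (i : ℕ)) f := ⟨_, rfl⟩
  have h3 : ∀ (i : ι) (ρ : ℕ → A i), FreeLieAlgebra.lift k ρ g =
      FreeLieAlgebra.lift k (fun j : Fin n => ρ j) f := by
    intro i ρ
    rw [hg, ← LieHom.comp_apply]
    have : (FreeLieAlgebra.lift k ρ).comp (FreeLieAlgebra.lift k
        (fun i : Fin n => FreeLieAlgebra.of k (i : ℕ))) =
        FreeLieAlgebra.lift k (fun j : Fin n => ρ j) := by
      apply FreeLieAlgebra.hom_ext
      intro j
      simp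
    rw [this]
  have hid : g ∈ {g : FreeLieAlgebra k ℕ | ∀ i, ∀ ρ : ℕ → A i, FreeLieAlgebra.lift k ρ g = 0} := by
    intro i ρ
    rw [h3]
    exact hno (E i) inferInstance inferInstance (A i) inferInstance inferInstance inferInstance
      inferInstance inferInstance (hD i) (fun g hg ρ => hg i ρ) _
  obtain ⟨ρ, hρ⟩ : ∃ ρ : ℕ → FreeLieAlgebra k (Fin n), ∀ i : Fin n, ρ i = FreeLieAlgebra.of k i := by
    refine ⟨fun i => if h : i < n then FreeLieAlgebra.of k ⟨i, h⟩ else 0, fun i => ?_⟩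
    exact dif_pos i.isLt
  have hw : f = FreeLieAlgebra.lift k ρ g := by
    rw [hg, ← LieHom.comp_apply]
    have : (FreeLieAlgebra.lift k ρ).comp (FreeLieAlgebra.lift k
        (fun i : Fin n => FreeLieAlgebra.of k (i : ℕ))) = LieHom.id := by
      apply FreeLieAlgebra.hom_ext
      intro j
      simp [hρ]
    rw [this]
    rfl
  rw [hw]
  exact LieSubmodule.subset_lieSpan ⟨g, hid, ρ, rfl⟩

end Pool.Agent.Lib.MP_240c17_al.Rep
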