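import Pool.Agent.Lib.MP_240c17_al.Rep.Spec
import Pool.Agent.Lib.MP_240c17_al.Tor.Vand
import Pool.Agent.Lib.MP_240c17_al.Tor.OpPoly

/-!
# MP_240c17_al, Rep/GProps: properties of the operators T
-/

set_option autoImplicit false

namespace Pool.Agent.Lib.MP_240c17_al.Rep

universe u

open Pool.Agent.Lib.MP_240c17_al Pool.Agent.Lib.MP_240c17_al.Two Pool.Agent.Lib.MP_240c17_al.Tor

namespace GPropsAux

/-- The coefficients of a polynomial family with values in a subspace are in the subspace. -/
theorem pf_mem {k : Type u} [Field k] [Infinite k] {X : Type u} [AddCommGroup X]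
    [Module k X] {d : ℕ} {f : k → X} (Z : Submodule k X) (hf : PF k d f) (hZ : ∀ μ, f μ ∈ Z) :
    ∃ q : ℕ → X, (∀ l, q l ∈ Z) ∧ ∀ μ, f μ = ∑ l ∈ Finset.range (d + 1), μ ^ l • q l := by
  obtain ⟨q, hq⟩ := hf
  obtain ⟨lam, g, hg⟩ := weights k d
  refine ⟨fun i => ∑ s ∈ Finset.range (d + 1), g i s • f (lam s), ?_, ?_⟩
  · intro l
    exact Submodule.sum_mem _ fun s _ => Submodule.smul_mem _ _ (hZ _)
  · intro μ
    rw [hq]
    apply Finset.sum_congr rfl
    intro l hl
    rw [Finset.mem_range] at hl
    congr 1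
    simp only [hq, Finset.smul_sum]
    rw [Finset.sum_comm]
    have h4 : ∀ i ∈ Finset.range (d + 1), ∑ s ∈ Finset.range (d + 1),
        g l s • lam s ^ i • q i = if i = l then q l else 0 := by
      intro i hi
      rw [Finset.mem_range] at hi
      simp only [smul_smul]
      rw [← Finset.sum_smul, hg l (by omega) i (by omega)]
      by_cases h : l = i
      · rw [if_pos h, if_pos h.symm, one_smul, h]
      · rw [if_neg h, if_neg (fun h' => h h'.symm), zero_smul]
    rw [Finset.sum_congr rfl h4, Finset.sum_ite_eq' (Finset.range (d + 1)) l,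
      if_pos (Finset.mem_range.mpr hl)]

theorem pf_prod {k : Type u} [Field k] {X : Type u} [AddCommGroup X] [Module k X] {r N : ℕ}
    (t t' : Fin r → k) (α : Fin r → ℕ) (hα : ∑ i, α i ≤ N) (Q : X) :
    PF k N (fun c => (∏ i, (t + c • t') i ^ α i) • Q) := by
  let p : Polynomial k := ∏ i, (Polynomial.C (t' i) * Polynomial.X + Polynomial.C (t i)) ^ α i
  have hp : p.natDegree ≤ N := by
    refine (Polynomial.natDegree_prod_le _ _).trans (le_trans ?_ hα)
    refine Finset.sum_le_sum fun i _ => ?_
    refine Polynomial.natDegree_pow_le.trans ?_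
    have : (Polynomial.C (t' i) * Polynomial.X + Polynomial.C (t i)).natDegree ≤ 1 :=
      Polynomial.natDegree_linear_le
    nlinarith [Nat.zero_le (α i)]
  have he : ∀ c, p.eval c = ∏ i, (t + c • t') i ^ α i := by
    intro c
    simp only [p, Polynomial.eval_prod, Polynomial.eval_pow, Polynomial.eval_add,
      Polynomial.eval_mul, Polynomial.eval_C, Polynomial.eval_X, Pi.add_apply, Pi.smul_apply,
      smul_eq_mul]
    refine Finset.prod_congr rfl fun i _ => ?_
    ring
  refine ⟨fun l => p.coeff l • Q, fun c => ?_⟩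
  beta_reduce
  rw [← he, Polynomial.eval_eq_sum_range' (Nat.lt_succ_of_le hp), Finset.sum_smul]
  refine Finset.sum_congr rfl fun l _ => ?_
  rw [smul_smul, mul_comm]

theorem pw_lin {k : Type u} [Field k] {X : Type u} [LieRing X] [LieAlgebra k X]
    (S : Module.End k X) (h : ∀ a b : X, S ⁅a, b⁆ = ⁅S a, b⁆) (v : X) (e : ℕ) (a : X) :
    S (pw k v e a) = pw k v e (S a) := by
  induction e with
  | zero => rw [pw_zero, pw_zero]
  | succ e ih => rw [pw_succ, pw_succ, h, ih]

end GPropsAux

open GPropsAux in
theorem gProps : GPropsProp.{u} := by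
  classical
  intro k _ _ F X _ _ _ _ Φ P N r u S G T hinj hS hT
  have hlie : ∀ a ∈ G, ∀ z : F, ⁅a, z⁆ ∈ G := by
    intro a ha z
    have := wd_mem (k := k) ha [z]
    simpa using this
  obtain ⟨s, Q, hs, hSQ⟩ := hS.poly
  refine ⟨?_, ?_, ?_, ?_, ?_⟩
  · intro t t' a ha
    have h1 : PF k N (fun c => Φ (T (t + c • t') a)) := by
      have h2 : (fun c : k => Φ (T (t + c • t') a)) =
          fun c : k => ∑ α ∈ s, (∏ i, (t + c • t') i ^ α i) • Q α (Φ a) := by
        funext c
        rw [(hT _ a ha).2, hSQ]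
        simp [LinearMap.sum_apply]
      rw [h2]
      exact OpPoly_sum s fun α hα => pf_prod t t' α (hs α hα) (Q α (Φ a))
    obtain ⟨q, hq, hq'⟩ := pf_mem (LinearMap.range (Φ : F →ₗ[k] X)) h1 (fun c => ⟨_, rfl⟩)
    choose q' hq'' using hq
    refine ⟨q', fun c => ?_⟩
    apply hinj
    have h3 := hq' c
    rw [h3, map_sum]
    refine Finset.sum_congr rfl fun l _ => ?_
    rw [map_smul, ← hq'']
    rfl
  · intro t a ha z
    apply hinj
    rw [(hT t _ (hlie a ha z)).2, LieHom.map_lie, hS.lin, LieHom.map_lie, (hT t a ha).2]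
  · intro t t' a ha
    apply hinj
    rw [(hT t _ (hT t' a ha).1).2, (hT t' _ (hT t a ha).1).2, (hT t' a ha).2, (hT t a ha).2,
      hS.comm]
  · intro t a ha
    apply hinj
    rw [pw_map, pw_map, (hT t a ha).2, ← pw_lin (S t) (hS.lin t), hS.pow]
  · have hfg : (Submodule.span k (Set.range S)).FG := by
      have hle : Submodule.span k (Set.range S) ≤ Submodule.span k (Q '' (s : Set (Fin r → ℕ))) := by
        apply Submodule.span_le.2
        rintro _ ⟨t, rfl⟩
        rw [hSQ t]
        exact Submodule.sum_mem _ fun α hα => Submodule.smul_mem _ _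
          (Submodule.subset_span ⟨α, hα, rfl⟩)
      have hfin : (Submodule.span k (Q '' (s : Set (Fin r → ℕ)))).FG :=
        Submodule.fg_span ((Finset.finite_toSet s).image Q)
      have : IsNoetherian k (Submodule.span k (Q '' (s : Set (Fin r → ℕ)))) :=
        isNoetherian_of_fg_of_noetherian _ hfin
      have := IsNoetherian.noetherian
        ((Submodule.span k (Set.range S)).comap
          (Submodule.span k (Q '' (s : Set (Fin r → ℕ)))).subtype)
      have h2 := this.map (Submodule.span k (Q '' (s : Set (Fin r → ℕ)))).subtype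
      rw [Submodule.map_comap_eq, Submodule.range_subtype, inf_eq_right.2 hle] at h2
      exact h2
    obtain ⟨s', hs', hspan⟩ := (Submodule.fg_span_iff_fg_span_finset_subset _).1 hfg
    have hpre : ∀ e : s', ∃ t, S t = (e : Module.End k X) := fun e => hs' e.2
    choose τ hτ using hpre
    refine ⟨s'.card, fun i => τ (s'.equivFin.symm i), fun t => ?_⟩
    have hmem : S t ∈ Submodule.span k (Set.range fun i : Fin s'.card =>
        S (τ (s'.equivFin.symm i))) := by
      have hr : (Set.range fun i : Fin s'.card => S (τ (s'.equivFin.symm i))) =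
          (s' : Set (Module.End k X)) := by
        ext e
        constructor
        · rintro ⟨i, rfl⟩
          change S (τ (s'.equivFin.symm i)) ∈ _
          rw [hτ]
          exact (s'.equivFin.symm i).2
        · intro he
          refine ⟨s'.equivFin ⟨e, he⟩, ?_⟩
          change S (τ (s'.equivFin.symm (s'.equivFin ⟨e, he⟩))) = e
          rw [hτ, Equiv.symm_apply_apply]
      rw [hr, ← hspan]
      exact Submodule.subset_span ⟨t, rfl⟩
    obtain ⟨c, hc⟩ := (Submodule.mem_span_range_iff_exists_fun k).1 hmem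
    refine ⟨c, fun a ha => ?_⟩
    apply hinj
    rw [(hT t a ha).2, ← hc, map_sum]
    simp only [LinearMap.sum_apply, LinearMap.smul_apply]
    refine Finset.sum_congr rfl fun i _ => ?_
    rw [← (hT _ a ha).2, map_smul]

end Pool.Agent.Lib.MP_240c17_al.Rep
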