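import Pool.Agent.Lib.MP_240c17_al.Rep.Spec

/-!
# MP_240c17_al, Rep/GT: the ideal G and the operators T (helper37)
-/

universe u

namespace Pool.Agent.Lib.MP_240c17_al.Rep

open Pool.Agent.Lib.MP_240c17_al Pool.Agent.Lib.MP_240c17_al.Two Pool.Agent.Lib.MP_240c17_al.Tor

theorem gT (h1 : MidSProp.{u}) : GTProp.{u} := by
  intro k _ F X _ _ _ _ Φ P N r u S hinj hS
  let I : Type u := {l : List (Fin r → k) // Spn k S l}
  let G : LieIdeal k F := ⨆ l : I, Mid k P (l.1.map (cmb k u))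
  have hmid : ∀ (l : List (Fin r → k)), ∀ t' ∈ l, ∀ a ∈ Mid k P (l.map (cmb k u)),
      ∃ a' ∈ Mid k P (l.map (cmb k u)), Φ a' = S t' (Φ a) := fun l t' ht' a ha =>
    h1 k F X Φ (Fin r → k) P N (cmb k u) S hS.lin hS.pow l t' ht' a ha
  have hle : ∀ l : I, Mid k P (l.1.map (cmb k u)) ≤ G := fun l =>
    le_iSup (fun l : I => Mid k P (l.1.map (cmb k u))) l
  have hspan : ∀ (l : List (Fin r → k)), ∀ a ∈ Mid k P (l.map (cmb k u)),
      ∀ R ∈ Submodule.span k {R : Module.End k X | ∃ t' ∈ l, R = S t'},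
      ∃ a' ∈ Mid k P (l.map (cmb k u)), Φ a' = R (Φ a) := by
    intro l a ha R hR
    induction hR using Submodule.span_induction with
    | mem R hR =>
      obtain ⟨t', ht', rfl⟩ := hR
      exact hmid l t' ht' a ha
    | zero => exact ⟨0, zero_mem _, by simp⟩
    | add R R' _ _ ih ih' =>
      obtain ⟨b, hb, hb'⟩ := ih
      obtain ⟨c, hc, hc'⟩ := ih'
      exact ⟨b + c, add_mem hb hc, by rw [map_add, hb', hc', LinearMap.add_apply]⟩
    | smul x R _ ih =>
      obtain ⟨b, hb, hb'⟩ := ih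
      exact ⟨x • b, (Mid k P (l.map (cmb k u))).smul_mem x hb, by
        rw [map_smul, hb', LinearMap.smul_apply]⟩
  have key : ∀ t : Fin r → k, ∀ a ∈ G, ∃ a' ∈ G, Φ a' = S t (Φ a) := by
    intro t a ha
    refine LieSubmodule.iSup_induction (fun l : I => Mid k P (l.1.map (cmb k u)))
      (motive := fun a => ∃ a' ∈ G, Φ a' = S t (Φ a)) ha ?_ ?_ ?_
    · intro l b hb
      obtain ⟨b', hb', e⟩ := hspan l.1 b hb (S t) (l.2 t)
      exact ⟨b', hle l hb', e⟩
    · exact ⟨0, zero_mem _, by simp⟩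
    · rintro b c ⟨b', hb', eb⟩ ⟨c', hc', ec⟩
      exact ⟨b' + c', add_mem hb' hc', by rw [map_add, map_add, map_add, eb, ec]⟩
  choose f hf1 hf2 using key
  let g : (Fin r → k) → (G.toSubmodule →ₗ[k] F) := fun t =>
    { toFun := fun a => f t a.1 a.2
      map_add' := by
        intro a b
        apply hinj
        rw [map_add, hf2, hf2, hf2, Submodule.coe_add, map_add, map_add]
      map_smul' := by
        intro c a
        apply hinj
        rw [RingHom.id_apply, map_smul, hf2, hf2, Submodule.coe_smul, map_smul, map_smul] }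
  have hext : ∀ t, ∃ T : Module.End k F, T.comp G.toSubmodule.subtype = g t := fun t =>
    LinearMap.exists_extend (g t)
  choose T hT using hext
  have hTa : ∀ t, ∀ a (ha : a ∈ G), T t a = f t a ha := fun t a ha =>
    LinearMap.congr_fun (hT t) ⟨a, ha⟩
  refine ⟨G, T, fun l hl => hle ⟨l, hl⟩, fun t a ha => ?_⟩
  rw [hTa t a ha]
  exact ⟨hf1 t a ha, hf2 t a ha⟩

end Pool.Agent.Lib.MP_240c17_al.Rep
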