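import Pool.Agent.Lib.MP_240c17_al.Rep.Spec
import Pool.Agent.Lib.MP_240c17_al.Two.Hilbert
import Pool.Agent.Lib.MP_240c17_al.Two.Mod

/-!
# MP_240c17_al, Rep/Gfg2: Noetherian property of G
-/

set_option autoImplicit false

namespace Pool.Agent.Lib.MP_240c17_al.Rep

universe u

open Pool.Agent.Lib.MP_240c17_al Pool.Agent.Lib.MP_240c17_al.Two Pool.Agent.Lib.MP_240c17_al.Tor

theorem gfg2 : Gfg2Prop.{u} := by
  rintro k _ F _ _ r n G T ν hTG hcomm hspan ⟨S, hS⟩ U hU hUG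
  have hSG : (S : Set F) ⊆ G.toSubmodule := by
    rw [← hS]
    exact subset_gen _ _
  have h1 : Two.gen (fun i => T (ν i)) (S : Set F) ≤ G.toSubmodule :=
    gen_le (fun i y hy => hTG (ν i) y hy) hSG
  have h2 : ∀ t, ∀ a ∈ Two.gen (fun i => T (ν i)) (S : Set F),
      T t a ∈ Two.gen (fun i => T (ν i)) (S : Set F) := by
    intro t a ha
    obtain ⟨c, hc⟩ := hspan t
    rw [hc a (h1 ha)]
    exact Submodule.sum_mem _ fun i _ => Submodule.smul_mem _ _ (gen_stab _ _ i a ha)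
  have h3 : G.toSubmodule ≤ Two.gen (fun i => T (ν i)) (S : Set F) := by
    rw [← hS]
    exact gen_le (fun j y hy => h2 _ y hy) (subset_gen _ _)
  have h4 : Two.gen (fun i => T (ν i)) (S : Set F) = G.toSubmodule := le_antisymm h1 h3
  have hHil : HilbertProp.{u} := hilbert mod_
  obtain ⟨S', hS'⟩ := hHil k F (Fin n) (fun i => T (ν i)) ⊥ G.toSubmodule U
    (fun i y hy => by
      rw [Submodule.mem_bot] at hy ⊢
      rw [hy, map_zero])
    (fun i j a ha => by
      rw [Submodule.mem_bot, hcomm _ _ a ha, sub_self])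
    ⟨S, by rw [sup_bot_eq, h4]⟩ hU bot_le hUG
  exact ⟨S', by rw [sup_bot_eq] at hS'; exact hS'⟩

end Pool.Agent.Lib.MP_240c17_al.Rep
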