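import Pool.Agent.Lib.MP_240c17_al.Rep.Spec
import Pool.Agent.Lib.MP_240c17_al.Sol.Pbw
import Pool.Agent.Lib.MP_240c17_al.Two.LieGen

/-!
(C6) Finite generation of a finitely generated ideal `K` modulo `⁅K, G⁆` over powers of the generators.
-/

set_option autoImplicit false

namespace Pool.Agent.Lib.MP_240c17_al.Rep

universe u

open Pool.Agent.Lib.MP_240c17_al Pool.Agent.Lib.MP_240c17_al.Two Pool.Agent.Lib.MP_240c17_al.Tor

theorem kfg2 : Kfg2Prop.{u} := by
  classical
  intro k _ F _ _ m b P' G K hb hbG hP' hDer hpwG hK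
  obtain ⟨S0, hS0⟩ := hK
  have hBK : (⁅K, G⁆ : LieIdeal k F) ≤ K := LieSubmodule.lie_le_left _ _
  refine Sol.pbw k F m 0 P' (Fin m) (fun i => adr k (b i)) (fun i => pw k (b i) P')
    (fun i => pw k (b i) P') _ _ ?_ ?_ ?_ ?_ ?_ hP' ?_ ?_
  · intro i w hw
    exact lie_mem_right (I := (⁅K, G⁆ : LieIdeal k F)) hw _
  · intro i w hw
    exact pw_mem (I := (⁅K, G⁆ : LieIdeal k F)) hw _ _
  · intro i l w hw
    have e1 : adr k (b i) (adr k (b l) w) - adr k (b l) (adr k (b i) w) = ⁅w, ⁅b l, b i⁆⁆ := by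
      show ⁅⁅w, b l⁆, b i⁆ - ⁅⁅w, b i⁆, b l⁆ = _
      rw [lie_lie_swap w (b l) (b i)]
      abel
    rw [e1]
    obtain ⟨a, ha, d, hd, had⟩ := Submodule.mem_sup.mp
      (show ⁅b l, b i⁆ ∈ Submodule.span k (Set.range b) ⊔ G.toSubmodule by
        rw [hbG]; exact Submodule.mem_top)
    rw [← had, lie_add]
    refine Submodule.add_mem_sup ?_ ?_
    · have h2 : Submodule.span k (Set.range b) ≤
          (Submodule.span k (Set.range fun l => adr k (b l) w)).comap
            (LieAlgebra.ad k F w : F →ₗ[k] F) := by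
        rw [Submodule.span_le]
        rintro _ ⟨l', rfl⟩
        exact Submodule.subset_span ⟨l', rfl⟩
      exact h2 ha
    · exact LieSubmodule.lie_mem_lie hw hd
  · intro i l w hw
    have e1 : pw k (b i) P' (adr k (b l) w) - adr k (b l) (pw k (b i) P' w) =
        ⁅w, pw k (b i) P' (b l)⁆ := by
      show pw k (b i) P' ⁅w, b l⁆ - ⁅pw k (b i) P' w, b l⁆ = _
      rw [hDer, add_sub_cancel_left]
    rw [e1]
    exact LieSubmodule.lie_mem_lie hw (hpwG i (b l))
  · intro i
    exact Algebra.subset_adjoin ⟨i, rfl⟩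
  · intro i w _
    have e1 : (adr k (b i) ^ (0 + P')) w - pw k (b i) P' ((adr k (b i) ^ 0) w) = 0 := by
      rw [zero_add, pow_zero]
      exact sub_self _
    rw [e1]
    exact Submodule.zero_mem _
  · refine ⟨S0, le_antisymm ?_ ?_⟩
    · refine sup_le ?_ hBK
      refine gen_le ?_ ?_
      · rintro (i | i) w hw
        · exact lie_mem_right (I := K) hw _
        · exact pw_mem (I := K) hw _ _
      · intro s hs
        rw [SetLike.mem_coe, ← hS0]
        exact LieSubmodule.subset_lieSpan hs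
    · refine le_sup_of_le_left ?_
      rw [← hS0, idealGen k F m b hb]
      exact gen_le (stab_elim.mp (gen_stab (Sum.elim (fun i => adr k (b i))
        (fun i => pw k (b i) P')) (S0 : Set F))).1 (subset_gen _ _)

end Pool.Agent.Lib.MP_240c17_al.Rep
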