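import Pool.Agent.Lib.MP_240c17_al.Rep.Spec

/-!
# (S3) A divisible word over blocks followed by the letter zero is divisible with one more factor
-/

set_option autoImplicit false

namespace Pool.Agent.Lib.MP_240c17_al.Rep

universe u

open Pool.Agent.Lib.MP_240c17_al Pool.Agent.Lib.MP_240c17_al.Two Pool.Agent.Lib.MP_240c17_al.Tor

namespace LemTwoAux

theorem map_flat {α β : Type*} (e : α → List β) (L : List (List α)) :
    ((L.flatten).map e).flatten = (L.map fun l => (l.map e).flatten).flatten := by
  induction L with
  | nil => rfl
  | cons a L ih =>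
    simp only [List.flatten_cons, List.map_append, List.flatten_append, List.map_cons, ih]

theorem map_flat_ofFn {α β : Type*} (e : α → List β) (d : ℕ) (f : Fin d → List α) :
    (((List.ofFn f).flatten).map e).flatten =
      (List.ofFn fun i => ((f i).map e).flatten).flatten := by
  rw [map_flat, List.map_ofFn]
  rfl

theorem shift {β : Type*} (z : β) (d : ℕ) : ∀ (b b' : Fin d → List β), (∀ i, b i = z :: b' i) →
    z :: (List.ofFn fun i => b' i ++ [z]).flatten = (List.ofFn b).flatten ++ [z] := by
  induction d with
  | zero => intro b b' _; simp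
  | succ d ih =>
    intro b b' h
    have h1 := ih (fun i => b i.succ) (fun i => b' i.succ) (fun i => h i.succ)
    simp only [List.ofFn_succ, List.flatten_cons]
    rw [h 0, List.append_assoc, List.append_assoc, List.cons_append, List.cons_append,
      List.nil_append, h1]

theorem len_perm {α β : Type*} (e : α → List β) (d : ℕ) (f : Fin d → List α)
    (τ : Equiv.Perm (Fin d)) :
    (((List.ofFn f).flatten).map e).flatten.length =
      (((List.ofFn (f ∘ τ)).flatten).map e).flatten.length := by
  rw [map_flat_ofFn, map_flat_ofFn]
  simp only [List.length_flatten, List.map_ofFn, List.sum_ofFn]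
  exact (Equiv.sum_comp τ fun i => (((f i).map e).flatten).length).symm

theorem zz {k : ℕ} {m n : ℕ} (h : m < n) {b : Fin (k + 1)} (hb : b ≠ 0)
    (s t : List (Fin (k + 1))) :
    Ls (List.replicate n 0 ++ s) (List.replicate m 0 ++ b :: t) := by
  obtain ⟨r, rfl⟩ : ∃ r, n = m + (r + 1) := ⟨n - m - 1, by omega⟩
  rw [List.replicate_add, List.append_assoc, List.replicate_succ, List.cons_append]
  apply Ls.append_left
  exact ls_cons_of_lt (Fin.pos_iff_ne_zero.mpr hb) _ _

/-- The shape of the images of nonempty words. -/
theorem shape {k k' : ℕ} (e : Fin k' → List (Fin (k + 1))) (he : BEnum e) (w : List (Fin k'))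
    (hw : w ≠ []) : ∃ (i : ℕ) (b : Fin (k + 1)) (r : List (Fin (k + 1))), b ≠ 0 ∧
      (w.map e).flatten = List.replicate (i + 1) 0 ++ b :: r := by
  rcases w with _ | ⟨c, w⟩
  · exact absurd rfl hw
  obtain ⟨i, v, hi, hv, hv0, hz⟩ := he.1 c
  obtain ⟨i, rfl⟩ := Nat.exists_eq_add_of_le' hi
  rcases v with _ | ⟨b, v⟩
  · exact absurd rfl hv
  refine ⟨i, b, v ++ (w.map e).flatten, fun h0 => hv0 (by rw [h0]; exact List.mem_cons_self), ?_⟩
  simp only [List.map_cons, List.flatten_cons]
  rw [hz, List.append_assoc, List.cons_append]

end LemTwoAux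

open LemTwoAux in
theorem lemTwo (h1 : LsFlatProp) : LemTwoProp := by
  intro k k' e he d W hW
  obtain ⟨f, hf, rfl, hσ⟩ := hW
  choose i b r hb ha using fun l => shape e he (f l) (hf l)
  set a : Fin d → List (Fin (k + 1)) := fun l => ((f l).map e).flatten with hadef
  set a' : Fin d → List (Fin (k + 1)) := fun l => List.replicate (i l) 0 ++ b l :: r l with ha'def
  have haa : ∀ l, a l = 0 :: a' l := by
    intro l
    rw [hadef, ha'def]
    simp only
    rw [ha l, List.replicate_succ, List.cons_append]
  have hτ : ∀ τ : Equiv.Perm (Fin d), τ ≠ 1 →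
      Ls (List.ofFn a).flatten (List.ofFn (a ∘ τ)).flatten := by
    intro τ hτ
    have h2 := h1 k k' e he _ _ (hσ τ hτ) (len_perm e d f τ)
    rw [map_flat_ofFn, map_flat_ofFn] at h2
    exact h2
  refine ⟨Fin.cons [0] fun l => a' l ++ [0], ?_, ?_, ?_⟩
  · intro l
    refine Fin.cases ?_ (fun l => ?_) l
    · simp
    · simp
  · rw [map_flat_ofFn, List.ofFn_succ]
    simp only [Fin.cons_zero, Fin.cons_succ, List.flatten_cons, List.cons_append,
      List.nil_append]
    exact (shift 0 d a a' haa).symm
  · intro σ hσ1
    rw [map_flat_ofFn]
    have key : ∀ p : Fin (d + 1), σ 0 = p →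
        Ls ((List.ofFn a).flatten ++ [0])
          (List.ofFn ((Fin.cons [0] fun l => a' l ++ [0] : Fin (d + 1) → List (Fin (k + 1))) ∘
            σ)).flatten := by
      intro p
      refine Fin.cases ?_ (fun j => ?_) p
      · intro h0
        obtain ⟨⟨p', τ⟩, hτ'⟩ := Equiv.Perm.decomposeFin.symm.surjective σ
        have hp' : p' = 0 := by
          rw [← h0, ← hτ', Equiv.Perm.decomposeFin_symm_apply_zero]
        subst hp'
        have hs : ∀ l : Fin d, σ l.succ = (τ l).succ := by
          intro l
          rw [← hτ', Equiv.Perm.decomposeFin_symm_apply_succ, Equiv.swap_self]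
          rfl
        have hne : τ ≠ 1 := by
          rintro rfl
          apply hσ1
          rw [← hτ']
          ext l
          refine Fin.cases ?_ (fun l => ?_) l
          · rw [Equiv.Perm.decomposeFin_symm_apply_zero]
            rfl
          · rw [Equiv.Perm.decomposeFin_symm_apply_succ, Equiv.swap_self]
            rfl
        rw [List.ofFn_succ]
        simp only [Function.comp_apply, h0, hs, Fin.cons_zero, Fin.cons_succ, List.flatten_cons,
          List.cons_append, List.nil_append]
        rw [shift 0 d (fun l => a (τ l)) (fun l => a' (τ l)) (fun l => haa (τ l))]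
        exact (hτ τ hne).append_right _ _
      · intro h0
        rcases d with _ | d
        · exact j.elim0
        have hij : i j ≤ i 0 := by
          by_contra hlt
          have hlt : i 0 < i j := not_le.mp hlt
          have hj : j ≠ 0 := by
            rintro rfl
            exact lt_irrefl _ hlt
          have hne : Equiv.swap (0 : Fin (d + 1)) j ≠ 1 := by
            intro h2
            apply hj
            have h3 : Equiv.swap (0 : Fin (d + 1)) j 0 = 0 := by rw [h2]; rfl
            rw [Equiv.swap_apply_left] at h3
            exact h3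
          have h2 := hτ _ hne
          rw [List.ofFn_succ, List.ofFn_succ] at h2
          simp only [Function.comp_apply, Equiv.swap_apply_left, List.flatten_cons] at h2
          refine h2.asymm ?_
          have e1 : a j = List.replicate (i j + 1) 0 ++ b j :: r j := ha j
          have e2 : a 0 = List.replicate (i 0 + 1) 0 ++ b 0 :: r 0 := ha 0
          rw [e1, e2, List.append_assoc, List.append_assoc]
          simp only [List.cons_append]
          exact zz (by omega) (hb 0) _ _
        rw [List.ofFn_succ, List.ofFn_succ (n := d + 1)]
        simp only [Function.comp_apply, h0, Fin.cons_succ, List.flatten_cons]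
        have e2 : a 0 = List.replicate (i 0 + 1) 0 ++ b 0 :: r 0 := ha 0
        have e3 : a' j = List.replicate (i j) 0 ++ b j :: r j := rfl
        rw [e2, e3]
        simp only [List.append_assoc, List.cons_append]
        exact zz (by omega) (hb j) _ _
    exact key _ rfl

end Pool.Agent.Lib.MP_240c17_al.Rep
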