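import Pool.Agent.Lib.MP_240c17_al.Rep.Spec
import Pool.Agent.Lib.MP_240c17_al.Two.LieGen

/-!
# Lie version: finite generation (helper31)
-/

set_option autoImplicit false

namespace Pool.Agent.Lib.MP_240c17_al.Rep

universe u

open Pool.Agent.Lib.MP_240c17_al Pool.Agent.Lib.MP_240c17_al.Two Pool.Agent.Lib.MP_240c17_al.Tor

namespace LieFgAux

section

variable {k : Type u} [Field k] {F : Type u} [LieRing F] [LieAlgebra k F]

/-- the bracket with `y` on the ideal `G` -/
noncomputable def adG (G : LieIdeal k F) (y : F) : Module.End k G.toSubmodule :=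
  (adr k y).restrict fun a (ha : a ∈ G.toSubmodule) => (lie_mem_right (I := G) ha y : ⁅a, y⁆ ∈ G)

theorem adG_apply (G : LieIdeal k F) (y : F) (v : G.toSubmodule) :
    ((adG G y v : G.toSubmodule) : F) = ⁅(v : F), y⁆ := rfl

/-- the homomorphism into the opposite algebra -/
noncomputable def ph (G : LieIdeal k F) : F →ₗ[k] (Module.End k G.toSubmodule)ᵐᵒᵖ where
  toFun y := MulOpposite.op (adG G y)
  map_add' a b := by
    rw [← MulOpposite.op_add]
    congr 1
    ext v
    rw [LinearMap.add_apply, Submodule.coe_add, adG_apply, adG_apply, adG_apply, lie_add]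
  map_smul' c a := by
    rw [RingHom.id_apply, ← MulOpposite.op_smul]
    congr 1
    ext v
    rw [LinearMap.smul_apply, Submodule.coe_smul, adG_apply, adG_apply, lie_smul]

theorem ph_apply (G : LieIdeal k F) (y : F) (v : G.toSubmodule) :
    (((ph G y).unop v : G.toSubmodule) : F) = ⁅(v : F), y⁆ := rfl

theorem ph_hom (G : LieIdeal k F) : AHom k (ph G) := by
  intro a b
  apply MulOpposite.unop_injective
  rw [MulOpposite.unop_sub, MulOpposite.unop_mul, MulOpposite.unop_mul]
  ext v
  rw [LinearMap.sub_apply, Submodule.coe_sub, Module.End.mul_apply, Module.End.mul_apply,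
    ph_apply, ph_apply, ph_apply, ph_apply, ph_apply, lie_lie_right]

theorem ph_word (G : LieIdeal k F) {n : ℕ} (x : Fin n → F) (w : List (Fin n))
    (v : G.toSubmodule) :
    (((w.map fun i => ph G (x i)).prod.unop v : G.toSubmodule) : F) = wd (v : F) (w.map x) := by
  induction w generalizing v with
  | nil => rfl
  | cons i w ih =>
    rw [List.map_cons, List.prod_cons, MulOpposite.unop_mul, Module.End.mul_apply, ih,
      List.map_cons, wd_cons, ph_apply]

theorem ph_pow (G : LieIdeal k F) (y : F) (q : ℕ) (v : G.toSubmodule) :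
    ((((ph G y) ^ q).unop v : G.toSubmodule) : F) = pw k y q (v : F) := by
  induction q with
  | zero => simp
  | succ q ih =>
    rw [pow_succ, MulOpposite.unop_mul, Module.End.mul_apply, ph_apply, ih, pw_succ]

end

end LieFgAux

open LieFgAux

theorem lieFg (h1 : AssocFgProp.{u}) : LieFgProp.{u} := by
  intro k _ n d P N g hg hN r ts hts F _ _ x G T hx halt hTG hTl hTp hfg
  classical
  obtain ⟨N0, hN0⟩ := h1 k n d P N g hg hN
  obtain ⟨S₀, hS₀⟩ := hfg
  -- the operators on the ideal
  obtain ⟨T', hT'⟩ : ∃ T' : Fin r → (Module.End k G.toSubmodule)ᵐᵒᵖ,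
      ∀ j (v : G.toSubmodule), (((T' j).unop v : G.toSubmodule) : F) = T j (v : F) :=
    ⟨fun j => MulOpposite.op ((T j).restrict fun a (ha : a ∈ G.toSubmodule) =>
      (hTG j a ha : T j a ∈ G)), fun j v => rfl⟩
  have hTpw : ∀ (j : Fin r) (y : F) (q : ℕ), ∀ a ∈ G, T j (pw k y q a) = pw k y q (T j a) := by
    intro j y q a ha
    induction q with
    | zero => simp
    | succ q ih =>
      rw [pw_succ, pw_succ, hTl j _ (pw_mem ha y q), ih]
  have hAlt : AltR n d (fun i => ph G (x i)) := by
    intro f
    apply MulOpposite.unop_injective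
    rw [MulOpposite.unop_zero]
    ext v
    have h2 := halt (v : F) f
    have h3 : ((((∑ σ : Equiv.Perm (Fin d), (Equiv.Perm.sign σ : ℤ) •
        ((List.ofFn (f ∘ σ)).flatten.map fun i => ph G (x i)).prod).unop v : G.toSubmodule)) : F) =
        ∑ σ : Equiv.Perm (Fin d), (Equiv.Perm.sign σ : ℤ) •
          wd (v : F) ((List.ofFn (f ∘ σ)).flatten.map x) := by
      have e1 : (∑ σ : Equiv.Perm (Fin d), (Equiv.Perm.sign σ : ℤ) •
          ((List.ofFn (f ∘ σ)).flatten.map fun i => ph G (x i)).prod).unop =
          ∑ σ : Equiv.Perm (Fin d), ((Equiv.Perm.sign σ : ℤ) •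
          ((List.ofFn (f ∘ σ)).flatten.map fun i => ph G (x i)).prod).unop :=
        map_sum (MulOpposite.opAddEquiv (α := Module.End k G.toSubmodule)).symm _ _
      rw [e1, LinearMap.sum_apply, Submodule.coe_sum]
      refine Finset.sum_congr rfl fun σ _ => ?_
      rw [MulOpposite.unop_smul, LinearMap.smul_apply, Submodule.coe_smul_of_tower, ph_word]
    rw [h3, h2]
    rfl
  have hpow : ∀ j, (ph G (FreeLieAlgebra.lift k x (g (ts j)))) ^ (P + N) =
      T' j * (ph G (FreeLieAlgebra.lift k x (g (ts j)))) ^ P := by
    intro j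
    apply MulOpposite.unop_injective
    ext v
    rw [ph_pow, MulOpposite.unop_mul, Module.End.mul_apply, ph_pow, hT', hTp j _ v.2,
      hTpw j _ P _ v.2]
  have hcomm : ∀ j i, Commute (T' j) (ph G (x i)) := by
    intro j i
    apply MulOpposite.unop_injective
    ext v
    rw [MulOpposite.unop_mul, MulOpposite.unop_mul, Module.End.mul_apply, Module.End.mul_apply,
      ph_apply, hT', hT', ph_apply, hTl j _ v.2]
  have hkey := hN0 r ts hts F (Module.End k G.toSubmodule)ᵐᵒᵖ (ph G) x T' (ph_hom G) hAlt hpow
    hcomm
  -- the finite set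
  have hfin : {w : List (Fin n) | w.length < N0}.Finite := List.finite_length_lt (Fin n) N0
  obtain ⟨S, hS⟩ : ∃ S : Finset F, S = (S₀ ×ˢ hfin.toFinset).image
      fun p => wd p.1 (p.2.map x) := ⟨_, rfl⟩
  refine ⟨S, ?_⟩
  have hS₀G : ∀ s ∈ S₀, s ∈ G := by
    intro s hs
    rw [← hS₀]
    exact LieSubmodule.subset_lieSpan hs
  apply le_antisymm
  · apply gen_le
    · intro j y hy
      exact hTG j y hy
    · intro s hs
      rw [hS, Finset.mem_coe, Finset.mem_image] at hs
      obtain ⟨p, hp, rfl⟩ := hs
      rw [Finset.mem_product] at hp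
      exact wd_mem (hS₀G _ hp.1) _
  · rw [← hS₀, idealGen k F n x hx S₀]
    -- the words
    obtain ⟨Q, hQ⟩ : ∃ Q : Submodule k F, Q = Submodule.span k
        {z | ∃ s ∈ S₀, ∃ w : List (Fin n), z = wd s (w.map x)} := ⟨_, rfl⟩
    have hQ1 : Two.gen (fun i => adr k (x i)) (S₀ : Set F) ≤ Q := by
      apply gen_le
      · intro i y hy
        rw [hQ] at hy ⊢
        induction hy using Submodule.span_induction with
        | mem y hy =>
          obtain ⟨s, hs, w, rfl⟩ := hy
          refine Submodule.subset_span ⟨s, hs, w ++ [i], ?_⟩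
          rw [List.map_append, List.map_singleton, wd_concat]
          rfl
        | zero =>
          rw [map_zero]
          exact Submodule.zero_mem _
        | add a b _ _ ha hb =>
          rw [map_add]
          exact Submodule.add_mem _ ha hb
        | smul c a _ ha =>
          rw [map_smul]
          exact Submodule.smul_mem _ c ha
      · intro s hs
        rw [hQ]
        exact Submodule.subset_span ⟨s, hs, [], rfl⟩
    refine hQ1.trans ?_
    rw [hQ, Submodule.span_le]
    rintro z ⟨s, hs, w, rfl⟩
    -- evaluation at `s`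
    have hadj : ∀ c ∈ Algebra.adjoin k (Set.range T'), ∀ v : G.toSubmodule,
        (v : F) ∈ Two.gen T (S : Set F) → ((c.unop v : G.toSubmodule) : F) ∈
          Two.gen T (S : Set F) := by
      intro c hc
      induction hc using Algebra.adjoin_induction with
      | mem c hc =>
        obtain ⟨j, rfl⟩ := hc
        intro v hv
        rw [hT']
        exact gen_stab T _ j _ hv
      | algebraMap a =>
        intro v hv
        have h4 : (((algebraMap k (Module.End k G.toSubmodule)ᵐᵒᵖ a).unop v : G.toSubmodule) : F) =
            a • (v : F) := rfl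
        rw [h4]
        exact Submodule.smul_mem _ a hv
      | add a b _ _ ha hb =>
        intro v hv
        rw [MulOpposite.unop_add, LinearMap.add_apply, Submodule.coe_add]
        exact Submodule.add_mem _ (ha v hv) (hb v hv)
      | mul a b _ _ ha hb =>
        intro v hv
        rw [MulOpposite.unop_mul, Module.End.mul_apply]
        exact hb _ (ha v hv)
    have hcw : ∀ c ∈ Algebra.adjoin k (Set.range T'), ∀ w : List (Fin n),
        Commute c (w.map fun i => ph G (x i)).prod := by
      intro c hc w
      induction hc using Algebra.adjoin_induction with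
      | mem c hc =>
        obtain ⟨j, rfl⟩ := hc
        induction w with
        | nil => simp
        | cons i w ih =>
          rw [List.map_cons, List.prod_cons]
          exact (hcomm j i).mul_right ih
      | algebraMap a => exact Algebra.commutes a _
      | add a b _ _ ha hb => exact ha.add_left hb
      | mul a b _ _ ha hb => exact ha.mul_left hb
    have hev : ∀ r' ∈ Submodule.span k {r | ∃ c ∈ Algebra.adjoin k (Set.range T'),
        ∃ w' : List (Fin n), w'.length < N0 ∧ r = c * (w'.map fun i => ph G (x i)).prod},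
        ((r'.unop ⟨s, hS₀G s hs⟩ : G.toSubmodule) : F) ∈ Two.gen T (S : Set F) := by
      intro r' hr'
      induction hr' using Submodule.span_induction with
      | mem r' hr' =>
        obtain ⟨c, hc, w', hw', rfl⟩ := hr'
        rw [(hcw c hc w').eq, MulOpposite.unop_mul, Module.End.mul_apply]
        apply hadj c hc
        rw [ph_word]
        apply subset_gen
        rw [hS, Finset.mem_coe, Finset.mem_image]
        refine ⟨(s, w'), ?_, rfl⟩
        rw [Finset.mem_product]
        exact ⟨hs, hfin.mem_toFinset.2 hw'⟩
      | zero =>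
        rw [MulOpposite.unop_zero]
        exact Submodule.zero_mem _
      | add a b _ _ ha hb =>
        rw [MulOpposite.unop_add, LinearMap.add_apply, Submodule.coe_add]
        exact Submodule.add_mem _ ha hb
      | smul c a _ ha =>
        rw [MulOpposite.unop_smul, LinearMap.smul_apply, Submodule.coe_smul]
        exact Submodule.smul_mem _ c ha
    have h5 := hev _ (hkey w)
    rw [ph_word] at h5
    exact h5

end Pool.Agent.Lib.MP_240c17_al.Rep
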