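import Pool.Agent.Lib.MP_240c17_al.Rep.Spec

/-!
# LieNil: long words act as zero, Lie version (helper77, after helper17's docstring)
-/

set_option autoImplicit false

namespace Pool.Agent.Lib.MP_240c17_al.Rep

universe u

open Pool.Agent.Lib.MP_240c17_al Pool.Agent.Lib.MP_240c17_al.Two Pool.Agent.Lib.MP_240c17_al.Tor

namespace LieNilAux

variable {k F : Type u} [Field k] [LieRing F] [LieAlgebra k F]

/-- The elements `y` with `⁅Y, y⁆ ⊆ Y`. -/
def stab (Y : Submodule k F) : LieSubalgebra k F where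
  carrier := {y | ∀ w ∈ Y, ⁅w, y⁆ ∈ Y}
  add_mem' := by
    intro a b ha hb w hw
    rw [lie_add]
    exact Y.add_mem (ha w hw) (hb w hw)
  zero_mem' := by
    intro w _
    rw [lie_zero]
    exact Y.zero_mem
  smul_mem' := by
    intro c a ha w hw
    rw [lie_smul]
    exact Y.smul_mem c (ha w hw)
  lie_mem' := by
    intro a b ha hb w hw
    have h1 : ⁅w, ⁅a, b⁆⁆ = ⁅⁅w, a⁆, b⁆ - ⁅⁅w, b⁆, a⁆ := by
      rw [lie_lie_swap w a b]
      abel
    rw [h1]
    exact Y.sub_mem (hb _ (ha w hw)) (ha _ (hb w hw))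

theorem stab_all {n : ℕ} {x : Fin n → F} (hx : LieSubalgebra.lieSpan k F (Set.range x) = ⊤)
    {Y : Submodule k F} (h : ∀ i, ∀ w ∈ Y, ⁅w, x i⁆ ∈ Y) : ∀ y : F, ∀ w ∈ Y, ⁅w, y⁆ ∈ Y := by
  intro y
  have h1 : LieSubalgebra.lieSpan k F (Set.range x) ≤ stab Y := by
    rw [LieSubalgebra.lieSpan_le]
    rintro _ ⟨i, rfl⟩
    exact h i
  rw [hx] at h1
  exact h1 (LieSubalgebra.mem_top y)

section

variable (Y Z : Submodule k F) (hY : ∀ y : F, ∀ w ∈ Y, ⁅w, y⁆ ∈ Y)
  (hZ : ∀ y : F, ∀ w ∈ Z, ⁅w, y⁆ ∈ Z)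

/-- The operator on `Z`. -/
def resZ (y : F) : ↥Z →ₗ[k] ↥Z := (adr k y).restrict (fun z hz => hZ y z hz)

theorem resZ_coe (y : F) (z : ↥Z) : ((resZ Z hZ y z : ↥Z) : F) = ⁅(z : F), y⁆ := rfl

/-- The operator on `Z / Y`. -/
def opQ (y : F) : Module.End k (↥Z ⧸ Y.comap Z.subtype) :=
  Submodule.mapQ _ _ (resZ Z hZ y) (fun z hz => hY y z hz)

theorem opQ_mk (y : F) (z : ↥Z) :
    opQ Y Z hY hZ y (Submodule.Quotient.mk z) = Submodule.Quotient.mk (resZ Z hZ y z) := rfl

theorem end_ext {f g : Module.End k (↥Z ⧸ Y.comap Z.subtype)}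
    (h : ∀ z : ↥Z, f (Submodule.Quotient.mk z) = g (Submodule.Quotient.mk z)) : f = g := by
  apply LinearMap.ext
  intro q
  obtain ⟨z, rfl⟩ := Submodule.Quotient.mk_surjective _ q
  exact h z

/-- The homomorphism. -/
def phi : F →ₗ[k] (Module.End k (↥Z ⧸ Y.comap Z.subtype))ᵐᵒᵖ where
  toFun y := MulOpposite.op (opQ Y Z hY hZ y)
  map_add' a b := by
    apply MulOpposite.unop_injective
    apply end_ext
    intro z
    rw [MulOpposite.unop_add, MulOpposite.unop_op, MulOpposite.unop_op, MulOpposite.unop_op,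
      LinearMap.add_apply, opQ_mk, opQ_mk, opQ_mk, ← Submodule.Quotient.mk_add]
    congr 1
    apply Subtype.ext
    rw [Submodule.coe_add, resZ_coe, resZ_coe, resZ_coe, lie_add]
  map_smul' c a := by
    apply MulOpposite.unop_injective
    apply end_ext
    intro z
    rw [RingHom.id_apply, MulOpposite.unop_smul, MulOpposite.unop_op, MulOpposite.unop_op,
      LinearMap.smul_apply, opQ_mk, opQ_mk, ← Submodule.Quotient.mk_smul]
    congr 1
    apply Subtype.ext
    rw [Submodule.coe_smul, resZ_coe, resZ_coe, lie_smul]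

theorem phi_mk (y : F) (z : ↥Z) :
    (phi Y Z hY hZ y).unop (Submodule.Quotient.mk z) =
      Submodule.Quotient.mk (resZ Z hZ y z) := rfl

theorem phi_hom : AHom k (phi Y Z hY hZ) := by
  intro a b
  apply MulOpposite.unop_injective
  apply end_ext
  intro z
  rw [MulOpposite.unop_sub, MulOpposite.unop_mul, MulOpposite.unop_mul, LinearMap.sub_apply,
    Module.End.mul_apply, Module.End.mul_apply, phi_mk, phi_mk, phi_mk, phi_mk, phi_mk,
    ← Submodule.Quotient.mk_sub]
  congr 1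
  apply Subtype.ext
  rw [Submodule.coe_sub, resZ_coe, resZ_coe, resZ_coe, resZ_coe, resZ_coe,
    lie_lie_swap (z : F) a b]
  abel

include hZ in
/-- The word with the first letter in `Z`. -/
theorem wd_mem_Z (l : List F) : ∀ z ∈ Z, wd z l ∈ Z := by
  induction l with
  | nil => exact fun z hz => hz
  | cons y l ih => exact fun z hz => ih _ (hZ y z hz)

theorem prod_mk {n : ℕ} (x : Fin n → F) (w : List (Fin n)) : ∀ z : ↥Z,
    ((w.map fun i => phi Y Z hY hZ (x i)).prod).unop (Submodule.Quotient.mk z) =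
      Submodule.Quotient.mk ⟨wd (z : F) (w.map x), wd_mem_Z Z hZ _ _ z.2⟩ := by
  induction w with
  | nil => intro z; rfl
  | cons i w ih =>
    intro z
    rw [List.map_cons, List.prod_cons, MulOpposite.unop_mul, Module.End.mul_apply, phi_mk, ih]
    rfl

theorem pow_mk (y : F) (q : ℕ) : ∀ z : ↥Z, ∃ h : pw k y q (z : F) ∈ Z,
    ((phi Y Z hY hZ y) ^ q).unop (Submodule.Quotient.mk z) =
      Submodule.Quotient.mk ⟨pw k y q (z : F), h⟩ := by
  induction q with
  | zero =>
    intro z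
    refine ⟨by rw [pw_zero]; exact z.2, ?_⟩
    rw [pow_zero]
    have h1 : (⟨pw k y 0 (z : F), by rw [pw_zero]; exact z.2⟩ : ↥Z) = z :=
      Subtype.ext (pw_zero k y (z : F))
    rw [h1]
    rfl
  | succ q ih =>
    intro z
    obtain ⟨h1, h2⟩ := ih (resZ Z hZ y z)
    rw [resZ_coe] at h1
    refine ⟨by rw [pw_succ']; exact h1, ?_⟩
    rw [pow_succ', MulOpposite.unop_mul, Module.End.mul_apply, phi_mk, h2]
    congr 1

end

end LieNilAux

open LieNilAux in
theorem lieNil (h1 : AssocNilProp.{u}) : LieNilProp.{u} := by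
  intro k _ n d q g hg
  obtain ⟨N0, hN0⟩ := h1 k n d q g hg
  refine ⟨N0, ?_⟩
  intro F _ _ x Y Z hx hAlt hYZ hY hZ hpow w hw z hz
  have hY' := stab_all hx hY
  have hZ' := stab_all hx hZ
  have hAltR : AltR n d (fun i => phi Y Z hY' hZ' (x i)) := by
    intro f
    apply MulOpposite.unop_injective
    apply end_ext
    intro z
    rw [MulOpposite.unop_zero, LinearMap.zero_apply, Finset.unop_sum, LinearMap.sum_apply]
    have h2 : ∀ σ : Equiv.Perm (Fin d),
        (MulOpposite.unop ((Equiv.Perm.sign σ : ℤ) •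
          ((List.ofFn (f ∘ σ)).flatten.map fun i => phi Y Z hY' hZ' (x i)).prod))
          (Submodule.Quotient.mk z) =
        (Submodule.mkQ (Y.comap Z.subtype)) ((Equiv.Perm.sign σ : ℤ) •
          (⟨wd (z : F) ((List.ofFn (f ∘ σ)).flatten.map x), wd_mem_Z Z hZ' _ _ z.2⟩ : ↥Z)) := by
      intro σ
      rw [MulOpposite.unop_smul, LinearMap.smul_apply, prod_mk, map_zsmul]
      rfl
    rw [Finset.sum_congr rfl (fun σ _ => h2 σ), ← map_sum]
    have h3 : (∑ σ : Equiv.Perm (Fin d), (Equiv.Perm.sign σ : ℤ) •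
          (⟨wd (z : F) ((List.ofFn (f ∘ σ)).flatten.map x), wd_mem_Z Z hZ' _ _ z.2⟩ : ↥Z)) =
        0 := by
      apply Subtype.ext
      rw [Submodule.coe_sum]
      have h4 := hAlt (z : F) f
      rw [Submodule.coe_zero, ← h4]
      exact Finset.sum_congr rfl fun σ _ => rfl
    rw [h3, map_zero]
  have hnil : ∀ t, Lyn t → t.length < d →
      phi Y Z hY' hZ' (FreeLieAlgebra.lift k x (g t)) ^ q = 0 := by
    intro t ht htd
    apply MulOpposite.unop_injective
    apply end_ext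
    intro z
    obtain ⟨h2, h3⟩ := pow_mk Y Z hY' hZ' (FreeLieAlgebra.lift k x (g t)) q z
    rw [h3, MulOpposite.unop_zero, LinearMap.zero_apply, Submodule.Quotient.mk_eq_zero]
    exact hpow t ht htd z z.2
  have h5 := hN0 F _ (phi Y Z hY' hZ') x (phi_hom Y Z hY' hZ') hAltR hnil w hw
  have h6 := prod_mk Y Z hY' hZ' x w ⟨z, hz⟩
  rw [h5, MulOpposite.unop_zero, LinearMap.zero_apply] at h6
  have h7 := (Submodule.Quotient.mk_eq_zero _).mp h6.symm
  exact h7

end Pool.Agent.Lib.MP_240c17_al.Rep
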