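import Pool.Agent.Lib.MP_240c17_al.Rep.Spec

/-!
# (S2) Expansion of blocks preserves the strict order
-/

set_option autoImplicit false

namespace Pool.Agent.Lib.MP_240c17_al.Rep

universe u

open Pool.Agent.Lib.MP_240c17_al Pool.Agent.Lib.MP_240c17_al.Two Pool.Agent.Lib.MP_240c17_al.Tor

namespace LsFlatAux

theorem rep_eq {k : ℕ} (i : ℕ) : ∀ (j : ℕ) (a b : Fin (k + 1)) (s t : List (Fin (k + 1))),
    a ≠ 0 → b ≠ 0 → List.replicate i 0 ++ a :: s = List.replicate j 0 ++ b :: t →
    i = j ∧ a :: s = b :: t := by
  induction i with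
  | zero =>
    intro j a b s t ha hb h
    rcases j with _ | j
    · exact ⟨rfl, by simpa using h⟩
    · simp only [List.replicate_zero, List.nil_append, List.replicate_succ, List.cons_append,
        List.cons.injEq] at h
      exact absurd h.1 ha
  | succ i ih =>
    intro j a b s t ha hb h
    rcases j with _ | j
    · simp only [List.replicate_zero, List.nil_append, List.replicate_succ, List.cons_append,
        List.cons.injEq] at h
      exact absurd h.1.symm hb
    · simp only [List.replicate_succ, List.cons_append, List.cons.injEq, true_and] at h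
      obtain ⟨h1, h2⟩ := ih j a b s t ha hb h
      exact ⟨by rw [h1], h2⟩

theorem blk_tail {k : ℕ} {z u g : List (Fin (k + 1))} (hz : Blk z) (hu : Blk u)
    (h : z = u ++ g) : (0 : Fin (k + 1)) ∉ g := by
  obtain ⟨i, v, _, hv, hv0, rfl⟩ := hz
  obtain ⟨j, w, _, hw, hw0, rfl⟩ := hu
  rcases v with _ | ⟨a, v⟩
  · exact absurd rfl hv
  rcases w with _ | ⟨b, w⟩
  · exact absurd rfl hw
  rw [List.append_assoc, List.cons_append] at h
  have ha : a ≠ 0 := fun h0 => hv0 (by rw [h0]; exact List.mem_cons_self)
  have hb : b ≠ 0 := fun h0 => hw0 (by rw [h0]; exact List.mem_cons_self)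
  obtain ⟨_, h2⟩ := rep_eq i j a b v (w ++ g) ha hb h
  intro h0
  apply hv0
  rw [h2]
  exact List.mem_cons_of_mem _ (List.mem_append_right _ h0)

end LsFlatAux

theorem lsFlat : LsFlatProp := by
  intro k k' e he W W' hW hlen
  obtain ⟨P, c, c', S, S', rfl, rfl, hcc⟩ := hW
  simp only [List.map_append, List.map_cons, List.flatten_append, List.flatten_cons] at hlen ⊢
  apply Ls.append_left
  rcases he.2 c c' hcc with h | ⟨g, hg, h⟩
  · exact h.append_right _ _
  · rw [h, List.append_assoc]
    apply Ls.append_left
    have h0 : (0 : Fin (k + 1)) ∉ g := LsFlatAux.blk_tail (he.1 c') (he.1 c) h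
    rcases g with _ | ⟨a, g⟩
    · exact absurd rfl hg
    have ha : a ≠ 0 := fun h1 => h0 (by rw [h1]; exact List.mem_cons_self)
    rcases S with _ | ⟨s, S⟩
    · exfalso
      rw [h] at hlen
      simp only [List.length_append, List.length_cons, List.map_nil, List.flatten_nil,
        List.length_nil] at hlen
      omega
    · obtain ⟨i, v, hi, _, _, hz⟩ := he.1 s
      obtain ⟨i, rfl⟩ := Nat.exists_eq_add_of_le' hi
      simp only [List.map_cons, List.flatten_cons]
      rw [hz, List.replicate_succ]
      simp only [List.cons_append]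
      exact ls_cons_of_lt (Fin.pos_iff_ne_zero.mpr ha) _ _

end Pool.Agent.Lib.MP_240c17_al.Rep
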