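import Pool.Agent.Lib.MP_240c17_al.Rep.Spec

/-!
# Rep, L1: factorization of Lyndon words (helper34)
-/

set_option autoImplicit false

namespace Pool.Agent.Lib.MP_240c17_al.Rep

universe u

open Pool.Agent.Lib.MP_240c17_al Pool.Agent.Lib.MP_240c17_al.Two Pool.Agent.Lib.MP_240c17_al.Tor

namespace LynFactAux

variable {α : Type*} [LinearOrder α]

theorem lex_cases {x y : List α} (h : x < y) : Ls x y ∨ x <+: y := by
  have h' : List.Lex (· < ·) x y := h
  clear h
  induction h' with
  | nil => exact Or.inr List.nil_prefix
  | rel h => exact Or.inl (ls_cons_of_lt h _ _)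
  | cons h ih =>
    rcases ih with ih | ih
    · exact Or.inl (ls_cons.mpr ih)
    · exact Or.inr ((List.prefix_cons_inj _).2 ih)

theorem tri (x y : List α) : Ls x y ∨ x <+: y ∨ Ls y x ∨ y <+: x := by
  rcases lt_trichotomy x y with h | h | h
  · rcases lex_cases h with h | h
    · exact Or.inl h
    · exact Or.inr (Or.inl h)
  · subst h
    exact Or.inr (Or.inl (List.prefix_refl _))
  · rcases lex_cases h with h | h
    · exact Or.inr (Or.inr (Or.inl h))
    · exact Or.inr (Or.inr (Or.inr h))

theorem not_ls_append_self (w c : List α) : ¬ Ls (w ++ c) w := by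
  intro h
  have h1 : Ls (w ++ c) (w ++ []) := by simpa using h
  exact not_ls_nil_right _ ((ls_append_iff w).mp h1)

end LynFactAux

open LynFactAux in
theorem lynFact : LynFactProp := by
  intro n u hu hlen
  obtain ⟨m, hm, hmin⟩ := Finset.exists_min_image (Finset.Ico 1 u.length) (fun m => u.drop m)
    ⟨1, by simp; omega⟩
  rw [Finset.mem_Ico] at hm
  obtain ⟨v, w, huvw, hv, hw, hsuf⟩ : ∃ v w : List (Fin n), u = v ++ w ∧ v ≠ [] ∧ w ≠ [] ∧
      ∀ a w' : List (Fin n), a ≠ [] → w' ≠ [] → u = a ++ w' → Ls w w' ∨ w <+: w' := by
    refine ⟨u.take m, u.drop m, (List.take_append_drop m u).symm, ?_, ?_, ?_⟩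
    · intro h
      have := congrArg List.length h
      simp at this
      rcases this with h1 | h1
      · omega
      · subst h1
        simp at hlen
    · intro h
      have := congrArg List.length h
      simp at this
      omega
    · intro a w' ha hw' hua
      have hmem : a.length ∈ Finset.Ico 1 u.length := by
        rw [Finset.mem_Ico]
        have h1 : 0 < a.length := List.length_pos_iff.2 ha
        have h2 : 0 < w'.length := List.length_pos_iff.2 hw'
        have h3 := congrArg List.length hua
        rw [List.length_append] at h3
        omega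
      have h4 := hmin _ hmem
      have h5 : u.drop a.length = w' := by rw [hua]; simp
      simp only [h5] at h4
      rcases lt_or_eq_of_le h4 with h6 | h6
      · exact lex_cases h6
      · right
        rw [h6]
  have hpos : ∀ {x : List (Fin n)}, x ≠ [] → 0 < x.length := fun h => List.length_pos_iff.2 h
  refine ⟨v, w, ⟨hv, ?_⟩, ⟨hw, ?_⟩, huvw⟩
  · intro x v' hx hv' hxv
    have h1 : Ls u (v' ++ w) := hu.2 x (v' ++ w) hx (by simp [hv']) (by rw [huvw, hxv]; simp)
    rcases tri v v' with h2 | h2 | h2 | h2
    · exact h2
    · exfalso
      have h3 := h2.length_le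
      have h4 := congrArg List.length hxv
      rw [List.length_append] at h4
      have := hpos hx
      omega
    · exfalso
      have h3 : Ls (v' ++ w) u := by
        rw [huvw]
        exact h2.append_right w w
      exact h1.asymm h3
    · exfalso
      obtain ⟨v'', hv''⟩ := h2
      have h3 : v'' ≠ [] := by
        intro h
        rw [h, List.append_nil] at hv''
        have h4 := congrArg List.length hxv
        rw [List.length_append, ← hv''] at h4
        have := hpos hx
        omega
      have h4 : Ls (v'' ++ w) w := by
        have h5 : u = v' ++ (v'' ++ w) := by rw [huvw, ← hv'']; simp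
        rw [h5] at h1
        exact (ls_append_iff v').mp h1
      rcases hsuf v' (v'' ++ w) hv' (by simp [hw]) (by rw [huvw, ← hv'']; simp) with h5 | h5
      · exact h4.asymm h5
      · obtain ⟨c, hc⟩ := h5
        rw [← hc] at h4
        exact not_ls_append_self w c h4
  · intro x w' hx hw' hxw
    rcases hsuf (v ++ x) w' (by simp [hv]) hw' (by rw [huvw, hxw]; simp) with h1 | h1
    · exact h1
    · exfalso
      have h3 := h1.length_le
      have h4 := congrArg List.length hxw
      rw [List.length_append] at h4
      have := hpos hx
      omega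

end Pool.Agent.Lib.MP_240c17_al.Rep
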