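import Pool.Agent.Lib.MP_240c17_al.Rep.Spec

/-!
# Divisible words under strictly monotone maps of the letters
-/

set_option autoImplicit false

namespace Pool.Agent.Lib.MP_240c17_al.Rep

universe u

open Pool.Agent.Lib.MP_240c17_al Pool.Agent.Lib.MP_240c17_al.Two Pool.Agent.Lib.MP_240c17_al.Tor

namespace MapDvAux

theorem ls_map {k k' : ℕ} {e : Fin k → Fin k'} (he : StrictMono e) {u v : List (Fin k)}
    (h : Ls u v) : Ls (u.map e) (v.map e) := by
  obtain ⟨p, a, b, s, t, rfl, rfl, hab⟩ := h
  exact ⟨p.map e, e a, e b, s.map e, t.map e, by simp, by simp, he hab⟩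

theorem flat_map {k k' d : ℕ} (e : Fin k → Fin k') (f : Fin d → List (Fin k)) :
    (List.ofFn f).flatten.map e = (List.ofFn fun i => (f i).map e).flatten := by
  rw [List.map_flatten, List.map_ofFn]
  rfl

end MapDvAux

open MapDvAux in
theorem mapDv : MapDvProp := by
  intro k k' e he d w hw
  obtain ⟨a, u, b, rfl, f, hf, hu, hσ⟩ := hw
  refine ⟨a.map e, u.map e, b.map e, by simp, fun i => (f i).map e, ?_, ?_, ?_⟩
  · intro i h
    exact hf i (List.map_eq_nil_iff.1 h)
  · rw [hu, flat_map]
  · intro σ h1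
    have h2 := ls_map he (hσ σ h1)
    rw [flat_map] at h2
    exact h2

end Pool.Agent.Lib.MP_240c17_al.Rep
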