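import Pool.Agent.Lib.MP_240c17_al.Rep.Spec

/-!
Operators on the iterated ideals (G1).
-/

set_option autoImplicit false

namespace Pool.Agent.Lib.MP_240c17_al.Rep

universe u

open Pool.Agent.Lib.MP_240c17_al Pool.Agent.Lib.MP_240c17_al.Two Pool.Agent.Lib.MP_240c17_al.Tor

section

variable {k : Type u} [Field k] {F X : Type u} [LieRing F] [LieAlgebra k F] [LieRing X]
  [LieAlgebra k X]

/-- the elements on which `S` acts, with values in `M` -/
private def midSJ (Φ : F →ₗ⁅k⁆ X) (S : Module.End k X)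
    (hS : ∀ a b : X, S ⁅a, b⁆ = ⁅S a, b⁆) (M : LieIdeal k F) : LieIdeal k F where
  carrier := {a | ∃ a' ∈ M, Φ a' = S (Φ a)}
  add_mem' := by
    rintro a b ⟨a', ha, ha'⟩ ⟨b', hb, hb'⟩
    exact ⟨a' + b', add_mem ha hb, by rw [map_add, map_add, map_add, ha', hb']⟩
  zero_mem' := ⟨0, zero_mem _, by rw [map_zero, map_zero]⟩
  smul_mem' := by
    rintro c a ⟨a', ha, ha'⟩
    exact ⟨c • a', Submodule.smul_mem _ c ha, by rw [map_smul, map_smul, map_smul, ha']⟩
  lie_mem := by
    rintro z a ⟨a', ha, ha'⟩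
    refine ⟨⁅z, a'⁆, LieSubmodule.lie_mem _ ha, ?_⟩
    have h1 : Φ ⁅a, z⁆ = ⁅Φ a, Φ z⁆ := LieHom.map_lie _ _ _
    have h2 : Φ ⁅a', z⁆ = ⁅Φ a', Φ z⁆ := LieHom.map_lie _ _ _
    rw [← lie_skew z a, ← lie_skew z a', map_neg, map_neg, map_neg, h1, h2, hS, ha']

private theorem midS_pw (S : Module.End k X) (hS : ∀ a b : X, S ⁅a, b⁆ = ⁅S a, b⁆) (v : X) (e : ℕ)
    (a : X) : S (pw k v e a) = pw k v e (S a) := by
  induction e with
  | zero => simp
  | succ e ih => rw [pw_succ, pw_succ, hS, ih]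

end

theorem midS : MidSProp.{u} := by
  intro k _ F X _ _ _ _ Φ ι P N y S hS hpw l
  induction l with
  | nil =>
    intro i hi
    simp at hi
  | cons h l ih =>
    intro i hi
    have hle : Mid k P ((h :: l).map y) ≤ midSJ Φ (S i) (hS i) (Mid k P ((h :: l).map y)) := by
      show LieSubmodule.lieSpan k F {w | ∃ m ∈ Mid k P (l.map y), w = pw k (y h) P m} ≤ _
      rw [LieSubmodule.lieSpan_le]
      rintro _ ⟨m, hm, rfl⟩
      show ∃ a' ∈ Mid k P ((h :: l).map y), Φ a' = S i (Φ (pw k (y h) P m))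
      have hgen : ∀ m' ∈ Mid k P (l.map y), pw k (y h) P m' ∈ Mid k P ((h :: l).map y) :=
        fun m' hm' => LieSubmodule.subset_lieSpan ⟨m', hm', rfl⟩
      rw [List.mem_cons] at hi
      by_cases hih : i = h
      · subst hih
        refine ⟨pw k (y i) P (pw k (y i) N m), hgen _ (pw_mem hm _ _), ?_⟩
        rw [← pw_add, pw_map, hpw, pw_map]
      · have hil : i ∈ l := by
          rcases hi with hi | hi
          · exact absurd hi hih
          · exact hi
        obtain ⟨m', hm', e⟩ := ih i hil m hm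
        refine ⟨pw k (y h) P m', hgen _ hm', ?_⟩
        rw [pw_map, pw_map, midS_pw (S i) (hS i), e]
    intro a ha
    exact hle ha

end Pool.Agent.Lib.MP_240c17_al.Rep
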