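import Pool.Agent.Lib.MP_240c17_al.Rep.Spec
import Pool.Agent.Lib.MP_240c17_al.Tor.Torsion
import Pool.Agent.Lib.MP_240c17_al.Tor.PolyDiv
import Pool.Agent.Lib.MP_240c17_al.Tor.Frob
import Pool.Agent.Lib.MP_240c17_al.Semi.Ident

/-!
One-class models.
-/

set_option autoImplicit false

namespace Pool.Agent.Lib.MP_240c17_al.Rep

universe u

open Pool.Agent.Lib.MP_240c17_al Pool.Agent.Lib.MP_240c17_al.Two Pool.Agent.Lib.MP_240c17_al.Tor

namespace ModelAux

theorem pw_eq (k : Type u) [Field k] (K : Type u) [Field K] (A : Type u) [LieRing A]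
    [LieAlgebra k A] [LieAlgebra K A] (y : A) (e : ℕ) (a : A) : pw k y e a = pw K y e a := by
  rw [pw_iterate, pw_iterate]

theorem der_change (k : Type u) [Field k] (K : Type u) [Field K] (A : Type u) [LieRing A]
    [LieAlgebra k A] [LieAlgebra K A] (e : ℕ) (h : Der k A e) : Der K A e := by
  intro y a b
  rw [← pw_eq k K, ← pw_eq k K, ← pw_eq k K]
  exact h y a b

theorem balW_change (k : Type u) [Field k] (K : Type u) [Field K] (A : Type u) [LieRing A]
    [LieAlgebra k A] [LieAlgebra K A] (i e Q : ℕ) (h : BalW k A i e Q) : BalW K A i e Q := by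
  intro y a b zs hz
  rw [← pw_eq k K, ← pw_eq k K, ← pw_eq k K, ← pw_eq k K]
  exact h y a b zs hz

end ModelAux

open ModelAux in
theorem model (h1 : BaseChgProp.{u}) (h2 : OneClassProp.{u}) : ModelProp.{u} := by
  intro k _ _ p _ _ m r D co hr hco hne
  obtain ⟨B₀, M₀, hM₀, hT⟩ := Tor.torsion Tor.polyDiv k p m r co hr hco hne
  have hp1 : 1 < p := (Fact.out : p.Prime).one_lt
  have hp0 : 0 < p := by omega
  obtain ⟨s, hs⟩ : ∃ s : ℕ, max B₀ D ≤ p ^ s := ⟨max B₀ D, (Nat.lt_pow_self hp1).le⟩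
  refine ⟨s, p ^ s * M₀, Nat.mul_pos (pow_pos hp0 s) hM₀, ?_⟩
  intro K _ _ A _ _ _ _ hfd hfr hI n f hρ
  obtain ⟨K', i1, i2, i3, B, i4, i5, i6, i7, hfd', hfr', hid, hρ'⟩ := h1 k K A n f hρ
  have hI' : IdI k B m co := by
    obtain ⟨g, hg⟩ := Semi.ident k m co
    rw [← hg]
    apply hid
    rw [hg]
    exact hI
  obtain ⟨hD1, hB1⟩ := hT B hI' s (p ^ s * M₀) ((le_max_left _ _).trans hs) (dvd_refl _)
  have hD0 : Der k B (p ^ s) := Tor.frob k p B s
  have hchar : CharP K' p := charP_of_injective_algebraMap (algebraMap k K').injective p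
  have hBD : Module.finrank K' B ≤ D := hfr'.trans hfr
  obtain ⟨B', j1, j2, j3, j4, hfd2, hfr2, hid2, hτ, hρ2⟩ := h2 k p K' B s (p ^ s * M₀)
    (hBD.trans ((le_max_right _ _).trans hs)) (Nat.mul_pos (pow_pos hp0 s) hM₀) (dvd_mul_right _ _)
    (der_change k K' B _ hD0) (der_change k K' B _ hD1) (balW_change k K' B _ _ _ hB1) n f hρ'
  have hinf : Infinite K' := IsAlgClosed.instInfinite
  exact ⟨K', i1, i2, hinf, B', j1, j2, j3, j4, hfd2, hfr2.trans hBD, hid.trans hid2, hτ, hρ2⟩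

end Pool.Agent.Lib.MP_240c17_al.Rep
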