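import Pool.Agent.Lib.MP_240c17_al.Rep.Spec
import Pool.Agent.Lib.MP_240c17_al.Tor.OpPoly

/-!
(G3) Nilpotency by lines.
-/

set_option autoImplicit false

namespace Pool.Agent.Lib.MP_240c17_al.Rep

universe u

open Pool.Agent.Lib.MP_240c17_al Pool.Agent.Lib.MP_240c17_al.Two Pool.Agent.Lib.MP_240c17_al.Tor

namespace NilLineAux

section

variable {k : Type u} [Field k]

theorem sep {V : Type u} [AddCommGroup V] [Module k V] (U : Submodule k V) {x : V} (hx : x ∉ U) :
    ∃ f : V →ₗ[k] k, f x ≠ 0 ∧ ∀ y ∈ U, f y = 0 := by
  obtain ⟨f, hf, hU⟩ := U.exists_le_ker_of_notMem hx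
  exact ⟨f, hf, fun y hy => hU hy⟩

theorem PF_lin {X Y : Type u} [AddCommGroup X] [Module k X] [AddCommGroup Y] [Module k Y]
    {d : ℕ} {f : k → X} (g : X →ₗ[k] Y) (h : PF k d f) : PF k d (fun μ => g (f μ)) := by
  obtain ⟨q, hq⟩ := h
  refine ⟨fun l => g (q l), fun μ => ?_⟩
  beta_reduce
  rw [hq μ, map_sum]
  exact Finset.sum_congr rfl (fun l _ => by rw [map_smul])

theorem PF_pw {F : Type u} [LieRing F] [LieAlgebra k F] (y Z w : F) (e : ℕ) :
    PF k e (fun c => pw k (y + c • Z) e w) := by
  induction e with
  | zero =>
    simp only [pw_zero]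
    exact OpPoly_const _ _
  | succ e ih =>
    simp only [pw_succ]
    have h1 : PF k 1 (fun c : k => y + c • Z) := by
      have h2 := OpPoly_add (OpPoly_const (k := k) 1 y) (OpPoly_monomial (k := k) (le_refl 1) Z)
      simpa only [pow_one] using h2
    exact OpPoly_lie ih h1

/-- a polynomial family in `G` outside the roots of a polynomial is in `G` at zero -/
theorem zero_mem [Infinite k] {V : Type u} [AddCommGroup V] [Module k V] (U : Submodule k V)
    {d : ℕ} {f : k → V} (hf : PF k d f) (p : Polynomial k) (hp : p ≠ 0)
    (h : ∀ c, p.eval c ≠ 0 → f c ∈ U) : f 0 ∈ U := by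
  by_contra hcon
  obtain ⟨μ, hμ, hU⟩ := sep U hcon
  obtain ⟨q, hq⟩ := hf
  let R : Polynomial k := ∑ l ∈ Finset.range (d + 1), Polynomial.C (μ (q l)) * Polynomial.X ^ l
  have hR : ∀ c, R.eval c = μ (f c) := by
    intro c
    rw [hq c, map_sum, Polynomial.eval_finset_sum]
    refine Finset.sum_congr rfl (fun l _ => ?_)
    rw [Polynomial.eval_mul, Polynomial.eval_C, Polynomial.eval_pow, Polynomial.eval_X, map_smul,
      smul_eq_mul, mul_comm]
  have hzero : p * R = 0 := by
    apply Polynomial.funext
    intro c
    rw [Polynomial.eval_mul, Polynomial.eval_zero]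
    by_cases hc : p.eval c = 0
    · rw [hc, zero_mul]
    · rw [hR, hU _ (h c hc), mul_zero]
  have hR0 : R = 0 := (mul_eq_zero.1 hzero).resolve_left hp
  apply hμ
  rw [← hR 0, hR0, Polynomial.eval_zero]

/-- the span of the operators of a list -/
def Wl {X : Type u} [AddCommGroup X] [Module k X] {r : ℕ}
    (S : (Fin r → k) → Module.End k X) (l : List (Fin r → k)) : Submodule k (Module.End k X) :=
  Submodule.span k {R | ∃ t' ∈ l, R = S t'}

theorem Wl_le {X : Type u} [AddCommGroup X] [Module k X] {r : ℕ}
    (S : (Fin r → k) → Module.End k X) (l : List (Fin r → k)) :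
    Wl S l ≤ Submodule.span k (Set.range S) := by
  apply Submodule.span_mono
  rintro R ⟨t, -, rfl⟩
  exact ⟨t, rfl⟩

theorem fin_all {X : Type u} [AddCommGroup X] [Module k X] {r N : ℕ}
    (S : (Fin r → k) → Module.End k X) (hS : PolyS k r N S) :
    Module.Finite k (Submodule.span k (Set.range S)) := by
  classical
  obtain ⟨s, Q, -, hQ⟩ := hS
  have h1 : Submodule.span k (Set.range S) ≤ Submodule.span k ((s.image Q : Finset _) : Set (Module.End k X)) := by
    rw [Submodule.span_le]
    rintro _ ⟨t, rfl⟩
    rw [SetLike.mem_coe, hQ t]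
    refine Submodule.sum_mem _ (fun α hα => Submodule.smul_mem _ _ (Submodule.subset_span ?_))
    exact Finset.mem_coe.2 (Finset.mem_image_of_mem _ hα)
  have : Module.Finite k (Submodule.span k ((s.image Q : Finset _) : Set (Module.End k X))) :=
    FiniteDimensional.span_finset k _
  exact Submodule.finiteDimensional_of_le h1

/-- the values of a linear form on the operators along a line -/
theorem line_poly {X : Type u} [AddCommGroup X] [Module k X] {r N : ℕ}
    (S : (Fin r → k) → Module.End k X) (hS : PolyS k r N S) (lam : Module.End k X →ₗ[k] k)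
    (e z : Fin r → k) : ∃ p : Polynomial k, ∀ c, p.eval c = lam (S (e + c • z)) := by
  obtain ⟨s, Q, -, hQ⟩ := hS
  refine ⟨∑ α ∈ s, (∏ i, (Polynomial.C (e i) + Polynomial.X * Polynomial.C (z i)) ^ α i) *
    Polynomial.C (lam (Q α)), fun c => ?_⟩
  rw [hQ, map_sum, Polynomial.eval_finset_sum]
  refine Finset.sum_congr rfl (fun α _ => ?_)
  rw [map_smul, smul_eq_mul, Polynomial.eval_mul, Polynomial.eval_C, Polynomial.eval_prod]
  congr 1
  refine Finset.prod_congr rfl (fun i _ => ?_)
  rw [Polynomial.eval_pow, Polynomial.eval_add, Polynomial.eval_C, Polynomial.eval_mul,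
    Polynomial.eval_X, Polynomial.eval_C]
  rfl

end

end NilLineAux

open NilLineAux in
theorem nilLine : NilLineProp.{u} := by
  classical
  intro k _ _ F X _ _ _ _ P N r u S G hS hG
  have hfin := fin_all S hS
  set ρ := Module.finrank k (Submodule.span k (Set.range S)) with hρ
  have hfl : ∀ l, Module.Finite k (Wl S l) := fun l => Submodule.finiteDimensional_of_le (Wl_le S l)
  have claim : ∀ (c : ℕ) (l : List (Fin r → k)) (w : F) (j : Fin r),
      w ∈ Mid k P (l.map (cmb k u)) → ρ ≤ Module.finrank k (Wl S l) + c →
      pw k (u j) (c * P) w ∈ G := by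
    intro c
    induction c with
    | zero =>
      intro l w j hw hr
      rw [zero_mul, pw_zero]
      refine hG l ?_ hw
      intro t
      have heq : Wl S l = Submodule.span k (Set.range S) :=
        Submodule.eq_of_le_of_finrank_le (Wl_le S l) (by omega)
      show S t ∈ Wl S l
      rw [heq]
      exact Submodule.subset_span ⟨t, rfl⟩
    | succ c ih =>
      intro l w j hw hr
      by_cases hc : ρ ≤ Module.finrank k (Wl S l) + c
      · have h1 := ih l w j hw hc
        rw [show (c + 1) * P = P + c * P by ring, pw_add]
        exact pw_mem h1 _ _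
      · push Not at hc
        obtain ⟨t₁, ht₁⟩ : ∃ t₁, S t₁ ∉ Wl S l := by
          by_contra hcon
          push Not at hcon
          have h1 : Submodule.span k (Set.range S) ≤ Wl S l := by
            rw [Submodule.span_le]
            rintro _ ⟨t, rfl⟩
            exact hcon t
          have h2 := Submodule.finrank_mono h1
          omega
        obtain ⟨lam, hlam, hlam0⟩ := sep (Wl S l) ht₁
        set e : Fin r → k := Pi.single j 1 with he
        set z : Fin r → k := t₁ - e with hz
        obtain ⟨p, hp⟩ := line_poly S hS lam e z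
        have hp0 : p ≠ 0 := by
          intro h0
          have h1 := hp 1
          rw [h0, Polynomial.eval_zero, one_smul, hz, add_sub_cancel] at h1
          exact hlam h1.symm
        have hcmb : ∀ c : k, cmb k u (e + c • z) = u j + c • cmb k u z := by
          intro c
          unfold cmb
          rw [Finset.smul_sum]
          have h1 : u j = ∑ i, e i • u i := by
            rw [he, Finset.sum_eq_single j]
            · rw [Pi.single_eq_same, one_smul]
            · intro i _ hi
              rw [Pi.single_eq_of_ne hi, zero_smul]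
            · intro h
              exact absurd (Finset.mem_univ j) h
          rw [h1, ← Finset.sum_add_distrib]
          refine Finset.sum_congr rfl (fun i _ => ?_)
          rw [Pi.add_apply, Pi.smul_apply, add_smul, smul_eq_mul, mul_smul]
        have hPF : PF k P (fun a : k => pw k (u j) (c * P) (pw k (u j + a • cmb k u z) P w)) :=
          PF_lin (pw k (u j) (c * P)) (PF_pw (u j) (cmb k u z) w P)
        have h0 := zero_mem G.toSubmodule hPF p hp0 (by
          intro a ha
          have hnot : S (e + a • z) ∉ Wl S l := by
            intro hmem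
            exact ha (by rw [hp a]; exact hlam0 _ hmem)
          have hlt : Wl S l < Wl S ((e + a • z) :: l) := by
            refine lt_of_le_of_ne ?_ ?_
            · apply Submodule.span_mono
              rintro R ⟨t, ht, rfl⟩
              exact ⟨t, List.mem_cons_of_mem _ ht, rfl⟩
            · intro heq
              apply hnot
              rw [heq]
              exact Submodule.subset_span ⟨_, List.mem_cons_self, rfl⟩
          have hfl' := hfl ((e + a • z) :: l)
          have hrk := Submodule.finrank_lt_finrank_of_lt hlt
          have hmem : pw k (cmb k u (e + a • z)) P w ∈ Mid k P (((e + a • z) :: l).map (cmb k u)) := by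
            rw [List.map_cons]
            exact LieSubmodule.subset_lieSpan ⟨w, hw, rfl⟩
          have h2 := ih ((e + a • z) :: l) _ j hmem (by omega)
          rw [hcmb a] at h2
          exact h2)
        have h3 : pw k (u j) (c * P) (pw k (u j + (0 : k) • cmb k u z) P w) ∈ G := h0
        rw [zero_smul, add_zero, ← pw_add] at h3
        rw [show (c + 1) * P = c * P + P by ring]
        exact h3
  refine ⟨ρ * P, fun j w => ?_⟩
  refine claim ρ [] w j ?_ (Nat.le_add_left _ _)
  exact LieSubmodule.mem_top w

end Pool.Agent.Lib.MP_240c17_al.Rep
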