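import Pool.Agent.Lib.MP_240c17_al.Rep.Spec

/-!
Reduction to one-class algebras.
-/

set_option autoImplicit false

namespace Pool.Agent.Lib.MP_240c17_al.Rep

universe u

open Pool.Agent.Lib.MP_240c17_al Pool.Agent.Lib.MP_240c17_al.Two Pool.Agent.Lib.MP_240c17_al.Tor
open Pool.Agent.Lib.MP_240c17_al.Semi (idOf)

namespace ROneClass

section

variable {k : Type u} [Field k] {K : Type u} [Field K] [Algebra k K] {A : Type u} [LieRing A]
  [LieAlgebra k A] [LieAlgebra K A] [IsScalarTower k K A]

/-- The structure of a Lie algebra over the small field. -/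
@[reducible] def subLie (S : LieSubalgebra K A) : LieAlgebra k S :=
  { (inferInstance : Module k S) with
    lie_smul := fun c x y => Subtype.ext (lie_smul c (x : A) (y : A)) }

/-- The inclusion over the small field. -/
def incl (S : LieSubalgebra K A) : letI := subLie (k := k) S; S →ₗ⁅k⁆ A :=
  letI := subLie (k := k) S
  { toFun := fun x => (x : A)
    map_add' := fun _ _ => rfl
    map_smul' := fun _ _ => rfl
    map_lie' := rfl }

theorem incl_lift (S : LieSubalgebra K A) {X : Type} (ρ : X → S) (f : FreeLieAlgebra k X) :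
    letI := subLie (k := k) S
    ((FreeLieAlgebra.lift k ρ f : S) : A) = FreeLieAlgebra.lift k (fun i => (ρ i : A)) f := by
  letI := subLie (k := k) S
  have h : (incl (k := k) S).comp (FreeLieAlgebra.lift k ρ) =
      FreeLieAlgebra.lift k (fun i => (ρ i : A)) := by
    apply FreeLieAlgebra.hom_ext
    intro i
    rw [LieHom.comp_apply, FreeLieAlgebra.lift_of_apply, FreeLieAlgebra.lift_of_apply]
    rfl
  rw [← h]
  rfl

theorem coe_pw (S : LieSubalgebra K A) (y a : S) (e : ℕ) :
    ((pw K y e a : S) : A) = pw K (y : A) e (a : A) :=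
  pw_map K S.incl y e a

theorem coe_wd (S : LieSubalgebra K A) (a : S) (zs : List S) :
    ((wd a zs : S) : A) = wd (a : A) (zs.map S.incl) :=
  wd_map S.incl a zs

theorem der_sub (S : LieSubalgebra K A) {e : ℕ} (h : Der K A e) : Der K S e := by
  intro y a b
  apply Subtype.ext
  have := h y a b
  push_cast
  rw [coe_pw, coe_pw, coe_pw]
  exact this

theorem bal_sub (S : LieSubalgebra K A) {i e Q : ℕ} (h : BalW K A i e Q) : BalW K S i e Q := by
  intro y a b zs hz
  apply Subtype.ext
  have := h y a b (zs.map S.incl) (by simpa using hz)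
  push_cast
  rw [coe_wd, coe_wd, coe_pw, coe_pw, coe_pw, coe_pw]
  exact this

end

theorem aux (h1 : DecIdProp.{u}) (k : Type u) [Field k] (p : ℕ) [Fact p.Prime] [CharP k p]
    (K : Type u) [Field K] [Algebra k K] [IsAlgClosed K] (s N : ℕ) (hN : 0 < N)
    (hsN : p ^ s ∣ N) (n : ℕ) (f : FreeLieAlgebra k (Fin n)) :
    ∀ (d : ℕ) (A : Type u) [LieRing A] [LieAlgebra k A] [LieAlgebra K A]
    [IsScalarTower k K A] [FiniteDimensional K A], Module.finrank K A = d →
    Module.finrank K A ≤ p ^ s → Der K A (p ^ s) → Der K A (p ^ s + N) →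
    BalW K A 0 (p ^ s) N → (∃ ρ : Fin n → A, FreeLieAlgebra.lift k ρ f ≠ 0) →
    ∃ (B : Type u) (_ : LieRing B) (_ : LieAlgebra k B) (_ : LieAlgebra K B)
      (_ : IsScalarTower k K B), FiniteDimensional K B ∧
      Module.finrank K B ≤ Module.finrank K A ∧ idOf k A ⊆ idOf k B ∧
      (∀ b : B, ∃ τ : K, ∀ a : B, pw K b (p ^ s + N) a = τ • pw K b (p ^ s) a) ∧
      ∃ ρ : Fin n → B, FreeLieAlgebra.lift k ρ f ≠ 0 := by
  intro d
  induction d using Nat.strong_induction_on with
  | _ d ih =>
    intro A _ _ _ _ _ hd hps hD1 hD2 hB hf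
    by_cases hc : ∀ b : A, ∃ τ : K, ∀ a : A, pw K b (p ^ s + N) a = τ • pw K b (p ^ s) a
    · exact ⟨A, inferInstance, inferInstance, inferInstance, inferInstance, inferInstance, le_rfl,
        Set.Subset.refl _, hc, hf⟩
    · push Not at hc
      obtain ⟨v, hv⟩ := hc
      obtain ⟨ρ0, hρ0⟩ := hf
      have h2 : ¬ ∀ (τ : K) (ρ : Fin n → A),
        (∀ i, pw K v (p ^ s + N) (ρ i) = τ • pw K v (p ^ s) (ρ i)) →
        FreeLieAlgebra.lift k ρ f = 0 := fun h =>
        hρ0 (h1 k p K A s N hps hN hsN hD1 hD2 hB v n f h ρ0)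
      push Not at h2
      obtain ⟨τ, ρ, hρ, hρf⟩ := h2
      let S : LieSubalgebra K A :=
        { carrier := {a | pw K v (p ^ s + N) a = τ • pw K v (p ^ s) a}
          add_mem' := by
            intro a b ha hb
            simp only [Set.mem_setOf_eq] at ha hb ⊢
            rw [map_add, map_add, ha, hb, smul_add]
          zero_mem' := by
            simp only [Set.mem_setOf_eq]
            rw [map_zero, map_zero, smul_zero]
          smul_mem' := by
            intro c a ha
            simp only [Set.mem_setOf_eq] at ha ⊢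
            rw [map_smul, map_smul, ha, smul_comm]
          lie_mem' := by
            intro a b ha hb
            have ha' : pw K v (p ^ s + N) a = τ • pw K v (p ^ s) a := ha
            have hb' : pw K v (p ^ s + N) b = τ • pw K v (p ^ s) b := hb
            show pw K v (p ^ s + N) ⁅a, b⁆ = τ • pw K v (p ^ s) ⁅a, b⁆
            rw [hD2, hD1, ha', hb', smul_lie, lie_smul, smul_add] }
      have hS : ∀ a, a ∈ S ↔ pw K v (p ^ s + N) a = τ • pw K v (p ^ s) a := fun a => Iff.rfl
      letI : LieAlgebra k S := subLie (k := k) S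
      haveI : IsScalarTower k K S := inferInstance
      haveI : FiniteDimensional K S := inferInstanceAs (FiniteDimensional K S.toSubmodule)
      have hlt : Module.finrank K S < Module.finrank K A := by
        have : S.toSubmodule < ⊤ := by
          rw [lt_top_iff_ne_top]
          intro h
          obtain ⟨a, ha⟩ := hv τ
          apply ha
          rw [← hS, ← LieSubalgebra.mem_toSubmodule, h]
          trivial
        exact Submodule.finrank_lt this.ne
      obtain ⟨B, i1, i2, i3, i4, h5, h6, h7, h8, h9⟩ := ih (Module.finrank K S) (hd ▸ hlt) S rfl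
        (hlt.le.trans hps) (der_sub S hD1) (der_sub S hD2) (bal_sub S hB)
        ⟨fun i => ⟨ρ i, (hS _).2 (hρ i)⟩, fun h => hρf (by
          have h3 := incl_lift (k := k) S (fun i => (⟨ρ i, (hS _).2 (hρ i)⟩ : S)) f
          rw [← h3]
          exact congrArg Subtype.val h)⟩
      refine ⟨B, i1, i2, i3, i4, h5, h6.trans hlt.le, ?_, h8, h9⟩
      refine Set.Subset.trans ?_ h7
      intro g hg ρ
      apply Subtype.ext
      rw [incl_lift]
      exact hg _

end ROneClass

theorem oneClass (h1 : DecIdProp.{u}) : OneClassProp.{u} := by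
  intro k _ p _ _ K _ _ _ A _ _ _ _ _ s N hps hN hsN hD1 hD2 hB n f hf
  exact ROneClass.aux h1 k p K s N hN hsN n f _ A rfl hps hD1 hD2 hB hf

end Pool.Agent.Lib.MP_240c17_al.Rep
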