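import Pool.Agent.Lib.MP_240c17_al.Rep.Spec
import Pool.Agent.Lib.MP_240c17_al.Two.RelFree

/-!
The product of the models.
-/

set_option autoImplicit false

namespace Pool.Agent.Lib.MP_240c17_al.Rep

universe u

open Pool.Agent.Lib.MP_240c17_al Pool.Agent.Lib.MP_240c17_al.Two Pool.Agent.Lib.MP_240c17_al.Tor

namespace RPack

section Prod

variable {ι : Type u} (k : Type u) [Field k] (L : ι → Type u) [∀ i, LieRing (L i)]
  [∀ i, LieAlgebra k (L i)]

/-- The product of a family of Lie algebras. -/
def PX {ι : Type u} (L : ι → Type u) : Type u := ∀ i, L i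

instance : AddCommGroup (PX L) := inferInstanceAs (AddCommGroup (∀ i, L i))

instance : Module k (PX L) := inferInstanceAs (Module k (∀ i, L i))

instance : Bracket (PX L) (PX L) := ⟨fun x y i => ⁅x i, y i⁆⟩

theorem px_lie (x y : PX L) (i : ι) : ⁅x, y⁆ i = ⁅x i, y i⁆ := rfl
theorem px_add (x y : PX L) (i : ι) : (x + y) i = x i + y i := rfl
theorem px_zero (i : ι) : (0 : PX L) i = 0 := rfl
theorem px_smul (c : k) (x : PX L) (i : ι) : (c • x) i = c • x i := rfl

variable {k L} in
theorem px_ext {x y : PX L} (h : ∀ i, x i = y i) : x = y := funext h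

instance : LieRing (PX L) where
  add_lie x y z := px_ext fun i => by simp only [px_lie, px_add, add_lie]
  lie_add x y z := px_ext fun i => by simp only [px_lie, px_add, lie_add]
  lie_self x := px_ext fun i => by simp only [px_lie, px_zero, lie_self]
  leibniz_lie x y z := px_ext fun i => by
    simp only [px_lie, px_add]
    exact leibniz_lie _ _ _

instance : LieAlgebra k (PX L) where
  lie_smul c x y := px_ext fun i => by simp only [px_lie, px_smul, lie_smul]

/-- Evaluation. -/
def ev (i : ι) : PX L →ₗ⁅k⁆ L i where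
  toFun x := x i
  map_add' _ _ := rfl
  map_smul' _ _ := rfl
  map_lie' := rfl

theorem ev_apply (i : ι) (x : PX L) : ev k L i x = x i := rfl

end Prod

/-- A model. -/
structure Mdl (k : Type u) [Field k] (P N D n : ℕ) (T : LieIdeal k (FreeLieAlgebra k (Fin n))) :
    Type (u + 1) where
  K : Type u
  [fK : Field K]
  [alg : Algebra k K]
  [inf : Infinite K]
  B : Type u
  [lr : LieRing B]
  [la : LieAlgebra k B]
  [laK : LieAlgebra K B]
  [tow : IsScalarTower k K B]
  [fd : FiniteDimensional K B]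
  dim : Module.finrank K B ≤ D
  τ : B → K
  hτ : ∀ b a : B, pw K b (P + N) a = τ b • pw K b P a
  hq : ∀ (m : ℕ) (c : Fin m → B), ∃ q : MvPolynomial (Fin m) K, q.totalDegree ≤ N ∧
    ∀ t : Fin m → K, τ (∑ i, t i • c i) = MvPolynomial.eval t q
  ρ : Fin n → B
  hρ : ∀ w ∈ T, FreeLieAlgebra.lift k ρ w = 0

attribute [instance] Mdl.fK Mdl.alg Mdl.inf Mdl.lr Mdl.la Mdl.laK Mdl.tow Mdl.fd

theorem pw_eq {k K : Type u} [Field k] [Field K] {B : Type u} [LieRing B] [LieAlgebra k B]
    [LieAlgebra K B] (y : B) (e : ℕ) (a : B) : pw k y e a = pw K y e a := by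
  rw [pw_iterate, pw_iterate]

/-- Words with blocks as products of operators, in the reversed order. -/
theorem wd_flatten {K : Type u} [Field K] {B : Type u} [LieRing B] [LieAlgebra K B] {α : Type}
    (x : α → B) (ls : List (List α)) (m : B) :
    wd m (ls.flatten.map x) = ((ls.map fun l => wdL K (l.map x)).reverse.prod) m := by
  induction ls generalizing m with
  | nil => simp
  | cons l ls ih =>
    rw [List.flatten_cons, List.map_append, wd_append, ih, List.map_cons, List.reverse_cons,
      List.prod_append, List.prod_singleton, Module.End.mul_apply, wdL_apply]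

theorem reverse_ofFn {β : Type u} {d : ℕ} (φ : Fin d → β) :
    (List.ofFn φ).reverse = List.ofFn (φ ∘ Fin.rev) := by
  apply List.ext_getElem
  · simp
  · intro i h1 h2
    simp only [List.length_reverse, List.length_ofFn] at h1
    rw [List.getElem_reverse, List.getElem_ofFn, List.getElem_ofFn, Function.comp_apply]
    congr 1
    ext
    simp [Fin.rev]
    omega

theorem alt_rev (h2 : AltEndProp.{u}) {K : Type u} [Field K] {B : Type u} [LieRing B]
    [LieAlgebra K B] [FiniteDimensional K B] {n d : ℕ}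
    (hd : Module.finrank K B * Module.finrank K B < d) (x : Fin n → B) (m : B)
    (f : Fin d → List (Fin n)) : ∑ σ : Equiv.Perm (Fin d),
      (Equiv.Perm.sign σ : ℤ) • wd m ((List.ofFn (f ∘ σ)).flatten.map x) = 0 := by
  set φ : Fin d → Module.End K B := fun j => wdL K ((f j).map x) with hφ
  have h3 := h2 K B d hd φ
  have h4 : ∀ σ : Equiv.Perm (Fin d), wd m ((List.ofFn (f ∘ σ)).flatten.map x) =
      (List.ofFn (φ ∘ (σ * Fin.revPerm : Equiv.Perm (Fin d)))).prod m := by
    intro σ
    rw [wd_flatten (K := K), List.map_ofFn, reverse_ofFn]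
    rfl
  have h5 : ∑ σ : Equiv.Perm (Fin d),
      (Equiv.Perm.sign σ : ℤ) • wd m ((List.ofFn (f ∘ σ)).flatten.map x) =
      (Equiv.Perm.sign (Fin.revPerm : Equiv.Perm (Fin d)) : ℤ) •
        ((∑ σ : Equiv.Perm (Fin d), (Equiv.Perm.sign σ : ℤ) • (List.ofFn (φ ∘ σ)).prod :
          Module.End K B) m) := by
    rw [LinearMap.sum_apply, Finset.smul_sum]
    refine Fintype.sum_equiv (Equiv.mulRight (Fin.revPerm : Equiv.Perm (Fin d))) _ _ fun σ => ?_
    rw [h4, Equiv.coe_mulRight, LinearMap.smul_apply, smul_smul, Equiv.Perm.sign_mul]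
    congr 1
    have h6 : ((Equiv.Perm.sign (Fin.revPerm : Equiv.Perm (Fin d)) : ℤˣ) : ℤ) *
        ((Equiv.Perm.sign (Fin.revPerm : Equiv.Perm (Fin d)) : ℤˣ) : ℤ) = 1 := by
      rw [← Units.val_mul, Int.units_mul_self, Units.val_one]
    rw [Units.val_mul, mul_comm ((Equiv.Perm.sign σ : ℤˣ) : ℤ), ← mul_assoc, h6, one_mul]
  rw [h5, h3, LinearMap.zero_apply, smul_zero]

/-- Evaluation of a polynomial of degree at most `N` as a sum over a fixed set of exponents. -/
theorem eval_sum {K : Type u} [Field K] {r N : ℕ} (q : MvPolynomial (Fin r) K)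
    (h : q.totalDegree ≤ N) (x : Fin r → K) : MvPolynomial.eval x q =
      ∑ α ∈ (Fintype.piFinset fun _ : Fin r => Finset.range (N + 1)).filter
        (fun α => ∑ i, α i ≤ N),
        MvPolynomial.coeff (Finsupp.equivFunOnFinite.symm α) q * ∏ i, x i ^ α i := by
  classical
  set e : (Fin r →₀ ℕ) ≃ (Fin r → ℕ) := Finsupp.equivFunOnFinite with he
  have h1 : MvPolynomial.eval x q = ∑ α ∈ q.support.map e.toEmbedding,
      MvPolynomial.coeff (e.symm α) q * ∏ i, x i ^ α i := by
    rw [MvPolynomial.eval_eq', Finset.sum_map]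
    refine Finset.sum_congr rfl fun d _ => ?_
    simp [he]
  rw [h1]
  refine Finset.sum_subset ?_ ?_
  · intro α hα
    rw [Finset.mem_map] at hα
    obtain ⟨d, hd, rfl⟩ := hα
    have h2 := (MvPolynomial.le_totalDegree hd).trans h
    rw [Finsupp.sum_fintype _ _ (fun _ => rfl)] at h2
    rw [Finset.mem_filter, Fintype.mem_piFinset]
    refine ⟨fun i => ?_, h2⟩
    rw [Finset.mem_range]
    have h3 : d i ≤ ∑ i, d i := Finset.single_le_sum (f := fun i => d i)
      (fun _ _ => Nat.zero_le _) (Finset.mem_univ i)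
    exact Nat.lt_succ_of_le (h3.trans h2)
  · intro α _ hα
    have h2 : MvPolynomial.coeff (e.symm α) q = 0 := by
      by_contra h3
      apply hα
      rw [Finset.mem_map]
      exact ⟨e.symm α, MvPolynomial.mem_support_iff.mpr h3, by simp⟩
    rw [h2, zero_mul]

end RPack

open RPack

theorem pack (h1 : TauPolyProp.{u}) (h2 : AltEndProp.{u}) : PackProp.{u} := by
  intro k _ _ P N D n T hT
  classical
  -- the models
  have hM : ∀ f : {f : FreeLieAlgebra k (Fin n) // f ∉ T}, ∃ M : Mdl k P N D n T,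
      FreeLieAlgebra.lift k M.ρ f.1 ≠ 0 := by
    rintro ⟨f, hf⟩
    obtain ⟨K', i1, i2, i3, B, i4, i5, i6, i7, i8, h9, h10, ρ, h11, h12⟩ := hT f hf
    obtain ⟨τ, ht1, ht2⟩ := h1 K' B P N h10
    exact ⟨{ K := K', B := B, dim := h9, τ := τ, hτ := ht1, hq := ht2, ρ := ρ, hρ := h11 }, h12⟩
  choose M hM using hM
  set L : {f : FreeLieAlgebra k (Fin n) // f ∉ T} → Type u := fun f => (M f).B with hL
  set Φ0 : FreeLieAlgebra k (Fin n) →ₗ⁅k⁆ PX L := FreeLieAlgebra.lift k fun i f => (M f).ρ i
    with hΦ0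
  have hev : ∀ f w, (Φ0 w) f = FreeLieAlgebra.lift k (M f).ρ w := by
    intro f w
    have : (ev k L f).comp Φ0 = FreeLieAlgebra.lift k (M f).ρ := by
      apply FreeLieAlgebra.hom_ext
      intro i
      rw [LieHom.comp_apply, hΦ0, FreeLieAlgebra.lift_of_apply, FreeLieAlgebra.lift_of_apply]
      rfl
    rw [← this]
    rfl
  obtain ⟨Φ, hΦ⟩ := relFree_factor T Φ0 (by
    intro w hw
    rw [LieHom.mem_ker]
    exact px_ext fun f => by rw [hev, (M f).hρ w hw]; rfl)
  have hinj : Function.Injective Φ := by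
    rw [injective_iff_map_eq_zero]
    intro a ha
    obtain ⟨w, rfl⟩ := qMk_surjective T a
    rw [hΦ] at ha
    rw [qMk_eq_zero]
    by_contra hw
    apply hM ⟨w, hw⟩
    rw [← hev, ha]
    rfl
  have hpw : ∀ (y a : PX L) (e : ℕ) (f), (pw k y e a) f = pw (M f).K (y f) e (a f) := by
    intro y a e f
    rw [← pw_eq (k := k) (K := (M f).K)]
    exact pw_map k (ev k L f) y e a
  refine ⟨PX L, inferInstance, inferInstance, Φ, hinj, ?_, ?_⟩
  · intro m h
    apply hinj
    rw [map_sum, map_zero]
    refine px_ext fun f => ?_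
    have h3 := alt_rev h2 (d := D * D + 1) (Nat.lt_succ_of_le (Nat.mul_le_mul (M f).dim (M f).dim))
      (fun i => (Φ (qMk T (FreeLieAlgebra.of k i))) f) ((Φ m) f) h
    have h4 : (∑ σ : Equiv.Perm (Fin (D * D + 1)), Φ ((Equiv.Perm.sign σ : ℤ) •
        wd m ((List.ofFn (h ∘ σ)).flatten.map fun i => qMk T (FreeLieAlgebra.of k i)))) f =
        ∑ σ : Equiv.Perm (Fin (D * D + 1)), (Equiv.Perm.sign σ : ℤ) • wd ((Φ m) f)
          ((List.ofFn (h ∘ σ)).flatten.map fun i => (Φ (qMk T (FreeLieAlgebra.of k i))) f) := by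
      rw [← ev_apply k L f (∑ _, _), map_sum]
      refine Finset.sum_congr rfl fun σ _ => ?_
      rw [map_zsmul, map_zsmul, wd_map, wd_map, List.map_map, List.map_map]
      rfl
    rw [h4, h3]
    rfl
  · intro r u
    have hq : ∀ f, ∃ q : MvPolynomial (Fin r) (M f).K, q.totalDegree ≤ N ∧
        ∀ t : Fin r → k, (M f).τ ((Φ (cmb k u t)) f) =
          MvPolynomial.eval (fun i => algebraMap k (M f).K (t i)) q := by
      intro f
      obtain ⟨q, hq1, hq2⟩ := (M f).hq r (fun i => (Φ (u i)) f)
      refine ⟨q, hq1, fun t => ?_⟩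
      rw [← hq2]
      congr 1
      unfold cmb
      rw [map_sum, ← ev_apply k L f (∑ _, _), map_sum]
      refine Finset.sum_congr rfl fun i _ => ?_
      rw [map_smul, map_smul, ev_apply, algebraMap_smul]
    choose q hq1 hq2 using hq
    set S : (Fin r → k) → Module.End k (PX L) := fun t =>
      { toFun := fun ξ f => (M f).τ ((Φ (cmb k u t)) f) • ξ f
        map_add' := fun ξ η => px_ext fun f => by
          simp only [px_add, smul_add]
        map_smul' := fun c ξ => px_ext fun f => by
          simp only [px_smul, RingHom.id_apply]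
          rw [smul_comm] } with hS
    have hSa : ∀ t ξ f, (S t ξ) f = (M f).τ ((Φ (cmb k u t)) f) • ξ f := fun t ξ f => rfl
    refine ⟨S, ⟨?_, ?_, ?_, ?_⟩⟩
    · set Q : (Fin r → ℕ) → Module.End k (PX L) := fun α =>
        { toFun := fun ξ f => (MvPolynomial.coeff (Finsupp.equivFunOnFinite.symm α) (q f)) • ξ f
          map_add' := fun ξ η => px_ext fun f => by
            simp only [px_add, smul_add]
          map_smul' := fun c ξ => px_ext fun f => by
            simp only [px_smul, RingHom.id_apply]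
            rw [smul_comm] } with hQ
      have hQa : ∀ α ξ f, (Q α ξ) f =
        (MvPolynomial.coeff (Finsupp.equivFunOnFinite.symm α) (q f)) • ξ f := fun _ _ _ => rfl
      refine ⟨(Fintype.piFinset fun _ => Finset.range (N + 1)).filter fun α => ∑ i, α i ≤ N, Q,
        fun α hα => (Finset.mem_filter.mp hα).2, fun t => ?_⟩
      apply LinearMap.ext
      intro ξ
      refine px_ext fun f => ?_
      rw [hSa, hq2, LinearMap.sum_apply, ← ev_apply k L f (∑ α ∈ _, _), map_sum,
        eval_sum (q f) (hq1 f), Finset.sum_smul]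
      refine Finset.sum_congr rfl fun α _ => ?_
      rw [LinearMap.smul_apply, map_smul, ev_apply, hQa, mul_comm, mul_smul]
      have h5 : (∏ i, (algebraMap k (M f).K) (t i) ^ α i) = algebraMap k (M f).K
          (∏ i, t i ^ α i) := by
        rw [map_prod]
        exact Finset.prod_congr rfl fun i _ => (map_pow _ _ _).symm
      rw [h5, algebraMap_smul]
    · intro t a b
      refine px_ext fun f => ?_
      rw [hSa, px_lie, px_lie, hSa, smul_lie]
    · intro t t' a
      refine px_ext fun f => ?_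
      rw [hSa, hSa, hSa, hSa, smul_comm]
    · intro t a
      refine px_ext fun f => ?_
      rw [hpw, hSa, hpw, (M f).hτ]

end Pool.Agent.Lib.MP_240c17_al.Rep
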