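import Pool.Agent.Lib.MP_240c17_al.Rep.Spec

/-!
# (L4) Reduction of powers
-/

set_option autoImplicit false

namespace Pool.Agent.Lib.MP_240c17_al.Rep

universe u

open Pool.Agent.Lib.MP_240c17_al Pool.Agent.Lib.MP_240c17_al.Two Pool.Agent.Lib.MP_240c17_al.Tor

namespace PowRedAux

variable (k : Type u) [Field k] {R : Type u} [Ring R] [Algebra k R]

theorem mul_span {S T : Set R} (M : Submodule k R) (h : ∀ s ∈ S, ∀ t ∈ T, s * t ∈ M) {x y : R}
    (hx : x ∈ Submodule.span k S) (hy : y ∈ Submodule.span k T) : x * y ∈ M := by
  induction hx using Submodule.span_induction with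
  | mem x hx =>
    induction hy using Submodule.span_induction with
    | mem y hy => exact h x hx y hy
    | zero => rw [mul_zero]; exact M.zero_mem
    | add y z _ _ h1 h2 => rw [mul_add]; exact M.add_mem h1 h2
    | smul c y _ h1 => rw [mul_smul_comm]; exact M.smul_mem c h1
  | zero => rw [zero_mul]; exact M.zero_mem
  | add y z _ _ h1 h2 => rw [add_mul]; exact M.add_mem h1 h2
  | smul c y _ h1 => rw [smul_mul_assoc]; exact M.smul_mem c h1

theorem up_mul {n : ℕ} (a : Fin n → R) (v v' : List (Fin n)) {r r' : R}
    (h : r - (v.map a).prod ∈ Up k a v) (h' : r' - (v'.map a).prod ∈ Up k a v') :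
    r * r' - ((v ++ v').map a).prod ∈ Up k a (v ++ v') := by
  have e : r * r' - ((v ++ v').map a).prod =
      (r - (v.map a).prod) * (r' - (v'.map a).prod) + (v.map a).prod * (r' - (v'.map a).prod) +
        (r - (v.map a).prod) * (v'.map a).prod := by
    rw [List.map_append, List.prod_append]
    noncomm_ring
  rw [e]
  refine Submodule.add_mem _ (Submodule.add_mem _ ?_ ?_) ?_
  · refine mul_span k _ ?_ h h'
    rintro s ⟨w, hw1, hw2, rfl⟩ t ⟨w', hw1', hw2', rfl⟩
    refine Submodule.subset_span ⟨w ++ w', ?_, hw2.append_right _ _, ?_⟩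
    · rw [List.length_append, List.length_append, hw1, hw1']
    · rw [List.map_append, List.prod_append]
  · refine mul_span k _ ?_ (Submodule.mem_span_singleton_self _) h'
    rintro s hs t ⟨w', hw1', hw2', rfl⟩
    rw [Set.mem_singleton_iff] at hs
    subst hs
    refine Submodule.subset_span ⟨v ++ w', ?_, hw2'.append_left _, ?_⟩
    · rw [List.length_append, List.length_append, hw1']
    · rw [List.map_append, List.prod_append]
  · refine mul_span k _ ?_ h (Submodule.mem_span_singleton_self _)
    rintro s ⟨w, hw1, hw2, rfl⟩ t ht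
    rw [Set.mem_singleton_iff] at ht
    subst ht
    refine Submodule.subset_span ⟨w ++ v', ?_, hw2.append_right _ _, ?_⟩
    · rw [List.length_append, List.length_append, hw1]
    · rw [List.map_append, List.prod_append]

theorem up_self {n : ℕ} (a : Fin n → R) (v : List (Fin n)) :
    (v.map a).prod - (v.map a).prod ∈ Up k a v := by
  rw [sub_self]
  exact Submodule.zero_mem _

theorem up_pow {n : ℕ} (a : Fin n → R) (t : List (Fin n)) (y : R)
    (h : y - (t.map a).prod ∈ Up k a t) (q : ℕ) :
    y ^ q - ((rp q t).map a).prod ∈ Up k a (rp q t) := by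
  induction q with
  | zero =>
    have e : rp 0 t = [] := by simp [rp]
    rw [e, pow_zero, List.map_nil, List.prod_nil, sub_self]
    exact Submodule.zero_mem _
  | succ q ih =>
    have e : rp (q + 1) t = rp q t ++ t := by
      unfold rp
      rw [List.replicate_add, List.flatten_append]
      simp
    rw [e, pow_succ]
    exact up_mul k a _ _ ih h

end PowRedAux

open PowRedAux in
theorem powRed : PowRedProp.{u} := by
  intro k _ R _ _ n a t y h q A B
  exact up_mul k a _ _ (up_mul k a _ _ (up_self k a A) (up_pow k a t y h q)) (up_self k a B)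

end Pool.Agent.Lib.MP_240c17_al.Rep
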