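import Pool.Agent.Lib.MP_240c17_al.Rep.Spec

/-!
# MP_240c17_al, Rep/PwNil: powers of arbitrary elements
-/

set_option autoImplicit false

namespace Pool.Agent.Lib.MP_240c17_al.Rep

universe u

open Pool.Agent.Lib.MP_240c17_al Pool.Agent.Lib.MP_240c17_al.Two Pool.Agent.Lib.MP_240c17_al.Tor

namespace PwNilAux

variable {k : Type u} [Field k] {F : Type u} [LieRing F] [LieAlgebra k F] {n : ℕ}

/-- the span of the words with at least `i` letters -/
def Zs (x : Fin n → F) (Z : Submodule k F) (i : ℕ) : Submodule k F :=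
  Submodule.span k {e | ∃ z ∈ Z, ∃ w : List (Fin n), i ≤ w.length ∧ e = wd z (w.map x)}

theorem zs_anti (x : Fin n → F) (Z : Submodule k F) {i j : ℕ} (h : i ≤ j) :
    Zs x Z j ≤ Zs x Z i := by
  apply Submodule.span_mono
  rintro e ⟨z, hz, w, hw, rfl⟩
  exact ⟨z, hz, w, h.trans hw, rfl⟩

theorem lie_lie_right (z y y' : F) : ⁅z, ⁅y, y'⁆⁆ = ⁅⁅z, y⁆, y'⁆ - ⁅⁅z, y'⁆, y⁆ := by
  rw [leibniz_lie z y y', ← lie_skew ⁅z, y'⁆ y]
  abel

/-- the elements which raise the number of letters -/
def Sa (x : Fin n → F) (Z : Submodule k F) : LieSubalgebra k F where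
  carrier := {y | ∀ i, ∀ z ∈ Zs x Z i, ⁅z, y⁆ ∈ Zs x Z (i + 1)}
  add_mem' := by
    intro a b ha hb i z hz
    rw [lie_add]
    exact add_mem (ha i z hz) (hb i z hz)
  zero_mem' := by
    intro i z _
    rw [lie_zero]
    exact zero_mem _
  smul_mem' := by
    intro c a ha i z hz
    rw [lie_smul]
    exact Submodule.smul_mem _ _ (ha i z hz)
  lie_mem' := by
    intro y y' hy hy' i z hz
    change ⁅z, ⁅y, y'⁆⁆ ∈ Zs x Z (i + 1)
    rw [lie_lie_right]
    exact zs_anti x Z (Nat.le_succ (i + 1)) (sub_mem (hy' _ _ (hy i z hz)) (hy _ _ (hy' i z hz)))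

theorem x_mem (x : Fin n → F) (Z : Submodule k F) (j : Fin n) : x j ∈ Sa x Z := by
  intro i z hz
  induction hz using Submodule.span_induction with
  | mem e he =>
    obtain ⟨z, hz, w, hw, rfl⟩ := he
    apply Submodule.subset_span
    refine ⟨z, hz, w ++ [j], ?_, ?_⟩
    · rw [List.length_append, List.length_singleton]
      omega
    · rw [List.map_append, List.map_singleton, wd_concat]
  | zero =>
    rw [zero_lie]
    exact zero_mem _
  | add a b _ _ ha hb =>
    rw [add_lie]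
    exact add_mem ha hb
  | smul c a _ ha =>
    rw [smul_lie]
    exact Submodule.smul_mem _ _ ha

end PwNilAux

open PwNilAux in
theorem pwNil : PwNilProp.{u} := by
  intro k _ F _ _ n x Y Z N0 hgen hw y z hz
  have htop : Sa x Z = ⊤ := by
    rw [eq_top_iff, ← hgen]
    apply LieSubalgebra.lieSpan_le.2
    rintro _ ⟨j, rfl⟩
    exact x_mem x Z j
  have hy : y ∈ Sa x Z := by
    rw [htop]
    exact LieSubalgebra.mem_top y
  have h0 : z ∈ Zs x Z 0 := Submodule.subset_span ⟨z, hz, [], le_rfl, rfl⟩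
  have hi : ∀ i, pw k y i z ∈ Zs x Z i := by
    intro i
    induction i with
    | zero => rw [pw_zero]; exact h0
    | succ i ih => rw [pw_succ]; exact hy i _ ih
  have hle : Zs x Z N0 ≤ Y := by
    apply Submodule.span_le.2
    rintro e ⟨z, hz, w, hwl, rfl⟩
    exact hw w hwl z hz
  exact hle (hi N0)

end Pool.Agent.Lib.MP_240c17_al.Rep
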