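import Pool.Agent.Lib.MP_240c17_al.Rep.Spec

/-!
# Powers of long primitive words are divisible (S8)
-/

set_option autoImplicit false

namespace Pool.Agent.Lib.MP_240c17_al.Rep

universe u

open Pool.Agent.Lib.MP_240c17_al Pool.Agent.Lib.MP_240c17_al.Two Pool.Agent.Lib.MP_240c17_al.Tor

namespace RotDvAux

theorem rp_zero {α : Type*} (u : List α) : rp 0 u = [] := rfl

theorem rp_succ {α : Type*} (q : ℕ) (u : List α) : rp (q + 1) u = u ++ rp q u := by
  simp [rp, List.replicate_succ]

theorem rp_succ' {α : Type*} (q : ℕ) (u : List α) : rp (q + 1) u = rp q u ++ u := by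
  induction q with
  | zero => simp [rp]
  | succ q ih => rw [rp_succ, ih, ← List.append_assoc, ← rp_succ, ih]

theorem rp_two {α : Type*} (d : ℕ) (u : List α) : rp (2 * d) u = rp d (u ++ u) := by
  induction d with
  | zero => rfl
  | succ d ih =>
    have e : 2 * (d + 1) = 2 * d + 1 + 1 := by ring
    rw [e, rp_succ, rp_succ, ih, rp_succ d]
    simp [List.append_assoc]

/-- the lexicographic order and `Ls` on words of the same length -/
theorem lt_ls {k : ℕ} : ∀ {u v : List (Fin k)}, u.length = v.length → u < v → Ls u v
  | [], [], _, h => absurd h (lt_irrefl _)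
  | [], b :: v, hl, _ => by simp at hl
  | a :: u, [], hl, _ => by simp at hl
  | a :: u, b :: v, hl, h => by
    rw [List.cons_lt_cons_iff] at h
    rw [ls_cons_cons]
    rcases h with h | ⟨h1, h2⟩
    · exact Or.inl h
    · exact Or.inr ⟨h1, lt_ls (by simpa using hl) h2⟩

theorem ofFn_split {β : Type*} {d : ℕ} (f : Fin d → β) (l : Fin d) :
    List.ofFn f = (List.ofFn f).take l ++ f l :: (List.ofFn f).drop (l + 1) := by
  have h : (l : ℕ) < (List.ofFn f).length := by simp
  conv_lhs => rw [← List.take_append_drop (l : ℕ) (List.ofFn f)]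
  rw [List.drop_eq_getElem_cons h, List.getElem_ofFn]

theorem take_eq {β : Type*} {d : ℕ} (f g : Fin d → β) (l : Fin d) (h : ∀ m, m < l → f m = g m) :
    (List.ofFn f).take l = (List.ofFn g).take l := by
  apply List.ext_getElem
  · simp
  · intro m h1 h2
    have hm : m < (l : ℕ) := by
      have := h1
      rw [List.length_take] at this
      omega
    rw [List.getElem_take, List.getElem_take, List.getElem_ofFn, List.getElem_ofFn]
    exact h _ hm

theorem flat_eq {α : Type*} (ss : List α) (A R B : ℕ → List α) (d : ℕ)
    (h : ∀ l < d, A l ++ R l ++ B l = ss) :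
    A 0 ++ (List.ofFn fun l : Fin d => R l ++ B l ++ A (l + 1)).flatten = rp d ss ++ A d := by
  induction d with
  | zero => simp [rp]
  | succ d ih =>
    rw [List.ofFn_succ', List.concat_eq_append, List.flatten_append, ← List.append_assoc]
    have ih' := ih fun l hl => h l (by omega)
    simp only [Fin.val_castSucc, Fin.val_last, List.flatten_cons, List.flatten_nil,
      List.append_nil]
    rw [ih', rp_succ', ← h d (by omega)]
    simp [List.append_assoc]

theorem rot_inj {k : ℕ} {s : List (Fin k)} (hs : Prim s) {i j : ℕ} (hij : i < j)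
    (hj : j < s.length) : s.rotate i ≠ s.rotate j := by
  intro he
  have h1 : s.rotate (j - i) = s := by
    apply List.rotate_injective i
    change (s.rotate (j - i)).rotate i = s.rotate i
    rw [List.rotate_rotate]
    have : j - i + i = j := by omega
    rw [this]
    exact he.symm
  have hlt : j - i < s.length := by omega
  rw [List.rotate_eq_drop_append_take hlt.le] at h1
  have hx : s.take (j - i) ≠ [] := by
    intro h
    have := congrArg List.length h
    rw [List.length_take, List.length_nil] at this
    omega
  have hy : s.drop (j - i) ≠ [] := by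
    intro h
    have := congrArg List.length h
    rw [List.length_drop, List.length_nil] at this
    omega
  apply hs.2 _ _ hx hy (List.take_append_drop _ _).symm
  rw [List.take_append_drop, h1]

end RotDvAux

open RotDvAux

theorem rotDv : RotDvProp := by
  intro k s d hs hd
  classical
  -- increasing rotations
  have hinj : Set.InjOn (fun i => s.rotate i) (Finset.range s.length : Set ℕ) := by
    intro i hi j hj he
    have hi' := Finset.mem_range.1 (Finset.mem_coe.1 hi)
    have hj' := Finset.mem_range.1 (Finset.mem_coe.1 hj)
    rcases lt_trichotomy i j with h | h | h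
    · exact absurd he (rot_inj hs h hj')
    · exact h
    · exact absurd he.symm (rot_inj hs h hi')
  have hcard : ((Finset.range s.length).image fun i => s.rotate i).card = s.length := by
    rw [Finset.card_image_of_injOn hinj, Finset.card_range]
  set T := (Finset.range s.length).image fun i => s.rotate i with hT
  let g : Fin d → List (Fin k) := fun l => T.orderEmbOfFin hcard (Fin.castLE hd l)
  have hg : ∀ l, ∃ i, i < s.length ∧ s.rotate i = g l := by
    intro l
    have := Finset.orderEmbOfFin_mem T hcard (Fin.castLE hd l)
    obtain ⟨i, hi, he⟩ := Finset.mem_image.1 this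
    exact ⟨i, Finset.mem_range.1 hi, he⟩
  choose i hi hig using hg
  have hlen : ∀ l, (g l).length = s.length := fun l => by rw [← hig, List.length_rotate]
  have hls : ∀ l l', l < l' → Ls (g l) (g l') := by
    intro l l' hll
    refine lt_ls (by rw [hlen, hlen]) ?_
    exact (T.orderEmbOfFin hcard).strictMono (by
      rw [Fin.lt_def]
      exact hll)
  -- the factors
  let A : ℕ → List (Fin k) := fun l => if h : l < d then s.take (i ⟨l, h⟩) else []
  let R : ℕ → List (Fin k) := fun l => if h : l < d then g ⟨l, h⟩ else []
  let B : ℕ → List (Fin k) := fun l => if h : l < d then s.drop (i ⟨l, h⟩) else []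
  have hR : ∀ l : Fin d, R l = g l := fun l => dif_pos l.2
  have hABR : ∀ l < d, A l ++ R l ++ B l = s ++ s := by
    intro l hl
    have e1 : A l = s.take (i ⟨l, hl⟩) := dif_pos hl
    have e2 : R l = g ⟨l, hl⟩ := dif_pos hl
    have e3 : B l = s.drop (i ⟨l, hl⟩) := dif_pos hl
    rw [e1, e2, e3, ← hig, List.rotate_eq_drop_append_take (hi _).le]
    have h4 := List.take_append_drop (i ⟨l, hl⟩) s
    calc s.take (i ⟨l, hl⟩) ++ (s.drop (i ⟨l, hl⟩) ++ s.take (i ⟨l, hl⟩)) ++ s.drop (i ⟨l, hl⟩)
        = (s.take (i ⟨l, hl⟩) ++ s.drop (i ⟨l, hl⟩)) ++ (s.take (i ⟨l, hl⟩)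
            ++ s.drop (i ⟨l, hl⟩)) := by simp only [List.append_assoc]
      _ = s ++ s := by rw [h4]
  have hflat := flat_eq (s ++ s) A R B d hABR
  have hAd : A d = [] := dif_neg (lt_irrefl d)
  rw [hAd, List.append_nil, ← rp_two] at hflat
  have hsne : s ≠ [] := hs.1
  refine ⟨A 0, (List.ofFn fun l : Fin d => R l ++ B l ++ A (l + 1)).flatten, [], ?_, ?_⟩
  · rw [List.append_nil]
    exact hflat.symm
  refine ⟨fun l : Fin d => R l ++ B l ++ A (l + 1), ?_, rfl, ?_⟩
  · intro l h
    have h1 : (R l ++ B l ++ A (l + 1)).length = 0 := by
      have := congrArg List.length h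
      simpa using this
    rw [List.length_append, List.length_append, hR, hlen] at h1
    have := List.length_pos_of_ne_nil hsne
    omega
  · intro σ hσ
    -- the first index which is not fixed
    have hex : ∃ l : Fin d, σ l ≠ l := by
      by_contra hcon
      push Not at hcon
      exact hσ (Equiv.ext hcon)
    obtain ⟨l, hl, hmin⟩ := WellFounded.has_min (wellFounded_lt (α := Fin d)) {l | σ l ≠ l} hex
    have hfix : ∀ m, m < l → σ m = m := by
      intro m hm
      by_contra hne
      exact hmin m hne hm
    have hlt : l < σ l := by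
      rcases lt_trichotomy l (σ l) with h | h | h
      · exact h
      · exact absurd h.symm hl
      · have := hfix (σ l) h
        exact absurd (σ.injective this) hl
    set f : Fin d → List (Fin k) := fun l => R l ++ B l ++ A (l + 1) with hf
    have e1 := ofFn_split f l
    have e2 := ofFn_split (f ∘ σ) l
    have e3 : (List.ofFn (f ∘ σ)).take l = (List.ofFn f).take l := by
      apply take_eq
      intro m hm
      rw [Function.comp_apply, hfix m hm]
    rw [e3] at e2
    rw [e1, e2, List.flatten_append, List.flatten_append, List.flatten_cons, List.flatten_cons]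
    apply Ls.append_left
    apply Ls.append_right
    have h1 : f l = g l ++ (B l ++ A (l + 1)) := by
      rw [hf]
      change R l ++ B l ++ A (l + 1) = _
      rw [hR, List.append_assoc]
    have h2 : (f ∘ σ) l = g (σ l) ++ (B (σ l) ++ A (σ l + 1)) := by
      rw [hf]
      change R (σ l) ++ B (σ l) ++ A (σ l + 1) = _
      rw [hR, List.append_assoc]
    rw [h1, h2]
    exact (hls l (σ l) hlt).append_right _ _

end Pool.Agent.Lib.MP_240c17_al.Rep
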