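import Pool.Agent.Lib.MP_240c17_al.Rep.Spec

/-!
# RotLyn: the Lyndon rotation of a primitive word (helper77, after helper17's docstring)
-/

set_option autoImplicit false

namespace Pool.Agent.Lib.MP_240c17_al.Rep

universe u

open Pool.Agent.Lib.MP_240c17_al Pool.Agent.Lib.MP_240c17_al.Two Pool.Agent.Lib.MP_240c17_al.Tor

namespace RotLynAux

/-- a minimal rotation -/
theorem exists_min {k : ℕ} (s : List (Fin k)) (hs : s ≠ []) :
    ∃ i, i < s.length ∧ ∀ n, ¬ Ls (s.rotate n) (s.rotate i) := by
  have hlen : 0 < s.length := List.length_pos_of_ne_nil hs
  let r : Fin s.length → Fin s.length → Prop := fun i j => Ls (s.rotate i) (s.rotate j)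
  haveI : IsTrans (Fin s.length) r := ⟨fun _ _ _ h h' => Ls.trans h h'⟩
  haveI : Std.Irrefl r := ⟨fun _ h => ls_irrefl _ h⟩
  have hwf : WellFounded r := Finite.wellFounded_of_trans_of_irrefl r
  obtain ⟨i, -, hi⟩ := hwf.has_min Set.univ ⟨⟨0, hlen⟩, Set.mem_univ _⟩
  refine ⟨i, i.2, fun n h => ?_⟩
  have h1 := hi ⟨n % s.length, Nat.mod_lt _ hlen⟩ (Set.mem_univ _)
  apply h1
  show Ls (s.rotate (n % s.length)) (s.rotate i)
  rw [List.rotate_mod]
  exact h

theorem rp_zero {α : Type*} (u : List α) : rp 0 u = [] := rfl

theorem rp_succ {α : Type*} (q : ℕ) (u : List α) : rp (q + 1) u = u ++ rp q u := by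
  unfold rp
  rw [List.replicate_succ, List.flatten_cons]

theorem rp_rot {α : Type*} (A B : List α) (q : ℕ) :
    rp (q + 1) (A ++ B) = A ++ rp q (B ++ A) ++ B := by
  induction q with
  | zero => rw [rp_succ, rp_zero, rp_zero]; simp
  | succ q ih =>
    rw [rp_succ, ih, rp_succ q (B ++ A)]
    simp

end RotLynAux

open RotLynAux in
theorem rotLyn : RotLynProp := by
  intro k s hs
  obtain ⟨i, hi, hmin⟩ := exists_min s hs.1
  have ht : s.rotate i = s.drop i ++ s.take i := List.rotate_eq_drop_append_take hi.le
  have hlen : (s.rotate i).length = s.length := List.length_rotate ..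
  refine ⟨s.rotate i, s.take i, s.drop i, ⟨?_, ?_⟩, hlen, ?_⟩
  · intro h
    rw [h] at hlen
    exact hs.1 (List.length_eq_zero_iff.mp hlen.symm)
  · intro v w hv hw htvw
    have hrot : ∀ x y : List (Fin k), s.rotate i = x ++ y → y ++ x = s.rotate (i + x.length) := by
      intro x y hxy
      rw [← List.rotate_rotate, hxy, List.rotate_append_length_eq]
    have hvl : 0 < v.length := List.length_pos_of_ne_nil hv
    have hwl : 0 < w.length := List.length_pos_of_ne_nil hw
    have hl : s.length = v.length + w.length := by
      rw [← hlen, htvw, List.length_append]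
    -- not periodic
    have hne : s.rotate i ≠ w ++ v := by
      intro h
      have h1 : s.rotate (i + v.length) = s.rotate i := by
        rw [← hrot v w htvw, h]
      have h2 : (s.rotate v.length).rotate i = s.rotate i := by
        rw [List.rotate_rotate, Nat.add_comm, h1]
      have h3 : s.rotate v.length = s := List.rotate_injective i h2
      have h4 : s.rotate v.length = s.drop v.length ++ s.take v.length :=
        List.rotate_eq_drop_append_take (by omega)
      refine hs.2 (s.take v.length) (s.drop v.length) ?_ ?_ (List.take_append_drop _ _).symm ?_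
      · intro h5
        have := congrArg List.length h5
        rw [List.length_take, List.length_nil] at this
        omega
      · intro h5
        have := congrArg List.length h5
        rw [List.length_drop, List.length_nil] at this
        omega
      · rw [List.take_append_drop, ← h4, h3]
    have h1 : Ls (s.rotate i) (w ++ v) := by
      have hle : (s.rotate i).length = (w ++ v).length := by
        rw [hlen, hl, List.length_append, Nat.add_comm]
      rcases ls_total hle with h | h | h
      · exact h
      · exact absurd h hne
      · rw [hrot v w htvw] at h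
        exact absurd h (hmin _)
    -- the prefix of the length of `w`
    have hxy : s.rotate i = (s.rotate i).take w.length ++ (s.rotate i).drop w.length :=
      (List.take_append_drop _ _).symm
    have hxl : ((s.rotate i).take w.length).length = w.length := by
      rw [List.length_take, hlen]
      omega
    generalize (s.rotate i).take w.length = x at hxy hxl
    generalize (s.rotate i).drop w.length = y at hxy
    rw [hxy] at h1
    rcases ls_of_append hxl h1 with h2 | ⟨h2, h3⟩
    · have h4 := h2.append_right y []
      rw [List.append_nil, ← hxy] at h4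
      exact h4
    · exfalso
      have h4 := h3.append_right w w
      rw [← htvw] at h4
      subst h2
      rw [hrot x y hxy] at h4
      exact hmin _ h4
  · intro q
    rw [ht, ← rp_rot, List.take_append_drop]

end Pool.Agent.Lib.MP_240c17_al.Rep
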