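import Pool.Agent.Lib.MP_240c17_al.Rep.Spec

/-!
# Shirshov's theorem on words (S6)
-/

set_option autoImplicit false

namespace Pool.Agent.Lib.MP_240c17_al.Rep

universe u

open Pool.Agent.Lib.MP_240c17_al Pool.Agent.Lib.MP_240c17_al.Two Pool.Agent.Lib.MP_240c17_al.Tor

namespace ShirAux

theorem rp_succ {α : Type*} (q : ℕ) (u : List α) : rp (q + 1) u = u ++ rp q u := by
  simp [rp, List.replicate_succ]

theorem rp_map {α β : Type*} (f : α → β) (q : ℕ) (u : List α) :
    (rp q u).map f = rp q (u.map f) := by
  induction q with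
  | zero => rfl
  | succ q ih => rw [rp_succ, rp_succ, List.map_append, ih]

theorem rp_flat {α β : Type*} (e : α → List β) (q : ℕ) (u : List α) :
    ((rp q u).map e).flatten = rp q (u.map e).flatten := by
  induction q with
  | zero => rfl
  | succ q ih => rw [rp_succ, rp_succ, List.map_append, List.flatten_append, ih]

theorem rp_single {α : Type*} (q : ℕ) (x : α) : rp q [x] = List.replicate q x := by
  induction q with
  | zero => rfl
  | succ q ih => rw [rp_succ, ih, List.replicate_succ]; rfl

theorem hasDv_append {α : Type*} [LinearOrder α] {d : ℕ} {u : List α} (h : HasDv d u)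
    (a b : List α) : HasDv d (a ++ u ++ b) := by
  obtain ⟨a', v, b', rfl, hv⟩ := h
  exact ⟨a ++ a', v, b' ++ b, by simp [List.append_assoc], hv⟩

theorem succ_map {k : ℕ} : ∀ u : List (Fin (k + 1)), (0 : Fin (k + 1)) ∉ u →
    ∃ v : List (Fin k), u = v.map Fin.succ
  | [], _ => ⟨[], rfl⟩
  | a :: u, h => by
    obtain ⟨v, hv⟩ := succ_map u fun h' => h (List.mem_cons_of_mem _ h')
    have ha : a ≠ 0 := fun e => h (e ▸ List.mem_cons_self)
    obtain ⟨b, hb⟩ := Fin.exists_succ_eq.2 ha
    exact ⟨b :: v, by rw [List.map_cons, hb, ← hv]⟩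

theorem lift_list {α β : Type*} (e : α → β) : ∀ l : List β, (∀ z ∈ l, ∃ c, e c = z) →
    ∃ cs : List α, l = cs.map e
  | [], _ => ⟨[], rfl⟩
  | z :: l, h => by
    obtain ⟨cs, hcs⟩ := lift_list e l fun z' hz' => h z' (List.mem_cons_of_mem _ hz')
    obtain ⟨c, hc⟩ := h z List.mem_cons_self
    exact ⟨c :: cs, by rw [List.map_cons, hc, ← hcs]⟩

theorem flat_len {α : Type*} (M : ℕ) : ∀ l : List (List α), (∀ z ∈ l, z.length ≤ M) →
    l.flatten.length ≤ l.length * M
  | [], _ => by simp
  | z :: l, h => by
    have h1 := flat_len M l fun z' hz' => h z' (List.mem_cons_of_mem _ hz')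
    have h2 := h z List.mem_cons_self
    rw [List.flatten_cons, List.length_append, List.length_cons, Nat.succ_mul]
    omega

/-- a nonempty product of blocks starts with `0` -/
theorem head_zero {k k' : ℕ} {e : Fin k' → List (Fin (k + 1))} (he : BEnum e)
    {l : List (Fin k')} (hl : l ≠ []) : ∃ r, (l.map e).flatten = 0 :: r := by
  obtain ⟨c, l, rfl⟩ := List.exists_cons_of_ne_nil hl
  obtain ⟨i, v, hi, -, -, hz⟩ := he.1 c
  obtain ⟨i, rfl⟩ : ∃ j, i = j + 1 := ⟨i - 1, by omega⟩
  rw [List.map_cons, List.flatten_cons, hz, List.replicate_succ]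
  exact ⟨_, rfl⟩

end ShirAux

open ShirAux

theorem shir (h1 : MapDvProp) (h2 : LemTwoProp) (h3 : BlocksProp) (h4 : EnumProp) : ShirProp := by
  intro d q
  induction d with
  | zero =>
    intro k
    refine ⟨0, fun w _ => Or.inl ⟨[], [], w, by simp, Fin.elim0, fun i => i.elim0, by simp, ?_⟩⟩
    intro σ hσ
    exact absurd (Subsingleton.elim σ 1) hσ
  | succ d ih =>
    intro k
    induction k with
    | zero =>
      refine ⟨1, fun w hw => ?_⟩
      obtain ⟨a, l, rfl⟩ := List.exists_cons_of_ne_nil (l := w) (by
        rintro rfl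
        simp at hw)
      exact a.elim0
    | succ k ihk =>
      obtain ⟨N1, hN1⟩ := ihk
      have hfin : {z : List (Fin (k + 1)) | ∃ (i : ℕ) (v : List (Fin (k + 1))), 1 ≤ i ∧ i < q ∧
          v ≠ [] ∧ (0 : Fin (k + 1)) ∉ v ∧ v.length < N1 ∧ z = List.replicate i 0 ++ v}.Finite := by
        apply (List.finite_length_lt (Fin (k + 1)) (q + N1)).subset
        rintro z ⟨i, v, -, hiq, -, -, hv, rfl⟩
        change (List.replicate i 0 ++ v).length < q + N1
        rw [List.length_append, List.length_replicate]
        omega
      obtain ⟨k', e, he, hcov⟩ := h4 k hfin.toFinset (by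
        intro z hz
        rw [Set.Finite.mem_toFinset] at hz
        obtain ⟨i, v, hi, -, hv, h0, -, hz⟩ := hz
        exact ⟨i, v, hi, hv, h0, hz⟩)
      obtain ⟨N', hN'⟩ := ih k'
      refine ⟨N1 + (N' + 1) * (q + N1) + q + 1, fun w hw => ?_⟩
      by_cases hA : ∃ a b : List (Fin (k + 1)), w = a ++ List.replicate q 0 ++ b
      · obtain ⟨a, b, hab⟩ := hA
        exact Or.inr ⟨a, [0], b, by simp, by rw [rp_single]; exact hab⟩
      by_cases hB : ∃ a u b : List (Fin (k + 1)), w = a ++ u ++ b ∧ (0 : Fin (k + 1)) ∉ u ∧
          N1 ≤ u.length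
      · obtain ⟨a, u, b, hab, h0, hlen⟩ := hB
        obtain ⟨v, rfl⟩ := succ_map u h0
        rw [List.length_map] at hlen
        rcases hN1 v hlen with h | ⟨a', u', b', hne, hv⟩
        · left
          rw [hab]
          exact hasDv_append (h1 k (k + 1) Fin.succ Fin.strictMono_succ (d + 1) v h) a b
        · right
          refine ⟨a ++ a'.map Fin.succ, u'.map Fin.succ, b'.map Fin.succ ++ b, by simpa using hne, ?_⟩
          rw [hab, hv, List.map_append, List.map_append, rp_map]
          simp [List.append_assoc]
      push Not at hA hB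
      obtain ⟨v0, zs, j, hw', hv0, hj, hzs⟩ := h3 k q N1 w hA (by
        intro a u b hab h0
        exact hB a u b hab h0)
      obtain ⟨cs, hcs⟩ := lift_list e zs (by
        intro z hz
        apply hcov
        rw [Set.Finite.mem_toFinset]
        exact hzs z hz)
      have hflat : zs.flatten.length ≤ zs.length * (q + N1) := by
        apply flat_len
        intro z hz
        obtain ⟨i, v, -, hiq, -, -, hv, rfl⟩ := hzs z hz
        rw [List.length_append, List.length_replicate]
        omega
      have hlen : w.length = v0.length + zs.flatten.length + j := by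
        rw [hw', List.length_append, List.length_append, List.length_replicate]
      have hzl : N' + 1 < zs.length := by
        by_contra hcon
        push Not at hcon
        have := Nat.mul_le_mul_right (q + N1) hcon
        omega
      have hcl : cs.length = zs.length := by rw [hcs, List.length_map]
      have hcne : cs ≠ [] := by
        rintro rfl
        simp at hcl
        omega
      obtain ⟨cs', c, rfl⟩ : ∃ cs' c, cs = cs' ++ [c] :=
        ⟨cs.dropLast, cs.getLast hcne, (List.dropLast_append_getLast hcne).symm⟩
      have hcl' : N' ≤ cs'.length := by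
        rw [List.length_append, List.length_singleton] at hcl
        omega
      rcases hN' cs' hcl' with h | ⟨a', u', b', hne, hv⟩
      · left
        obtain ⟨A, U, B, hcs', hU⟩ := h
        obtain ⟨r, hr⟩ := head_zero he (l := B ++ [c]) (by simp)
        have hD := h2 k k' e he d U hU
        refine ⟨v0 ++ (A.map e).flatten, (U.map e).flatten ++ [0], r ++ List.replicate j 0, ?_, hD⟩
        have hz : zs.flatten = (A.map e).flatten ++ (U.map e).flatten ++ (0 :: r) := by
          rw [hcs, hcs', ← hr]
          simp [List.append_assoc]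
        rw [hw', hz]
        simp [List.append_assoc]
      · right
        refine ⟨v0 ++ (a'.map e).flatten, (u'.map e).flatten,
          ((b' ++ [c]).map e).flatten ++ List.replicate j 0, ?_, ?_⟩
        · obtain ⟨r, hr⟩ := head_zero he hne
          rw [hr]
          simp
        · have hz : zs.flatten = (a'.map e).flatten ++ rp q (u'.map e).flatten
              ++ ((b' ++ [c]).map e).flatten := by
            rw [hcs, hv, ← rp_flat]
            simp [List.append_assoc]
          rw [hw', hz]
          simp [List.append_assoc]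

end Pool.Agent.Lib.MP_240c17_al.Rep
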