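import Pool.Agent.Lib.MP_240c17_al.Rep.Spec

/-!
# (S10) Shirshov's theorem with Lyndon words
-/

set_option autoImplicit false

namespace Pool.Agent.Lib.MP_240c17_al.Rep

universe u

open Pool.Agent.Lib.MP_240c17_al Pool.Agent.Lib.MP_240c17_al.Two Pool.Agent.Lib.MP_240c17_al.Tor

namespace ShirLynAux

theorem rp_add {α : Type*} (m n : ℕ) (u : List α) : rp (m + n) u = rp m u ++ rp n u := by
  unfold rp
  rw [List.replicate_add, List.flatten_append]

theorem rp_zero {α : Type*} (u : List α) : rp 0 u = [] := by simp [rp]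

theorem rp_one {α : Type*} (u : List α) : rp 1 u = u := by simp [rp]

theorem rp_mul {α : Type*} (m n : ℕ) (u : List α) : rp m (rp n u) = rp (m * n) u := by
  induction m with
  | zero => rw [Nat.zero_mul, rp_zero, rp_zero]
  | succ m ih => rw [rp_add, rp_one, ih, Nat.add_mul, Nat.one_mul, rp_add]

theorem rp_length {α : Type*} (m : ℕ) (u : List α) : (rp m u).length = m * u.length := by
  induction m with
  | zero => rw [rp_zero]; simp
  | succ m ih => rw [rp_add, rp_one, List.length_append, ih, Nat.add_mul, Nat.one_mul]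

theorem rp_le {α : Type*} {m n : ℕ} (h : m ≤ n) (u : List α) : ∃ v, rp n u = rp m u ++ v := by
  obtain ⟨r, rfl⟩ := Nat.exists_eq_add_of_le h
  exact ⟨rp r u, rp_add m r u⟩

end ShirLynAux

open ShirLynAux in
theorem shirLyn (h1 : ShirProp) (h2 : CommProp) (h3 : RotDvProp) (h4 : RotLynProp) :
    ShirLynProp := by
  intro d q k
  obtain ⟨N, hN⟩ := h1 d (max (2 * d) (q + 1)) k
  refine ⟨N, fun w hw => ?_⟩
  rcases hN w hw with h | ⟨a0, u0, b0, hu0, hw0⟩
  · exact Or.inl h
  have hq2 : 2 * d ≤ max (2 * d) (q + 1) := le_max_left _ _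
  have hq1 : q + 1 ≤ max (2 * d) (q + 1) := le_max_right _ _
  generalize max (2 * d) (q + 1) = q' at *
  have hex : ∃ n, ∃ s : List (Fin k), s.length = n ∧ s ≠ [] ∧
      ∃ a b, w = a ++ rp q' s ++ b := ⟨_, u0, rfl, hu0, a0, b0, hw0⟩
  classical
  obtain ⟨s, hsn, hs, a, b, hws⟩ := Nat.find_spec hex
  have hmin : ∀ t : List (Fin k), t ≠ [] → (∃ a b, w = a ++ rp q' t ++ b) →
      s.length ≤ t.length := by
    intro t ht ht'
    rw [hsn]
    exact Nat.find_min' hex ⟨t, rfl, ht, ht'⟩
  have hprim : Prim s := by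
    refine ⟨hs, fun x y hx hy hsxy hc => ?_⟩
    obtain ⟨t, i, j, hxi, hyj⟩ := h2 k x y hc
    have hi : i ≠ 0 := by
      rintro rfl
      exact hx (by rw [hxi, rp_zero])
    have hj : j ≠ 0 := by
      rintro rfl
      exact hy (by rw [hyj, rp_zero])
    have ht : t ≠ [] := by
      rintro rfl
      apply hx
      rw [hxi]
      exact List.eq_nil_of_length_eq_zero (by rw [rp_length]; simp)
    have ht0 : 0 < t.length := List.length_pos_iff.mpr ht
    have hst : s = rp (i + j) t := by rw [hsxy, rp_add, ← hxi, ← hyj]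
    have hlen : s.length = (i + j) * t.length := by rw [hst, rp_length]
    have h5 : q' ≤ q' * (i + j) := Nat.le_mul_of_pos_right _ (by omega)
    obtain ⟨v, hv⟩ := rp_le h5 t
    have h6 := hmin t ht ⟨a, v ++ b, by
      rw [hws, hst, rp_mul, hv]
      simp only [List.append_assoc]⟩
    have h7 : 2 * t.length ≤ (i + j) * t.length := Nat.mul_le_mul_right _ (by omega)
    omega
  rcases le_or_gt d s.length with hd | hd
  · left
    obtain ⟨a1, u1, b1, he, hdv⟩ := h3 k s d hprim hd
    obtain ⟨v, hv⟩ := rp_le hq2 s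
    refine ⟨a ++ a1, u1, b1 ++ v ++ b, ?_, hdv⟩
    rw [hws, hv, he]
    simp only [List.append_assoc]
  · right
    obtain ⟨t, a1, b1, hly, hlen, he⟩ := h4 k s hprim
    obtain ⟨v, hv⟩ := rp_le hq1 s
    refine ⟨a ++ a1, t, b1 ++ v ++ b, hly, by omega, ?_⟩
    rw [hws, hv, he q]
    simp only [List.append_assoc]

end Pool.Agent.Lib.MP_240c17_al.Rep
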