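import Pool.Agent.Lib.MP_240c17_al.Rep.Base

/-!
# Varieties which are residually of bounded dimension over extension fields: statements

Theorem: let `k` be an infinite field of characteristic `p > 0` and `V` a variety of Lie algebras over `k` satisfying (I)
with coefficients algebraic over the prime field. If the relatively free algebras of finite rank are residually of bounded
dimension over extension fields (e.g. `V` is generated by a finite dimensional algebra), then all relatively finitely presented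
algebras of `V` are residually finite dimensional.

Every lemma is a `Prop`; the proof is in the docstring. The files proving them are independent: statements
used are hypotheses. Notation: `Rep/Base.lean` (please read it first: `Ls`, `Dv`, `HasDv`, `rp`, `Lyn`, `Blk`, `BEnum`,
`Prim`, `LE`, `AltR`, `AltL`, `Up`, `AHom`, `Brk`, `cmb`, `PolyS`, `SOp`, `Spn`), `Tor/Base.lean` (`wd`, `pw`, `Mid`, `PF`, `Der`,
`BalW`, `IdI`, `lie_lie_swap`, `lie_lie_right`, `words_span`, `pw_lie`, `br_span`), `Two/Basic.lean` (`adr`, `gen`, `Stab`, `FC`,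
`CommMod`). `adr k y a = ⁅a, y⁆`, `pw k y e a = ⁅…⁅a, y⁆ …, y⁆` (`e` times), `wd a [z₁, …, z_r] = ⁅…⁅a, z₁⁆ …, z_r⁆`,
`gen φ S`: the smallest subspace containing `S` and stable under the operators `φ i`; `FC Y Z`: `Y` has finite codimension in `Z`.
-/

set_option autoImplicit false

namespace Pool.Agent.Lib.MP_240c17_al.Rep

universe u

open Pool.Agent.Lib.MP_240c17_al Pool.Agent.Lib.MP_240c17_al.Two Pool.Agent.Lib.MP_240c17_al.Tor
open Pool.Agent.Lib.MP_240c17_al.Semi (idOf ExtProp IdentProp)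

/-! ## S. Shirshov's theorem on words -/

/-- (S1) PROOF. `e` preserves `Ls` (same decomposition), and `(List.ofFn f).flatten.map e = (List.ofFn fun i => (f i).map e).flatten`. -/
def MapDvProp : Prop :=
  ∀ (k k' : ℕ) (e : Fin k → Fin k'), StrictMono e → ∀ (d : ℕ) (w : List (Fin k)), HasDv d w →
    HasDv d (w.map e)

/-- (S2) PROOF. `W = P ++ c :: S`, `W' = P ++ c' :: S'`, `c < c'`. The images start with the common word
`(P.map e).flatten`, followed by `e c ++ (S.map e).flatten`, resp. `e c' ++ (S'.map e).flatten`. If `Ls (e c) (e c')`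
use `Ls.append_right`, `Ls.append_left`. Otherwise `e c' = e c ++ g`, `g ≠ []`. The first letter of `g` is not `0`: `e c` and
`e c'` are blocks `0 … 0 v`, `0 … 0 v'`, `v ≠ []` has no `0`, so everything after the first nonzero letter of `e c'` is nonzero.
If `S ≠ []` then `(S.map e).flatten` starts with `0` (blocks start with `0`), smaller than the first letter of `g`. If `S = []` the
first word is shorter than the second one, a contradiction to the equality of the lengths. -/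
def LsFlatProp : Prop :=
  ∀ (k k' : ℕ) (e : Fin k' → List (Fin (k + 1))), BEnum e → ∀ W W' : List (Fin k'), Ls W W' →
    (W.map e).flatten.length = (W'.map e).flatten.length →
    Ls (W.map e).flatten (W'.map e).flatten

/-- (S3) PROOF (uses `LsFlatProp`). Let `f : Fin d → List (Fin k')` be the factors of `W`, `a i = ((f i).map e).flatten`, which
starts with `0` (`f i ≠ []`, blocks): `a i = 0 :: a' i`. Let `g 0 = [0]`, `g (i.succ) = a' i ++ [0]` (`Fin.cons`), so
`(ofFn g).flatten = (W.map e).flatten ++ [0]` (`0 a'_1 0 a'_2 0 … a'_d 0`); all `g i ≠ []`. Let `σ ≠ 1` be a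
permutation of `Fin (d+1)`. Case `σ 0 = 0`: `σ i.succ = (τ i).succ` with a permutation `τ ≠ 1` of `Fin d`
(`Equiv.Perm.decomposeFin`), and `(ofFn (g ∘ σ)).flatten = ((ofFn (f ∘ τ)).flatten.map e).flatten ++ [0]`; use
`LsFlatProp` for `W` and `(ofFn (f ∘ τ)).flatten` (the lengths are equal: the same factors in another order).
Case `σ 0 = j.succ`: let `i_l ≥ 1` be the number of letters `0` at the beginning of `a l` (followed in `a l` by a letter `> 0`,
since its first block is `0^(i_l) v`, `v ≠ []`). Let `l₀ = 0 : Fin d`. CLAIM `i_j ≤ i_(l₀)`. If `j ≠ l₀` let `τ` be a permutation of `Fin d` with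
`τ 0 = j` (e.g. `Equiv.swap`); `τ ≠ 1`, so by `LsFlatProp` `Ls (W.map e).flatten X`, where `X` starts with `a j`;
if `i_(l₀) < i_j` then at the place `i_(l₀)` (counted from 0) the first word has a letter `> 0` and `X` has `0`, and before they agree (all
letters `0`), so `Ls X (W.map e).flatten`, a contradiction (`Ls.asymm`). Now `(ofFn (g ∘ σ)).flatten` starts with `a' j`, i.e. with
`0^(i_j - 1)` followed by a letter `> 0`, and the word `(W.map e).flatten ++ [0]` starts with `0^(i_(l₀))`, `i_j - 1 < i_(l₀)`. -/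
def LemTwoProp : Prop :=
  ∀ (k k' : ℕ) (e : Fin k' → List (Fin (k + 1))), BEnum e → ∀ (d : ℕ) (W : List (Fin k')), Dv d W →
    Dv (d + 1) ((W.map e).flatten ++ [0])

/-- (S4) PROOF. Strong induction on the length. `v0` = the longest prefix without `0` (`takeWhile`). The rest is `[]` or starts with `0`:
let `0^i` be its longest prefix of zeros; if it is everything, `zs = []`, `j = i`. Otherwise the rest after it starts with a nonzero letter; let
`v ≠ []` be its longest prefix without `0`; the block is `0^i v`; continue with the remaining word, which starts with `0` or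
is empty (apply the statement to it; its `v0` is empty, or formulate the induction for words that are empty or start with `0`). All
powers `0^i` are factors, so `i < q`; all `v` are factors without `0`, so `v.length < N1`. -/
def BlocksProp : Prop :=
  ∀ (k q N1 : ℕ) (w : List (Fin (k + 1))),
    (∀ a b : List (Fin (k + 1)), w ≠ a ++ List.replicate q 0 ++ b) →
    (∀ a u b : List (Fin (k + 1)), w = a ++ u ++ b → (0 : Fin (k + 1)) ∉ u → u.length < N1) →
    ∃ (v0 : List (Fin (k + 1))) (zs : List (List (Fin (k + 1)))) (j : ℕ),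
      w = v0 ++ zs.flatten ++ List.replicate j 0 ∧ v0.length < N1 ∧ j < q ∧
      ∀ z ∈ zs, ∃ (i : ℕ) (v : List (Fin (k + 1))), 1 ≤ i ∧ i < q ∧ v ≠ [] ∧
        (0 : Fin (k + 1)) ∉ v ∧ v.length < N1 ∧ z = List.replicate i 0 ++ v

/-- (S5) PROOF. Order `Z` by the lexicographic linear order of Mathlib on lists (`List.instLinearOrder` or similar; `List.Lex`),
`e = Z.orderEmbOfFin rfl`. If `u < v` lexicographically then `Ls u v` or `u` is a proper prefix of `v` (induction on `u`). -/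
def EnumProp : Prop :=
  ∀ (k : ℕ) (Z : Finset (List (Fin (k + 1)))), (∀ z ∈ Z, Blk z) →
    ∃ (k' : ℕ) (e : Fin k' → List (Fin (k + 1))), BEnum e ∧ ∀ z ∈ Z, ∃ c, e c = z

/-- (S6) Shirshov's theorem. PROOF (uses `MapDvProp`, `LemTwoProp`, `BlocksProp`, `EnumProp`). Induction on `d` (for all
`q`, `k`). `d = 0`: `N = 0`, `u = []`, `Dv 0 []`. Step `d → d + 1`, induction on `k`. `k = 0`: `N = 1` (there is no letter).
Step `k → k + 1`: let `N1` be the number for `d + 1`, `q`, `k`. `Z` = the finite set of the words `0^i v` with `1 ≤ i < q`, `v ≠ []`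
without `0`, `v.length < N1`; `e : Fin k' → …` from `EnumProp`; `N'` the number for `d`, `q`, `k'`.
`N = N1 + (N' + 1) * (q + N1) + q + 1`. Let `N ≤ w.length`. If `0^q` is a factor of `w`: `u = [0]`. If `w` has a factor without
`0` of length `≥ N1`: it is `v.map Fin.succ`, apply the inner induction to `v` and `MapDvProp` with `Fin.succ`, or
map the power. Otherwise `BlocksProp`: `w = v0 ++ zs.flatten ++ 0^j`, every block has length `< q + N1`, so `zs` has more than
`N'` elements; `zs = cs.map e`, `cs = cs' ++ [c]`, `N' ≤ cs'.length`. By induction `cs'` has a power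
`rp q u` as a factor, then `w` has the factor `rp q (u.map e).flatten`; or `cs' = A ++ U ++ B`, `Dv d U`; in `w` the word
`(U.map e).flatten` is followed by a block or by the last block `e c`, so by the letter `0`; `LemTwoProp`. -/
def ShirProp : Prop :=
  ∀ d q k : ℕ, ∃ N : ℕ, ∀ w : List (Fin k), N ≤ w.length →
    HasDv d w ∨ ∃ a u b : List (Fin k), u ≠ [] ∧ w = a ++ rp q u ++ b

/-- (S7) PROOF. Strong induction on the sum of the lengths. If `x = []` take `t = y`, `i = 0`, `j = 1`; similarly `y = []`. Otherwise let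
(by symmetry) `x.length ≤ y.length`: `y = x ++ y'` (`List.append_eq_append_iff`), and `x ++ (x ++ y') = (x ++ y') ++ x` gives
`x ++ y' = y' ++ x`; by induction `x = rp i t`, `y' = rp j t`, `y = rp (i + j) t`. -/
def CommProp : Prop :=
  ∀ (k : ℕ) (x y : List (Fin k)), x ++ y = y ++ x → ∃ (t : List (Fin k)) (i j : ℕ),
    x = rp i t ∧ y = rp j t

/-- (S8) PROOF. The rotations `ρ i = s.drop i ++ s.take i`, `i < s.length`, are pairwise different: if `ρ i = ρ j`, `i < j`, then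
(`ρ j = (ρ i)` rotated by `j - i`) `ρ i = x ++ y = y ++ x` with `x, y ≠ []`; rotating back gives such a factorization of
`s` (`s.rotate (j - i) = s`: `List.rotate_injective`, `List.rotate_rotate`), a contradiction. They all have the same length, so
`Ls` is a linear order on them; choose `i_1, …, i_d` with `Ls (ρ i_1) (ρ i_2)`, …, in increasing order (sort the set of the
`s.length ≥ d` rotations, e.g. `Finset.orderEmbOfFin` for the lexicographic order, or an induction).
`s ++ s = a_l ++ ρ i_l ++ b_l` with `a_l = s.take i_l`, `b_l = s.drop i_l`. The word `rp (2 d) s = rp d (s ++ s)` has the factor with the `d` factors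
`f l = ρ i_l ++ b_l ++ a_(l+1)` (`f d = ρ i_d ++ b_d` for the last one), all nonempty. It is `d`-divisible: for `σ ≠ 1` let `l` be the first
index with `σ l ≠ l`; then `l < σ l`, the products agree before the factor `l`, and `Ls (ρ i_l) (ρ i_(σ l))`. -/
def RotDvProp : Prop :=
  ∀ (k : ℕ) (s : List (Fin k)) (d : ℕ), Prim s → d ≤ s.length → HasDv d (rp (2 * d) s)

/-- (S9) PROOF. Let `i < s.length` be such that `t = ρ i = s.drop i ++ s.take i` is minimal with respect to `Ls` among the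
rotations (`ls_total`, same length): no rotation `t'` of `t` satisfies `Ls t' t`. `t` is `Prim` (a factorization of `t` into
commuting nonempty words gives one of `s`, see (S8)). CLAIM `Lyn t`: let `t = v ++ w`, `v, w ≠ []`. `w ++ v` is a rotation, different from `t`
(`Prim`), so `Ls (v ++ w) (w ++ v)`. Compare the prefixes of length `w.length`: `v ++ w = x ++ y`, `x.length = w.length`. By
`ls_of_append` `Ls x w`, and then `Ls (v ++ w) w` (`Ls.append_right` with `c = y`, `d = []`); or `x = w` and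
`Ls y v`, where `y.length = v.length`. In the second case `t = w ++ y`; the rotation `y ++ w` of `t` is not smaller than `t = v ++ w`, but
`Ls y v` gives `Ls (y ++ w) (v ++ w)`, a contradiction. Finally `rp (q+1) s = s.take i ++ rp q t ++ s.drop i` (induction on `q`). -/
def RotLynProp : Prop :=
  ∀ (k : ℕ) (s : List (Fin k)), Prim s → ∃ t a b : List (Fin k), Lyn t ∧ t.length = s.length ∧
    ∀ q, rp (q + 1) s = a ++ rp q t ++ b

/-- (S10) PROOF (uses `ShirProp`, `CommProp`, `RotDvProp`, `RotLynProp`). Let `q' = max (2 * d) (q + 1)` and `N` the number of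
`ShirProp` for `d, q', k`. In the second case choose a word `s ≠ []` of minimal length such that `w` has the factor `rp q' s`.
`Prim s`: if `s = x ++ y`, `x ++ y = y ++ x`, `x, y ≠ []`, then `CommProp` gives `x = rp i t`, `y = rp j t`, `i, j ≥ 1`, `t ≠ []`, `t`
shorter than `s`, and `rp q' s = rp (q' (i + j)) t` has the factor `rp q' t`, a contradiction. If `d ≤ s.length` then `RotDvProp` (the factor
`rp (2 d) s` of `rp q' s`). Otherwise `RotLynProp` (the factor `rp (q+1) s` of `rp q' s`). -/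
def ShirLynProp : Prop :=
  ∀ d q k : ℕ, ∃ N : ℕ, ∀ w : List (Fin k), N ≤ w.length →
    HasDv d w ∨ ∃ a t b : List (Fin k), Lyn t ∧ t.length < d ∧ w = a ++ rp q t ++ b

/-! ## L. Lyndon words and Lie polynomials -/

/-- (L1) PROOF. Among the proper nonempty suffixes of `u` let `w` be the smallest one with respect to the lexicographic linear
order on lists (a proper prefix is smaller; Mathlib's order on `List (Fin n)`, or: choose `w` such that for every proper
nonempty suffix `w' ≠ w`: `Ls w w'` or `w` is a prefix of `w'`). `u = v ++ w`. (i) `Lyn w`: let `w = x ++ w'`, `x, w' ≠ []`. `w'` is a proper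
suffix of `u`, shorter than `w`, so `w` is not a prefix of `w'` and `Ls w w'`. (ii) `Lyn v`: let `v = x ++ v'`, `x, v' ≠ []`. `v' ++ w` is a
proper suffix of `u`, so `Ls u (v' ++ w)` (`Lyn u`). Suppose that `Ls v v'` fails. As `v'` is shorter than `v`, either `Ls v' v`
or `v'` is a prefix of `v`. If `Ls v' v` then `Ls (v' ++ w) (v ++ w) = Ls (v' ++ w) u`, a contradiction. If `v = v' ++ v''` then
`v'' ≠ []`, `u = v' ++ (v'' ++ w)` and `Ls (v' ++ (v'' ++ w)) (v' ++ w)` gives `Ls (v'' ++ w) w` (`ls_append_iff`); but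
`v'' ++ w` is a proper suffix of `u`, longer than `w`, so by minimality `Ls w (v'' ++ w)` or `w` is a prefix of `v'' ++ w`:
both contradict `Ls (v'' ++ w) w`. -/
def LynFactProp : Prop :=
  ∀ (n : ℕ) (u : List (Fin n)), Lyn u → 2 ≤ u.length →
    ∃ v w : List (Fin n), Lyn v ∧ Lyn w ∧ u = v ++ w

/-- (L2) PROOF (uses `LynFactProp`). It is enough to find for every Lyndon word `t` an element `g t` with the property (choice; for
single letters take `of i`: `Up` contains `0`). Strong induction on the length: `t = v ++ w` as in `LynFactProp`,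
`g t = ⁅g v, g w⁆`. `φ (lift x ⁅g v, g w⁆) = A B - B A`, `A = φ (lift x (g v)) = V + A'`, `V = (v.map …).prod`,
`A' ∈ Up v`; `B = W + B'`. `A B - V W ∈ Up (v ++ w)`: it is `V B' + A' W + A' B'`, combinations of words `v' ++ w'` with `v'.length = v.length`,
`w'.length = w.length`, `Ls v v'` or (`v' = v` and `Ls w w'`). `B A ∈ Up (v ++ w)`: it is a combination of words `w' ++ v'`, `w' = w` or
`Ls w w'`, `v' = v` or `Ls v v'`. `Ls (v ++ w) w` (`Lyn t`), so `Ls (v ++ w) (w ++ v')`, and if `Ls w w'` then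
`Ls (v ++ w) w'` by transitivity, so `Ls (v ++ w) (w' ++ v')`. -/
def BrkProp : Prop := ∀ (k : Type u) [Field k] (n : ℕ), ∃ g, Brk k n g

/-- (L3) PROOF. `w = a' ++ u ++ b'`, `u = (ofFn f).flatten`, `Dv d u`. The identity: `(u.map a).prod = - ∑_{σ ≠ 1} sign σ • (u_σ.map a).prod`,
`u_σ = (ofFn (f ∘ σ)).flatten`. Multiply by the words `a'`, `b'`: the words `a' ++ u_σ ++ b'` have the same length as `w` (the same factors in
another order, `List.Perm`) and are larger (`Ls.append_left`, `Ls.append_right`). -/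
def DvRedProp : Prop :=
  ∀ (k : Type u) [Field k] (R : Type u) [Ring R] [Algebra k R] (n d : ℕ) (a : Fin n → R),
    AltR n d a → ∀ w : List (Fin n), HasDv d w → (w.map a).prod ∈ Up k a w

/-- (L4) PROOF. LEMMA: if `r - (v.map a).prod ∈ Up v` and `r' - (v'.map a).prod ∈ Up v'` then
`r r' - ((v ++ v').map a).prod ∈ Up (v ++ v')`: `r = V + s`, `r' = V' + s'`; `V s' + s V' + s s'` is a combination of words
`x ++ x'` with `x.length = v.length`, `x'.length = v'.length`, and `Ls v x` or (`x = v`, `Ls v' x'`). Induction on `q`, then apply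
the lemma to `A`, `rp q t`, `B`. -/
def PowRedProp : Prop :=
  ∀ (k : Type u) [Field k] (R : Type u) [Ring R] [Algebra k R] (n : ℕ) (a : Fin n → R)
    (t : List (Fin n)) (y : R), y - (t.map a).prod ∈ Up k a t → ∀ (q : ℕ) (A B : List (Fin n)),
    (A.map a).prod * y ^ q * (B.map a).prod - ((A ++ rp q t ++ B).map a).prod ∈
      Up k a (A ++ rp q t ++ B)

/-- (L5) PROOF (uses `ShirLynProp`, `DvRedProp`, `PowRedProp`). `N0` = the number of `ShirLynProp` for `d, q, n`. Let `a i = φ (x i)`. Fix the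
length `ℓ ≥ N0`. Claim: `(w.map a).prod = 0` for all words of length `ℓ`. The words of length `ℓ` form a finite set on which
`Ls` is a strict order, so we may use induction from above (well-founded; e.g. strong induction on the number of the words `w'` of
length `ℓ` with `Ls w w'`): assume it for all `w'` with `Ls w w'`, i.e. `Up k a w = 0`. If `HasDv d w` use `DvRedProp`. Otherwise
`w = A ++ rp q t ++ B`, `PowRedProp` with `y = φ (lift x (g t))`, `y ^ q = 0`. -/
def AssocNilProp : Prop :=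
  ∀ (k : Type u) [Field k] (n d q : ℕ) (g : List (Fin n) → FreeLieAlgebra k (Fin n)), Brk k n g →
    ∃ N0 : ℕ, ∀ (L : Type u) [LieRing L] [LieAlgebra k L] (R : Type u) [Ring R] [Algebra k R]
      (φ : L →ₗ[k] R) (x : Fin n → L), AHom k φ → AltR n d (fun i => φ (x i)) →
      (∀ t, Lyn t → t.length < d → φ (FreeLieAlgebra.lift k x (g t)) ^ q = 0) →
      ∀ w : List (Fin n), N0 ≤ w.length → (w.map fun i => φ (x i)).prod = 0

/-- (L6) PROOF (uses `ShirLynProp`, `DvRedProp`, `PowRedProp`). `N0` = the number of `ShirLynProp` for `d, P + N, n`. Let `a i = φ (x i)` and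
`M` the span in question, stable under left multiplication by the `T j`, hence by `adjoin`. Every `T j` commutes with all
`a i`, hence with all `(w.map a).prod` and with `φ (lift x (g t))` (the elements `y` of `L` for which `φ y` commutes with `T j` form a Lie
subalgebra; `lift_mem` in `Func.lean`). Claim: `(w.map a).prod ∈ M`. Strong induction on the length `ℓ` of `w`; if `ℓ < N0` it is clear
(`c = 1`). Let `ℓ ≥ N0`; inner induction from above with respect to `Ls` among the words of length `ℓ`: so `Up k a w ≤ M`. If `HasDv d w` use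
`DvRedProp`. Otherwise `w = A ++ rp (P+N) t ++ B`, `t = ts j`, `y = φ (lift x (g t))`; `PowRedProp`: modulo `M` the word is
`(A.map a).prod * y ^ (P+N) * (B.map a).prod = T j * ((A.map a).prod * y ^ P * (B.map a).prod)`. `y` is a combination of words of length
`t.length` (`Brk`), so `(A.map a).prod * y ^ P * (B.map a).prod` is a combination of words of length `ℓ - N * t.length < ℓ`
(`t ≠ []`, `0 < N`), in `M` by the outer induction. -/
def AssocFgProp : Prop :=
  ∀ (k : Type u) [Field k] (n d P N : ℕ) (g : List (Fin n) → FreeLieAlgebra k (Fin n)),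
    Brk k n g → 0 < N →
    ∃ N0 : ℕ, ∀ (r : ℕ) (ts : Fin r → List (Fin n)), LE n d ts →
      ∀ (L : Type u) [LieRing L] [LieAlgebra k L] (R : Type u) [Ring R] [Algebra k R]
      (φ : L →ₗ[k] R) (x : Fin n → L) (T : Fin r → R), AHom k φ → AltR n d (fun i => φ (x i)) →
      (∀ j, φ (FreeLieAlgebra.lift k x (g (ts j))) ^ (P + N) =
        T j * φ (FreeLieAlgebra.lift k x (g (ts j))) ^ P) →
      (∀ j i, Commute (T j) (φ (x i))) →
      ∀ w : List (Fin n), (w.map fun i => φ (x i)).prod ∈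
        Submodule.span k {r | ∃ c ∈ Algebra.adjoin k (Set.range T), ∃ w' : List (Fin n),
          w'.length < N0 ∧ r = c * (w'.map fun i => φ (x i)).prod}

/-- (L7) PROOF (uses `AssocNilProp`). Let `Q = ↥Z ⧸ Y.comap Z.subtype`. `Y` and `Z` are stable under the brackets `⁅·, y⁆` with all
`y ∈ F₀` = the Lie subalgebra generated by the `x i` (`lie_lie_right`, `LieSubalgebra`); here take `L := ↥F₀` or note that the `x i`
generate `F`. `R = (Module.End k Q)ᵐᵒᵖ`, `φ y = op` of the operator induced by `⁅·, y⁆`; `AHom`: `⁅a, ⁅y, z⁆⁆ = ⁅⁅a, y⁆, z⁆ - ⁅⁅a, z⁆, y⁆`.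
`(w.map (φ ∘ x)).prod` is `op` of the operator induced by `a ↦ wd a (w.map x)`, so `AltR` follows from `AltL`, and
`φ y ^ q` is `op` of the operator induced by `pw k y q`. -/
def LieNilProp : Prop :=
  ∀ (k : Type u) [Field k] (n d q : ℕ) (g : List (Fin n) → FreeLieAlgebra k (Fin n)), Brk k n g →
    ∃ N0 : ℕ, ∀ (F : Type u) [LieRing F] [LieAlgebra k F] (x : Fin n → F) (Y Z : Submodule k F),
      LieSubalgebra.lieSpan k F (Set.range x) = ⊤ → AltL n d x → Y ≤ Z →
      (∀ i, ∀ w ∈ Y, ⁅w, x i⁆ ∈ Y) → (∀ i, ∀ w ∈ Z, ⁅w, x i⁆ ∈ Z) →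
      (∀ t, Lyn t → t.length < d → ∀ z ∈ Z, pw k (FreeLieAlgebra.lift k x (g t)) q z ∈ Y) →
      ∀ w : List (Fin n), N0 ≤ w.length → ∀ z ∈ Z, wd z (w.map x) ∈ Y

/-- (L8) PROOF (uses `AssocFgProp`, `IdealGenProp` of `Two/Spec.lean`). `R = (Module.End k ↥G)ᵐᵒᵖ`, `φ y = op` of the restriction of
`⁅·, y⁆` to `G` (an ideal), `T' j = op` of the restriction of `T j`. By the hypotheses `T' j` commutes with the `φ y`,
and `φ (u) ^ (P+N) = T' j * φ (u) ^ P` for `u = lift x (g (ts j))` (in `Rᵐᵒᵖ` the factors are exchanged, but they commute). Let `S₀` be a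
finite set generating the ideal `G`; `G = gen (adr (x i)) S₀` (`IdealGenProp`), i.e. `G` is spanned by the `wd s (w.map x)`, `s ∈ S₀`. By
`AssocFgProp` `wd s (w.map x)` is a combination of elements `c (wd s (w'.map x))`, `w'.length < N0`, `c` in the algebra generated by the
`T j`. So `S` = the finite set of the `wd s (w'.map x)`, `s ∈ S₀`, `w'.length < N0`. -/
def LieFgProp : Prop :=
  ∀ (k : Type u) [Field k] (n d P N : ℕ) (g : List (Fin n) → FreeLieAlgebra k (Fin n)),
    Brk k n g → 0 < N → ∀ (r : ℕ) (ts : Fin r → List (Fin n)), LE n d ts →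
    ∀ (F : Type u) [LieRing F] [LieAlgebra k F] (x : Fin n → F) (G : LieIdeal k F)
      (T : Fin r → Module.End k F), LieSubalgebra.lieSpan k F (Set.range x) = ⊤ → AltL n d x →
      (∀ j, ∀ a ∈ G, T j a ∈ G) → (∀ j, ∀ a ∈ G, ∀ z : F, T j ⁅a, z⁆ = ⁅T j a, z⁆) →
      (∀ j, ∀ a ∈ G, pw k (FreeLieAlgebra.lift k x (g (ts j))) (P + N) a =
        T j (pw k (FreeLieAlgebra.lift k x (g (ts j))) P a)) →
      (∃ S : Finset F, LieSubmodule.lieSpan k F (S : Set F) = G) →
      ∃ S : Finset F, Two.gen T (S : Set F) = G.toSubmodule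

/-! ## G. The ideal on which the `S t` act -/

/-- (G1) PROOF. Induction on `l`; `[]` is trivial. `l = h :: l'`: `Mid (l.map y)` is the ideal generated by the `pw k (y h) P m`,
`m ∈ Mid (l'.map y)`; the set of the `a : F` for which there is `a' ∈ Mid (l.map y)` with `Φ a' = S i (Φ a)` is closed under sums, scalar
multiples and brackets with elements of `F` (`S i (Φ ⁅a, z⁆) = ⁅S i (Φ a), Φ z⁆ = Φ ⁅a', z⁆`), so it is enough to treat `a = pw k (y h) P m`
(e.g. `LieSubmodule.lieSpan_induction`, or show that this set is an ideal containing the generators). `i = h`: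
`S h (Φ a) = S h (pw (Φ (y h)) P (Φ m)) = pw (Φ (y h)) (P + N) (Φ m) = Φ (pw (y h) P (pw (y h) N m))` and `pw (y h) N m ∈ Mid (l'.map y)`
(`pw_mem`). `i ∈ l'`: by induction `S i (Φ m) = Φ m'`, `m' ∈ Mid (l'.map y)`, and `S i (Φ (pw (y h) P m)) = pw (Φ (y h)) P (S i (Φ m)) =
Φ (pw (y h) P m')` by linearity. -/
def MidSProp : Prop :=
  ∀ (k : Type u) [Field k] (F X : Type u) [LieRing F] [LieAlgebra k F] [LieRing X] [LieAlgebra k X]
    (Φ : F →ₗ⁅k⁆ X) (ι : Type u) (P N : ℕ) (y : ι → F) (S : ι → Module.End k X),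
    (∀ i (a b : X), S i ⁅a, b⁆ = ⁅S i a, b⁆) →
    (∀ i (a : X), pw k (Φ (y i)) (P + N) a = S i (pw k (Φ (y i)) P a)) →
    ∀ (l : List ι), ∀ i ∈ l, ∀ a ∈ Mid k P (l.map y), ∃ a' ∈ Mid k P (l.map y), Φ a' = S i (Φ a)

/-- (G2) PROOF (uses `MidSProp` with `ι = Fin r → k`, `y = cmb k u`). `G = ⨆ (l) (_ : Spn k S l), Mid k P (l.map (cmb k u))`. For a list `l`
with `Spn k S l`, every `t` and `a ∈ Mid (l.map …)`: `S t (Φ a)` is a combination of the `S t' (Φ a)`, `t' ∈ l`, so it is in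
`Φ (Mid (l.map …))`. By additivity for `a ∈ G` there is `a' ∈ G` with `Φ a' = S t (Φ a)`, unique because `Φ` is injective. So
`a ↦ a'` is a linear map `↥G → F`; `T t` is any linear extension to `F` (`LinearMap.exists_extend`). -/
def GTProp : Prop :=
  ∀ (k : Type u) [Field k] (F X : Type u) [LieRing F] [LieAlgebra k F] [LieRing X] [LieAlgebra k X]
    (Φ : F →ₗ⁅k⁆ X) (P N r : ℕ) (u : Fin r → F) (S : (Fin r → k) → Module.End k X),
    Function.Injective Φ → SOp k Φ P N u S →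
    ∃ (G : LieIdeal k F) (T : (Fin r → k) → Module.End k F),
      (∀ l, Spn k S l → Mid k P (l.map (cmb k u)) ≤ G) ∧
      ∀ t, ∀ a ∈ G, T t a ∈ G ∧ Φ (T t a) = S t (Φ a)

/-- (G3) PROOF. `W` = the span of all `S t` is finite dimensional (it is contained in the span of the `Q α`, `α ∈ s`), `ρ` its dimension. For a
list `l` let `W l` be the span of the `S t'`, `t' ∈ l`. CLAIM: if `ρ ≤ finrank (W l) + c` then `pw (u j) (c * P) w ∈ G` for all
`w ∈ Mid (l.map (cmb k u))` and all `j`. (For `l = []`, `c = ρ` this is the assertion, `Mid [] = ⊤`.) Induction on `c`. `c = 0`: `W l = W`, so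
`Spn k S l`. Step `c + 1`: if `ρ ≤ finrank (W l) + c` use the induction hypothesis (`pw_add`, `pw_mem`). Otherwise `W l ≠ W`, so there is
`t₁` with `S t₁ ∉ W l`, and a linear form `λ` on `Module.End k X` with `λ = 0` on `W l`, `λ (S t₁) ≠ 0`
(`Submodule.exists_le_ker_of_notMem` or similar). Let `e = Pi.single j 1`, `t c = e + c • (t₁ - e)`, `c : k`; `cmb k u e = u j`. The function
`c ↦ λ (S (t c))` is a polynomial in `c` (`PolyS`), not zero (`c = 1`), so it is nonzero for all but finitely many `c`; for these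
`S (t c) ∉ W l`, `finrank (W (t c :: l)) ≥ finrank (W l) + 1`, and by the induction hypothesis
`F c := pw (u j) (c₀ * P) (pw (cmb k u (t c)) P w) ∈ G` (`c₀` = the induction parameter), since
`pw (cmb k u (t c)) P w ∈ Mid ((t c :: l).map …)`. `F c` is a polynomial in `c` with coefficients in `F` (`cmb k u (t c) = u j + c • z`;
`PF k P`, induction on `P`: brackets), and its values are in `G` for infinitely many `c`; so all its coefficients are in `G`
(Vandermonde), and `F 0 = pw (u j) (c₀ * P + P) w ∈ G`. -/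
def NilLineProp : Prop :=
  ∀ (k : Type u) [Field k] [Infinite k] (F X : Type u) [LieRing F] [LieAlgebra k F]
    [AddCommGroup X] [Module k X] (P N r : ℕ) (u : Fin r → F) (S : (Fin r → k) → Module.End k X)
    (G : LieIdeal k F), PolyS k r N S →
    (∀ l, Spn k S l → Mid k P (l.map (cmb k u)) ≤ G) →
    ∃ M : ℕ, ∀ (j : Fin r) (w : F), pw k (u j) M w ∈ G

/-- (G4) PROOF. By injectivity of `Φ`, all equations can be checked after applying `Φ`. (b), (c) are immediate from `SOp.lin`, `SOp.comm`.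
(d): `Φ (pw v P (T t a)) = pw (Φ v) P (S t (Φ a)) = S t (pw (Φ v) P (Φ a)) = pw (Φ v) (P + N) (Φ a)` (linearity of `S t`). (a):
`S (t + c • t') = ∑ α ∈ s, (∏ i, (t i + c * t' i) ^ α i) • Q α`, and the products are polynomials in `c` of degree `≤ N`; so
`Φ (T (t + c • t') a) = ∑ l ≤ N, c ^ l • q l` with `q l : X`. Choose `N + 1` different `c₀, …, c_N : k`; by Vandermonde the `q l` are
combinations of the `Φ (T (t + c_i • t') a)`, so `q l = Φ (q' l)`, and `T (t + c • t') a = ∑ c ^ l • q' l` by injectivity. (e): the span of all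
`S t` is finite dimensional, choose a spanning set of the form `S (ν i)`. -/
def GPropsProp : Prop :=
  ∀ (k : Type u) [Field k] [Infinite k] (F X : Type u) [LieRing F] [LieAlgebra k F] [LieRing X]
    [LieAlgebra k X] (Φ : F →ₗ⁅k⁆ X) (P N r : ℕ) (u : Fin r → F)
    (S : (Fin r → k) → Module.End k X) (G : LieIdeal k F) (T : (Fin r → k) → Module.End k F),
    Function.Injective Φ → SOp k Φ P N u S →
    (∀ t, ∀ a ∈ G, T t a ∈ G ∧ Φ (T t a) = S t (Φ a)) →
    (∀ t t', ∀ a ∈ G, PF k N (fun c => T (t + c • t') a)) ∧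
    (∀ t, ∀ a ∈ G, ∀ z : F, T t ⁅a, z⁆ = ⁅T t a, z⁆) ∧
    (∀ t t', ∀ a ∈ G, T t (T t' a) = T t' (T t a)) ∧
    (∀ t, ∀ a ∈ G, pw k (cmb k u t) P (T t a) = pw k (cmb k u t) (P + N) a) ∧
    ∃ (n : ℕ) (ν : Fin n → (Fin r → k)), ∀ t, ∃ c : Fin n → k, ∀ a ∈ G,
      T t a = ∑ i, c i • T (ν i) a

/-- (G5) PROOF. Let `Z i` be the span of the `wd z (w.map x)`, `z ∈ Z`, `i ≤ w.length`. `Z ≤ Z 0`, `Z N0 ≤ Y`. The set of the `y : F` such that
`⁅z, y⁆ ∈ Z (i+1)` for all `i` and all `z ∈ Z i` is a Lie subalgebra (`⁅z, ⁅y, y'⁆⁆ = ⁅⁅z, y⁆, y'⁆ - ⁅⁅z, y'⁆, y⁆ ∈ Z (i+2) ≤ Z (i+1)`)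
containing the `x i` (`wd_concat`), so it is everything. By induction `pw y i z ∈ Z i` for `z ∈ Z`. -/
def PwNilProp : Prop :=
  ∀ (k : Type u) [Field k] (F : Type u) [LieRing F] [LieAlgebra k F] (n : ℕ) (x : Fin n → F)
    (Y Z : Submodule k F) (N0 : ℕ), LieSubalgebra.lieSpan k F (Set.range x) = ⊤ →
    (∀ w : List (Fin n), N0 ≤ w.length → ∀ z ∈ Z, wd z (w.map x) ∈ Y) →
    ∀ (y : F), ∀ z ∈ Z, pw k y N0 z ∈ Y

/-- (G6) PROOF. `words_span`: `F` is spanned by the `wd (x i) (ls.map x)`; if `N0 ≤ ls.length` the word is in `G`; there are only finitely many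
other words. -/
def WdCofProp : Prop :=
  ∀ (k : Type u) [Field k] (F : Type u) [LieRing F] [LieAlgebra k F] (n : ℕ) (x : Fin n → F)
    (G : LieIdeal k F) (N0 : ℕ), LieSubalgebra.lieSpan k F (Set.range x) = ⊤ →
    (∀ w : List (Fin n), N0 ≤ w.length → ∀ z : F, wd z (w.map x) ∈ G) → FC G.toSubmodule ⊤

/-! ## C. Closedness -/

/-- (C1) PROOF. This is the proof of `X0Prop` (docstring (T20) in `Tor/Spec.lean`, file `Tor/X0.lean`) with the explicit exponent: with
`z μ = ∑ l ≤ d, μ ^ l • Z l`, `T μ = ∑ l ≤ d, μ ^ l • C l`, `f = ∑ Z l X^l`, `h = ∑ C l X^l` in `A[X]`, `A` the commutative algebra generated by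
all the operators, `g = h ^ a - f ^ b` of degree `≤ D = d * (a + b)`; `f g = 0`; after the substitution `X ↦ X + μ₀` one has
`f' g' = 0`, `f'_0 = z μ₀`, so `(z μ₀) ^ (l+1) g'_l = 0` for all `l ≤ D` by induction on `l`, hence `(z μ₀) ^ (D+1) g' = 0`. -/
def X0OneProp : Prop :=
  ∀ (k : Type u) [Field k] [Infinite k] (X : Type u) [AddCommGroup X] [Module k X] (d a b : ℕ)
    (z T : k → Module.End k X), (∀ w, PF k d (fun μ => z μ w)) →
    (∀ w, PF k d (fun μ => T μ w)) → (∀ μ μ', Commute (z μ) (z μ')) →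
    (∀ μ μ', Commute (T μ) (T μ')) → (∀ μ μ', Commute (z μ) (T μ')) →
    (∀ μ, z μ * T μ ^ a = z μ ^ (1 + b)) →
    ∀ μ₀ μ w, (z μ₀ ^ (d * (a + b) + 1)) ((T μ ^ a) w - (z μ ^ b) w) = 0

/-- (C2) PROOF (uses `X0OneProp`). For `t₀, t` apply `X0OneProp` to `c ↦ z (t₀ + c • (t - t₀))`, `c ↦ T (t₀ + c • (t - t₀))`, with
`μ₀ = 0`, `μ = 1`: `z t₀ ^ q ((T t ^ a) w - (z t ^ b) w) = 0` with `q = d * (a + b) + 1`. `X₀` = the sum of the ranges of all the
`T t ^ a - z t ^ b`. An operator commuting with all `z t`, `T t` preserves every range. -/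
def X0LineProp : Prop :=
  ∀ (k : Type u) [Field k] [Infinite k] (X : Type u) [AddCommGroup X] [Module k X] (r d a b : ℕ)
    (z T : (Fin r → k) → Module.End k X), (∀ t t' w, PF k d (fun c => z (t + c • t') w)) →
    (∀ t t' w, PF k d (fun c => T (t + c • t') w)) → (∀ t t', Commute (z t) (z t')) →
    (∀ t t', Commute (T t) (T t')) → (∀ t t', Commute (z t) (T t')) →
    (∀ t, z t * T t ^ a = z t ^ (1 + b)) →
    ∃ (X₀ : Submodule k X) (q : ℕ),
      (∀ ψ : Module.End k X, (∀ t, Commute ψ (z t)) → (∀ t, Commute ψ (T t)) →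
        ∀ w ∈ X₀, ψ w ∈ X₀) ∧
      (∀ t, ∀ w ∈ X₀, (z t ^ q) w = 0) ∧ ∀ t w, (T t ^ a) w - (z t ^ b) w ∈ X₀

/-- (C3) PROOF (uses `X0LineProp`, `ClosedProp`, `IntegralProp`). `X0LineProp` gives `X₀`, `q`; `X₀` is stable under all `z t`, `T t`, `y j`
and all `ψ ∈ Ψ`; the last hypothesis gives `q'`. Apply `ClosedProp` with `n + m` in the place of `n`, `σ = Fin.append (fun i => z (ν i)) y`,
`ν = Fin.append (fun i => T (ν i)) (fun _ => 0)`, `W = ⊥`, `X₀`, `B`, `q'' = max q q'` (or `q + q'`), `ζ`. `gen (σ, ν) S ⊔ ⊥ = ⊤` because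
`gen (T ∘ ν) S = ⊤`; `gen σ S ⊔ ⊥ = B` because `gen y S = B` and `B` is stable under the `z (ν i)`; `gen σ S' ⊔ X₀ = ⊤`: `IntegralProp` with
`φ = σ`, `ψ i = T (ν i)`, `Y = X₀`, `Z = ⊤`, `d = a`, `r 0 = (z (ν i)) ^ b`, `r l = 0` for `l ≥ 1` (`0 < a`). Compare `Tor/ClosedT.lean`. -/
def ClosedT2Prop : Prop :=
  ∀ (k : Type u) [Field k] [Infinite k] (X : Type u) [AddCommGroup X] [Module k X]
    (r n m d a b : ℕ) (z T : (Fin r → k) → Module.End k X) (ν : Fin n → (Fin r → k))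
    (y : Fin m → Module.End k X) (Ψ : Set (Module.End k X)) (B : Submodule k X) (ζ : X), 0 < a →
    (∀ t t' w, PF k d (fun c => z (t + c • t') w)) →
    (∀ t t' w, PF k d (fun c => T (t + c • t') w)) → (∀ t t', Commute (z t) (z t')) →
    (∀ t t', Commute (T t) (T t')) → (∀ t t', Commute (z t) (T t')) →
    (∀ j t, Commute (y j) (z t)) → (∀ j t, Commute (y j) (T t)) →
    (∀ i j, Commute (y i) (y j)) → (∀ t, z t * T t ^ a = z t ^ (1 + b)) →
    (∃ S : Finset X, Two.gen (fun i => T (ν i)) (S : Set X) = ⊤) →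
    (∀ t, ∀ w ∈ B, z t w ∈ B) → (∀ j, ∀ w ∈ B, y j w ∈ B) →
    (∃ S : Finset X, Two.gen y (S : Set X) = B) →
    (∀ ψ ∈ Ψ, ∀ t, Commute ψ (z t) ∧ Commute ψ (T t)) →
    (∀ (X₀ : Submodule k X) (q : ℕ), (∀ ψ ∈ Ψ, ∀ w ∈ X₀, ψ w ∈ X₀) →
      (∀ t, ∀ w ∈ X₀, (z t ^ q) w = 0) → ∃ q' : ℕ, ∀ j, ∀ w ∈ X₀, (y j ^ q') w = 0) →
    ζ ∉ B →
    ∃ D : Submodule k X, (∀ i, ∀ w ∈ D, T (ν i) w ∈ D) ∧ FC D ⊤ ∧ ζ ∉ B ⊔ D

/-- (C4) Relative version. PROOF (uses `ClosedT2Prop`). Pass to `Q = ↥Z ⧸ Y.comap Z.subtype` with the induced operators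
(`Submodule.mapQ`, `LinearMap.restrict`), `Ψ'` = the set of the operators induced by the `ψ ∈ Ψ`; for the last hypothesis take for
`X₀ ≤ Q` the preimage in `Z`, as a subspace of `X`. (`PF` for the induced operators: the coefficients are combinations of `d + 1` values by
Vandermonde, so they are in `Z`.) The answer is the preimage of the `D` obtained there. Compare `Tor/ClosedQ.lean`. -/
def ClosedQ2Prop : Prop :=
  ∀ (k : Type u) [Field k] [Infinite k] (X : Type u) [AddCommGroup X] [Module k X]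
    (r n m d a b : ℕ) (z T : (Fin r → k) → Module.End k X) (ν : Fin n → (Fin r → k))
    (y : Fin m → Module.End k X) (Ψ : Set (Module.End k X)) (Y Z B : Submodule k X) (ζ : X),
    0 < a → Y ≤ B → B ≤ Z → (∀ t, ∀ w ∈ Y, z t w ∈ Y) → (∀ t, ∀ w ∈ Y, T t w ∈ Y) →
    (∀ j, ∀ w ∈ Y, y j w ∈ Y) → (∀ ψ ∈ Ψ, ∀ w ∈ Y, ψ w ∈ Y) →
    (∀ t, ∀ w ∈ Z, z t w ∈ Z) → (∀ t, ∀ w ∈ Z, T t w ∈ Z) →
    (∀ j, ∀ w ∈ Z, y j w ∈ Z) → (∀ ψ ∈ Ψ, ∀ w ∈ Z, ψ w ∈ Z) →
    (∀ t t', ∀ w ∈ Z, PF k d (fun c => z (t + c • t') w)) →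
    (∀ t t', ∀ w ∈ Z, PF k d (fun c => T (t + c • t') w)) →
    (∀ t t', ∀ w ∈ Z, z t (z t' w) - z t' (z t w) ∈ Y) →
    (∀ t t', ∀ w ∈ Z, T t (T t' w) - T t' (T t w) ∈ Y) →
    (∀ t t', ∀ w ∈ Z, z t (T t' w) - T t' (z t w) ∈ Y) →
    (∀ j t, ∀ w ∈ Z, y j (z t w) - z t (y j w) ∈ Y) →
    (∀ j t, ∀ w ∈ Z, y j (T t w) - T t (y j w) ∈ Y) →
    (∀ i j, ∀ w ∈ Z, y i (y j w) - y j (y i w) ∈ Y) →
    (∀ ψ ∈ Ψ, ∀ t, ∀ w ∈ Z, ψ (z t w) - z t (ψ w) ∈ Y) →
    (∀ ψ ∈ Ψ, ∀ t, ∀ w ∈ Z, ψ (T t w) - T t (ψ w) ∈ Y) →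
    (∀ t, ∀ w ∈ Z, z t ((T t ^ a) w) - (z t ^ (1 + b)) w ∈ Y) →
    (∃ S : Finset X, Two.gen (fun i => T (ν i)) (S : Set X) ⊔ Y = Z) →
    (∀ t, ∀ w ∈ B, z t w ∈ B) → (∀ j, ∀ w ∈ B, y j w ∈ B) →
    (∃ S : Finset X, Two.gen y (S : Set X) ⊔ Y = B) →
    (∀ X₀ : Submodule k X, Y ≤ X₀ → X₀ ≤ Z → (∀ ψ ∈ Ψ, ∀ w ∈ X₀, ψ w ∈ X₀) →
      (∃ q : ℕ, ∀ t, ∀ w ∈ X₀, (z t ^ q) w ∈ Y) →
      ∃ q' : ℕ, ∀ j, ∀ w ∈ X₀, (y j ^ q') w ∈ Y) →
    ζ ∈ Z → ζ ∉ B →
    ∃ D : Submodule k X, Y ≤ D ∧ D ≤ Z ∧ (∀ i, ∀ w ∈ D, T (ν i) w ∈ D) ∧ FC D Z ∧ ζ ∉ B ⊔ D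

/-- (C5) PROOF (uses `RfdProp`, `AnnRelProp`, `SepFdProp`, `ClosedQ2Prop`). Exactly as `FinishProp` (docstring (T24) in `Tor/Spec.lean`, file
`Tor/Finish.lean`), with `z t = pw k (cmb k u t) P'`, `y j = pw k (b j) P'` and `Ψ` = the set of all `adr k z`, `z : F`. If `ζ ∉ K ⊔ G` take
`I = K ⊔ G`; otherwise let `ζ = κ + g`, it is enough to separate `g ∈ G`, `g ∉ K`. `B = ⁅K, G⁆`, `D = {g ∈ G | ∀ h ∈ G, ⁅g, h⁆ ∈ B}`, ideals,
`B ≤ K ⊓ G ≤ D ≤ G`; `T t B ⊆ B`, `T t D ⊆ D`. Case 1: `g ∉ D`: as there, with `φ i = T (ν i)`. Case 2: `g ∈ D`: `ClosedQ2Prop` with `Y = B`,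
`Z = D`, `B := K ⊓ G`, `ζ := g`, `a = P'`, `b = N`, a common degree bound (`PF` is monotone in `d`; for `z`: `pw (v + c • v') P' w` is
`PF k P'`, `cmb k u (t + c • t') = cmb k u t + c • cmb k u t'`). For a derivation `δ = pw k y P'` with values in `G` and `a ∈ D`:
`δ ⁅a, z⁆ - ⁅δ a, z⁆ = ⁅a, δ z⁆ ∈ B`, so `δ` commutes modulo `B` on `D` with the `adr k z`, hence with their powers (`z t`, `y j`); the `T t`
commute with the `adr k z` on `G`, hence with `z t`, `y j`. `z t (T t ^ P' a) = z t ^ (1 + N) a` for `a ∈ G` (as in (T24)). The last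
hypothesis: a subspace `X₀` stable under all `adr k z` is an ideal; `(z t ^ q) = pw k (cmb k u t) (P' * q)` (`pw_mul`), so `hnil` for `B ≤ X₀` gives
`M'` with `pw (b j) M' w ∈ B`, hence `(y j ^ M') w ∈ B` (`P' * M' ≥ M'`, `pw_mem`). The end as in (T24). -/
def Finish2Prop : Prop :=
  ∀ (k : Type u) [Field k] [Infinite k] (F : Type u) [LieRing F] [LieAlgebra k F]
    (r n m d N P' : ℕ) (u : Fin r → F) (b : Fin m → F) (G K : LieIdeal k F)
    (T : (Fin r → k) → Module.End k F) (ν : Fin n → (Fin r → k)) (ζ : F),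
    FC G.toSubmodule ⊤ → 0 < P' → Der k F P' → (∀ (y : F) (w : F), pw k y P' w ∈ G) →
    (∀ t t', ∀ a ∈ G, PF k d (fun c => T (t + c • t') a)) →
    (∀ t, ∀ a ∈ G, T t a ∈ G) → (∀ t, ∀ a ∈ G, ∀ z : F, T t ⁅a, z⁆ = ⁅T t a, z⁆) →
    (∀ t t', ∀ a ∈ G, T t (T t' a) = T t' (T t a)) →
    (∀ t, ∀ a ∈ G, pw k (cmb k u t) P' (T t a) = pw k (cmb k u t) (P' + N) a) →
    (∀ U : Submodule k F, Stab (fun i => T (ν i)) U → U ≤ G.toSubmodule →
      ∃ S : Finset F, Two.gen (fun i => T (ν i)) (S : Set F) = U) →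
    (∃ S : Finset F, Two.gen (fun j => pw k (b j) P') (S : Set F) ⊔
      (⁅K, G⁆ : LieIdeal k F).toSubmodule = (K ⊓ G : LieIdeal k F).toSubmodule) →
    (∀ Y Z : LieIdeal k F, Y ≤ Z → (∃ M : ℕ, ∀ t, ∀ w ∈ Z, pw k (cmb k u t) M w ∈ Y) →
      ∃ M' : ℕ, ∀ j, ∀ w ∈ Z, pw k (b j) M' w ∈ Y) →
    ζ ∉ K → ∃ I : LieIdeal k F, K ≤ I ∧ FC I.toSubmodule ⊤ ∧ ζ ∉ I

/-- (C6) PROOF (uses `Sol.PbwProp`, `IdealGenProp`). `PbwProp` with `n := m`, `κ = Fin m`, `φ j = adr k (b j)`, `ψ j = ρ j = pw k (b j) P' =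
(φ j) ^ P'`, `A = 0`, `q = P'`, `Y = ⁅K, G⁆`, `Z = K`. `φ i (φ j w) - φ j (φ i w) = ⁅w, ⁅b j, b i⁆⁆`, `⁅b j, b i⁆ = ∑ c l • b l + g`, `g ∈ G`,
`⁅w, g⁆ ∈ ⁅K, G⁆` (as `w ∈ K`). `ψ i ⁅w, b j⁆ - ⁅ψ i w, b j⁆ = ⁅w, ψ i (b j)⁆ ∈ ⁅K, G⁆` (`Der`). `K = gen φ S` (`IdealGenProp`), and
`gen φ S ≤ gen (φ, ψ) S ≤ K`. -/
def Kfg2Prop : Prop :=
  ∀ (k : Type u) [Field k] (F : Type u) [LieRing F] [LieAlgebra k F] (m : ℕ) (b : Fin m → F)
    (P' : ℕ) (G K : LieIdeal k F), LieSubalgebra.lieSpan k F (Set.range b) = ⊤ →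
    Submodule.span k (Set.range b) ⊔ G.toSubmodule = ⊤ → 0 < P' → Der k F P' →
    (∀ (j : Fin m) (w : F), pw k (b j) P' w ∈ G) →
    (∃ S : Finset F, LieSubmodule.lieSpan k F (S : Set F) = K) →
    ∃ S : Finset F, Two.gen (fun j => pw k (b j) P') (S : Set F) ⊔
      (⁅K, G⁆ : LieIdeal k F).toSubmodule = K.toSubmodule

/-- (C7) PROOF (uses `HilbertProp`). Let `gen (T (single j))_j S = G`. `G' = gen (T (ν i))_i S ≤ G`. The `T t` commute on `G` and are combinations of the
`T (ν i)` on `G`, so `G'` is stable under all `T t`, in particular under the `T (single j)`; so `G' = G`. Then `HilbertProp` with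
`φ i = T (ν i)`, `Y = ⊥`, `Z = G`, `U`. -/
def Gfg2Prop : Prop :=
  ∀ (k : Type u) [Field k] (F : Type u) [LieRing F] [LieAlgebra k F] (r n : ℕ) (G : LieIdeal k F)
    (T : (Fin r → k) → Module.End k F) (ν : Fin n → (Fin r → k)),
    (∀ t, ∀ a ∈ G, T t a ∈ G) → (∀ t t', ∀ a ∈ G, T t (T t' a) = T t' (T t a)) →
    (∀ t, ∃ c : Fin n → k, ∀ a ∈ G, T t a = ∑ i, c i • T (ν i) a) →
    (∃ S : Finset F, Two.gen (fun j : Fin r => T (Pi.single j 1)) (S : Set F) = G.toSubmodule) →
    ∀ U : Submodule k F, Stab (fun i => T (ν i)) U → U ≤ G.toSubmodule →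
      ∃ S : Finset F, Two.gen (fun i => T (ν i)) (S : Set F) = U

/-! ## A. Finite dimensional algebras -/

/-- (A1) PROOF. `P = p^s`, `D = pw K v P`, `δ = pw K v (P + N)`, `E = pw K v N = D ^ (N / P)`, derivations `D`, `δ = E ∘ D`. `K` is algebraically
closed: `A` is the sum of the generalized eigenspaces of `adr K v` (`Module.End.iSup_maxGenEigenspace_eq_top`); on the one for `α`,
`(adr K v - α)^P = 0` (`finrank ≤ P`), so `D = α^P` there (characteristic `p`: `sub_pow_char_pow`), `E = α^N`. So `A` is the direct sum of `A₀ = ker D` and the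
`C τ = ker (E - τ)`, `τ ≠ 0` (finitely many are nonzero), `D` is invertible on `C τ`, `D` and `E` commute. For `τ : K` let
`A^τ = {a | δ a = τ • D a} ⊇ A₀`, and `⊇ C τ`; `A^τ = A₀ + C τ` for `τ ≠ 0` (decompose `a`: `(E - τ) D a = 0` kills all other components). (i) `A^τ` is a
subalgebra: `δ ⁅a, b⁆ = ⁅δ a, b⁆ + ⁅a, δ b⁆ = τ • D ⁅a, b⁆`. (ii) `⁅C τ, C τ'⁆ = 0` for nonzero `τ ≠ τ'`: `a = D a'`, `a' ∈ C τ`, `b = D b'`;
`BalW` with the empty list: `⁅δ a', D b'⁆ = ⁅D a', δ b'⁆`, i.e. `τ • ⁅a, b⁆ = τ' • ⁅a, b⁆`. (iii) `⁅A₀, C τ⁆ ⊆ C τ`: for `b ∈ A₀`,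
`D ⁅b, c⁆ = ⁅b, D c⁆`, so `E ⁅b, c⁆ = ⁅b, E c⁆`. (iv) Let `J τ` be the smallest subspace containing `C τ` and closed under brackets with `A^τ`
(`J τ ≤ A^τ`). `⁅J τ, C τ'⁆ = 0` for nonzero `τ ≠ τ'`: `{a ∈ A^τ | ∀ c ∈ C τ', ⁅a, c⁆ = 0}` contains `C τ` and is closed under brackets with
`z = z₀ + z₁ ∈ A₀ + C τ`: `⁅⁅a, z⁆, c⁆ = ⁅⁅a, c⁆, z⁆ + ⁅a, ⁅z, c⁆⁆`, `⁅z, c⁆ = ⁅z₀, c⁆ ∈ C τ'`. `⁅J τ, J τ'⁆ = 0`:
`{b | ∀ a ∈ J τ, ⁅a, b⁆ = 0}` contains `C τ'` and is closed under brackets with `z = z₀ + z₁ ∈ A₀ + C τ'`: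
`⁅a, ⁅b, z⁆⁆ = ⁅⁅a, b⁆, z⁆ - ⁅⁅a, z⁆, b⁆`, `⁅a, z⁆ = ⁅a, z₀⁆ + 0 ∈ J τ`. (v) Let `ρ i = ρ₀ i + ∑ τ, ρ' τ i` (`ρ₀ i ∈ A₀`, `ρ' τ i ∈ C τ`, the sum over the
finite set of the nonzero eigenvalues `τ` of `E`). CLAIM for all `g : FreeLieAlgebra k (Fin n)`: `lift ρ₀ g ∈ A₀`,
`lift (ρ₀ + ρ' τ) g - lift ρ₀ g ∈ J τ` and `lift ρ g = lift ρ₀ g + ∑ τ, (lift (ρ₀ + ρ' τ) g - lift ρ₀ g)`: the set of these `g` is a
Lie subalgebra containing the generators (`lift_mem` in `Func.lean`; or `Two/RelFree.lean`): write `g = g₀ + ∑ g_τ` for the three values; `⁅g, h⁆ = ⁅g₀, h₀⁆ +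
∑ τ, (⁅g₀, h_τ⁆ + ⁅g_τ, h₀⁆ + ⁅g_τ, h_τ⁆)` because `⁅g_τ, h_τ'⁆ = 0`. Since `ρ₀` and `ρ₀ + ρ' τ` have values in `A^τ` (`ρ₀` in `A^0` too, if there is no
`τ`), the hypothesis gives `lift ρ f = 0`. -/
def DecIdProp : Prop :=
  ∀ (k : Type u) [Field k] (p : ℕ) [Fact p.Prime] [CharP k p] (K : Type u) [Field K] [Algebra k K]
    [IsAlgClosed K] (A : Type u) [LieRing A] [LieAlgebra k A] [LieAlgebra K A]
    [IsScalarTower k K A] [FiniteDimensional K A] (s N : ℕ), Module.finrank K A ≤ p ^ s → 0 < N →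
    p ^ s ∣ N → Der K A (p ^ s) → Der K A (p ^ s + N) → BalW K A 0 (p ^ s) N →
    ∀ (v : A) (n : ℕ) (f : FreeLieAlgebra k (Fin n)),
      (∀ (τ : K) (ρ : Fin n → A),
        (∀ i, pw K v (p ^ s + N) (ρ i) = τ • pw K v (p ^ s) (ρ i)) →
        FreeLieAlgebra.lift k ρ f = 0) →
      ∀ ρ : Fin n → A, FreeLieAlgebra.lift k ρ f = 0

/-- (A2) PROOF (uses `DecIdProp`). Strong induction on `finrank K A`. If `∀ b, ∃ τ, ∀ a, pw K b (P+N) a = τ • pw K b P a` take `B = A`. Otherwise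
there is `v` such that for all `τ` the subspace `A^τ = {a | pw K v (P+N) a = τ • pw K v P a}` is proper. By `DecIdProp` there are `τ` and
`ρ : Fin n → A` with values in `A^τ` and `lift k ρ f ≠ 0`. `A^τ` is a Lie subalgebra over `K` (both operators are derivations), hence also over `k`
(define the instance by hand if necessary: `LieAlgebra k` on the subtype, with `IsScalarTower k K`), of smaller dimension; `Der`, `BalW` hold in
it (the inclusion is injective and commutes with `pw`), `idOf k A ⊆ idOf k A^τ` (the inclusion composed with `lift` is `lift`). Apply the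
induction hypothesis to `A^τ`. -/
def OneClassProp : Prop :=
  ∀ (k : Type u) [Field k] (p : ℕ) [Fact p.Prime] [CharP k p] (K : Type u) [Field K] [Algebra k K]
    [IsAlgClosed K] (A : Type u) [LieRing A] [LieAlgebra k A] [LieAlgebra K A]
    [IsScalarTower k K A] [FiniteDimensional K A] (s N : ℕ), Module.finrank K A ≤ p ^ s → 0 < N →
    p ^ s ∣ N → Der K A (p ^ s) → Der K A (p ^ s + N) → BalW K A 0 (p ^ s) N →
    ∀ (n : ℕ) (f : FreeLieAlgebra k (Fin n)), (∃ ρ : Fin n → A, FreeLieAlgebra.lift k ρ f ≠ 0) →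
    ∃ (B : Type u) (_ : LieRing B) (_ : LieAlgebra k B) (_ : LieAlgebra K B)
      (_ : IsScalarTower k K B), FiniteDimensional K B ∧
      Module.finrank K B ≤ Module.finrank K A ∧ idOf k A ⊆ idOf k B ∧
      (∀ b : B, ∃ τ : K, ∀ a : B, pw K b (p ^ s + N) a = τ • pw K b (p ^ s) a) ∧
      ∃ ρ : Fin n → B, FreeLieAlgebra.lift k ρ f ≠ 0

/-- (A3) PROOF. Let `β` be a basis of `B`, indexed by `Fin r`, `R = MvPolynomial (Fin r) K`, and `M : Matrix (Fin r) (Fin r) R` the matrix of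
`⁅·, ∑ X_l β_l⁆`: `M i j = ∑ l, C (the β i-coordinate of ⁅β j, β l⁆) * X l`, so that for `ξ : Fin r → K` the matrix `M.map (eval ξ)` is the matrix of
`adr K (∑ ξ l β l)` in the basis `β`. The entries of `M ^ e` are homogeneous of degree `e`. Since `K` is infinite, the hypothesis gives
`(M^(P+N)) i j * (M^P) i' j' = (M^(P+N)) i' j' * (M^P) i j` in `R` (`MvPolynomial.funext`). If `M^P = 0` then `M^(P+N) = 0`, `τ = 0`. Otherwise let
`g = (M^P) i' j' ≠ 0`, `h = (M^(P+N)) i' j'`: `g • M^(P+N) = h • M^P`. By induction `g^j • M^(P + j N) = h^j • M^P`, so `g^j ∣ h^j * g` for all `j`. `R` is a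
unique factorization domain, so `g ∣ h` (for a prime `π` with multiplicities `v(g)`, `v(h)`: `j v(g) ≤ j v(h) + v(g)` for all `j`; or:
`h/g` is integral over `R` because `R[h/g] ⊆ g⁻¹ R` is a finitely generated module, and `R` is integrally closed). Let `h = g * θ`; then
`M^(P+N) = θ • M^P` (cancel `g`), `θ.totalDegree ≤ N` (`totalDegree_mul_of_isDomain`; `g` homogeneous of degree `P`, `h` of degree
`P + N`; `θ = 0` if `h = 0`). `τ b = eval (β.repr b) θ`. For `c : Fin m → B`: `τ (∑ t i • c i) = eval t q` with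
`q = aeval (fun l => ∑ i, C (β.repr (c i) l) * X i) θ`, whose degree is at most that of `θ`. -/
def TauPolyProp : Prop :=
  ∀ (K : Type u) [Field K] [Infinite K] (B : Type u) [LieRing B] [LieAlgebra K B]
    [FiniteDimensional K B] (P N : ℕ),
    (∀ b : B, ∃ τ : K, ∀ a : B, pw K b (P + N) a = τ • pw K b P a) →
    ∃ τ : B → K, (∀ b a : B, pw K b (P + N) a = τ b • pw K b P a) ∧
      ∀ (m : ℕ) (c : Fin m → B), ∃ q : MvPolynomial (Fin m) K, q.totalDegree ≤ N ∧
        ∀ t : Fin m → K, τ (∑ i, t i • c i) = MvPolynomial.eval t q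

/-- (A4) PROOF. The left hand side is the value of an alternating map in `d` arguments of the space `Module.End K B` of dimension
`(finrank K B)^2 < d` (alternatization of `MultilinearMap.mkPiAlgebraFin`), so it vanishes (the arguments are linearly dependent:
`AlternatingMap.map_linearDependent`). -/
def AltEndProp : Prop :=
  ∀ (K : Type u) [Field K] (B : Type u) [AddCommGroup B] [Module K B] [FiniteDimensional K B]
    (d : ℕ), Module.finrank K B * Module.finrank K B < d → ∀ φ : Fin d → Module.End K B,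
    ∑ σ : Equiv.Perm (Fin d), (Equiv.Perm.sign σ : ℤ) • (List.ofFn (φ ∘ σ)).prod = 0

/-- (A5) PROOF (uses `ExtProp` of `Semi/Spec.lean`). `K' = AlgebraicClosure K`, `B = K' ⊗[K] A` (compare the beginning of `Semi/Final.lean`), with the
induced structure of a Lie algebra over `k` (restriction of scalars from `K'`; define the instances by hand if necessary), `j a = 1 ⊗ a`, injective. `ExtProp`
for `k`, `K'`, `A`, `B`, `j` gives `idOf k A ⊆ idOf k B`; `lift (j ∘ ρ) = j ∘ lift ρ`. -/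
def BaseChgProp : Prop :=
  ∀ (k : Type u) [Field k] [Infinite k] (K : Type u) [Field K] [Algebra k K] (A : Type u)
    [LieRing A] [LieAlgebra k A] [LieAlgebra K A] [IsScalarTower k K A] [FiniteDimensional K A]
    (n : ℕ) (f : FreeLieAlgebra k (Fin n)), (∃ ρ : Fin n → A, FreeLieAlgebra.lift k ρ f ≠ 0) →
    ∃ (K' : Type u) (_ : Field K') (_ : Algebra k K') (_ : IsAlgClosed K') (B : Type u)
      (_ : LieRing B) (_ : LieAlgebra k B) (_ : LieAlgebra K' B) (_ : IsScalarTower k K' B),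
      FiniteDimensional K' B ∧ Module.finrank K' B ≤ Module.finrank K A ∧ idOf k A ⊆ idOf k B ∧
      ∃ ρ : Fin n → B, FreeLieAlgebra.lift k ρ f ≠ 0

/-- (A6) PROOF (uses `TorsionProp`, `FrobProp` of `Tor/Spec.lean`, `IdentProp`, `BaseChgProp`, `OneClassProp`). `TorsionProp` gives `B₀, M₀`. Choose `s` with
`max B₀ D ≤ p ^ s` and `N = p ^ s * M₀ > 0`. Given `K, A, f`, `BaseChgProp` gives `K'`, `A'`; `IdI k A' m co` holds by
`IdentProp` and `idOf k A ⊆ idOf k A'`. `TorsionProp` for `L = A'` gives `Der k A' (p^s + N)`, `BalW k A' 0 (p^s) N`, and `FrobProp`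
`Der k A' (p^s)`; `pw k = pw K'` as functions (`pw_iterate`), so the same holds with `K'` in the place of `k`. `K'` has characteristic `p`
and `OneClassProp` (with `K'`) applies. `K'` is infinite (algebraically closed). -/
def ModelProp : Prop :=
  ∀ (k : Type u) [Field k] [Infinite k] (p : ℕ) [Fact p.Prime] [CharP k p] (m r D : ℕ)
    (co : ℕ → k), 0 < r → (∀ i ≤ m, co i ^ p ^ r = co i) → (∃ i ≤ m, co i ≠ 0) →
    ∃ s N : ℕ, 0 < N ∧ ∀ (K : Type u) [Field K] [Algebra k K] (A : Type u) [LieRing A]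
      [LieAlgebra k A] [LieAlgebra K A] [IsScalarTower k K A], FiniteDimensional K A →
      Module.finrank K A ≤ D → IdI k A m co → ∀ (n : ℕ) (f : FreeLieAlgebra k (Fin n)),
      (∃ ρ : Fin n → A, FreeLieAlgebra.lift k ρ f ≠ 0) →
      ∃ (K' : Type u) (_ : Field K') (_ : Algebra k K') (_ : Infinite K') (B : Type u)
        (_ : LieRing B) (_ : LieAlgebra k B) (_ : LieAlgebra K' B) (_ : IsScalarTower k K' B),
        FiniteDimensional K' B ∧ Module.finrank K' B ≤ D ∧ idOf k A ⊆ idOf k B ∧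
        (∀ b : B, ∃ τ : K', ∀ a : B, pw K' b (p ^ s + N) a = τ • pw K' b (p ^ s) a) ∧
        ∃ ρ : Fin n → B, FreeLieAlgebra.lift k ρ f ≠ 0

/-- (A7) PROOF (uses `TauPolyProp`, `AltEndProp`). For every `f : {f // f ∉ T}` choose `K_f, B_f, ρ_f` and `τ_f` (`TauPolyProp`). `X = (f) → B_f`
(the product, Mathlib's `Pi` instances of Lie rings and Lie algebras over `k`), `Φ (qMk T w) f = lift ρ_f w` (well defined because `lift ρ_f`
vanishes on `T`; `qMk`, see `Two/RelFree.lean`), injective. For `u : Fin r → F`: `(S t ξ) f = τ_f (Φ (cmb k u t) f) • ξ f`, a `k`-linear operator. By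
`TauPolyProp` for `c i = Φ (u i) f` there is `q_f`, of degree `≤ N`, with `τ_f (Φ (cmb k u t) f) = eval (algebraMap ∘ t) q_f =
∑ α, (∏ t i ^ α i) • coeff α q_f`. So `S t = ∑ α ∈ s, (∏ i, t i ^ α i) • Q α` with `s` = the (finite) set of the `α : Fin r → ℕ` with sum `≤ N` and
`(Q α ξ) f = coeff α q_f • ξ f`: `PolyS`. `lin`, `comm` are clear; `pow`: componentwise, `pw k = pw K_f` as functions. `AltL`: `Φ` is injective, so check
it in every component: for `m : B_f`, `wd m ((ofFn (h ∘ σ)).flatten.map x')` is the value at `m` of the product (in the reversed order) of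
the `K_f`-linear operators `φ j : a ↦ wd a ((h j).map x')`; use `AltEndProp` (for the reversed product: replace `φ` by `φ ∘ Fin.rev` and `σ` by
`rev σ rev`, or use the opposite algebra), `D * D + 1 > (finrank)^2`. -/
def PackProp : Prop :=
  ∀ (k : Type u) [Field k] [Infinite k] (P N D n : ℕ) (T : LieIdeal k (FreeLieAlgebra k (Fin n))),
    (∀ f : FreeLieAlgebra k (Fin n), f ∉ T →
      ∃ (K' : Type u) (_ : Field K') (_ : Algebra k K') (_ : Infinite K') (B : Type u)
        (_ : LieRing B) (_ : LieAlgebra k B) (_ : LieAlgebra K' B) (_ : IsScalarTower k K' B),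
        FiniteDimensional K' B ∧ Module.finrank K' B ≤ D ∧
        (∀ b : B, ∃ τ : K', ∀ a : B, pw K' b (P + N) a = τ • pw K' b P a) ∧
        ∃ ρ : Fin n → B, (∀ w ∈ T, FreeLieAlgebra.lift k ρ w = 0) ∧
          FreeLieAlgebra.lift k ρ f ≠ 0) →
    ∃ (X : Type u) (_ : LieRing X) (_ : LieAlgebra k X)
      (Φ : (FreeLieAlgebra k (Fin n) ⧸ T) →ₗ⁅k⁆ X), Function.Injective Φ ∧
      AltL n (D * D + 1) (fun i => qMk T (FreeLieAlgebra.of k i)) ∧
      ∀ (r : ℕ) (u : Fin r → (FreeLieAlgebra k (Fin n) ⧸ T)),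
        ∃ S : (Fin r → k) → Module.End k X, SOp k Φ P N u S

/-! ## Z. Assembly (not tasks) -/

/-- (Z1) The core theorem; proved in `Rep/Core.lean`. -/
def CoreProp : Prop :=
  ∀ (k : Type u) [Field k] [Infinite k] (p : ℕ) [Fact p.Prime] [CharP k p] (F X : Type u)
    [LieRing F] [LieAlgebra k F] [LieRing X] [LieAlgebra k X] (Φ : F →ₗ⁅k⁆ X) (n s N d : ℕ)
    (x : Fin n → F) (K : LieIdeal k F) (ζ : F), Function.Injective Φ →
    LieSubalgebra.lieSpan k F (Set.range x) = ⊤ → 0 < N → 2 ≤ d → AltL n d x →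
    (∀ (r : ℕ) (u : Fin r → F), ∃ S : (Fin r → k) → Module.End k X, SOp k Φ (p ^ s) N u S) →
    (∃ S : Finset F, LieSubmodule.lieSpan k F (S : Set F) = K) → ζ ∉ K →
    ∃ I : LieIdeal k F, K ≤ I ∧ FC I.toSubmodule ⊤ ∧ ζ ∉ I

end Pool.Agent.Lib.MP_240c17_al.Rep
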