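import Pool.Agent.Lib.MP_240c17_al.Rep.Spec

/-!
# TauPoly: the proportionality factor is a polynomial (helper77, after helper17's docstring)
-/

set_option autoImplicit false

namespace Pool.Agent.Lib.MP_240c17_al.Rep

universe u

open Pool.Agent.Lib.MP_240c17_al Pool.Agent.Lib.MP_240c17_al.Two Pool.Agent.Lib.MP_240c17_al.Tor

namespace TauPolyAux

open MvPolynomial

/-- in a unique factorization domain: if all powers of `g` divide `h ^ m * g` then `g` divides `h` -/
theorem dvd_of_pow {R : Type u} [CommRing R] [IsDomain R] [UniqueFactorizationMonoid R] {g h : R}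
    (hg : g ≠ 0) (H : ∀ m : ℕ, g ^ m ∣ h ^ m * g) : g ∣ h := by
  obtain ⟨g', h', c, hrel, rfl, rfl⟩ := UniqueFactorizationMonoid.exists_reduced_factors g hg h
  have hc : c ≠ 0 := left_ne_zero_of_mul hg
  have h1 : ∀ m : ℕ, g' ^ m ∣ c * g' := by
    intro m
    have h2 := H m
    rw [mul_pow, mul_pow, mul_assoc, mul_dvd_mul_iff_left (pow_ne_zero m hc)] at h2
    exact (IsRelPrime.pow hrel).dvd_of_dvd_mul_left h2
  have hu : IsUnit g' := by
    by_contra hnu
    obtain ⟨n, hn⟩ := FiniteMultiplicity.of_not_isUnit hnu hg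
    exact hn (h1 (n + 1))
  exact (hu.mul_right_dvd).mpr (dvd_mul_right c h')

section

variable {K : Type u} [Field K] {B : Type u} [LieRing B] [LieAlgebra K B] {r : ℕ}
  (β : Module.Basis (Fin r) K B)

/-- the generic matrix -/
noncomputable def Mx : Matrix (Fin r) (Fin r) (MvPolynomial (Fin r) K) := fun i j =>
  ∑ l, C (β.repr ⁅β j, β l⁆ i) * X l

theorem Mx_pow_eval (ξ : Fin r → K) (e : ℕ) (i j : Fin r) :
    eval ξ ((Mx β ^ e) i j) = β.repr (pw K (∑ l, ξ l • β l) e (β j)) i := by
  have h1 : (eval ξ).mapMatrix (Mx β) =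
      LinearMap.toMatrixAlgEquiv β (adr K (∑ l, ξ l • β l)) := by
    ext i j
    rw [RingHom.mapMatrix_apply, Matrix.map_apply, LinearMap.toMatrixAlgEquiv_apply, adr_apply,
      lie_sum]
    simp only [Mx, map_sum, map_mul, eval_C, eval_X, lie_smul, map_smul]
    rw [Finsupp.finset_sum_apply]
    refine Finset.sum_congr rfl fun l _ => ?_
    rw [Finsupp.smul_apply, smul_eq_mul, mul_comm]
  have h2 : (eval ξ).mapMatrix (Mx β ^ e) =
      LinearMap.toMatrixAlgEquiv β (pw K (∑ l, ξ l • β l) e) := by
    rw [map_pow, h1, ← map_pow]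
    rfl
  have h3 := congrFun (congrFun h2 i) j
  rwa [RingHom.mapMatrix_apply, Matrix.map_apply, LinearMap.toMatrixAlgEquiv_apply] at h3

theorem Mx_hom (e : ℕ) : ∀ i j : Fin r, ((Mx β ^ e) i j).IsHomogeneous e := by
  induction e with
  | zero =>
    intro i j
    rw [pow_zero, Matrix.one_apply]
    split_ifs
    · exact isHomogeneous_one _ _
    · exact isHomogeneous_zero _ _ _
  | succ e ih =>
    intro i j
    rw [pow_succ, Matrix.mul_apply]
    refine IsHomogeneous.sum _ _ _ fun l _ => (ih i l).mul ?_
    unfold Mx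
    exact IsHomogeneous.sum _ _ _ fun m _ => isHomogeneous_C_mul_X _ _

end

/-- substitution of linear forms does not increase the degree -/
theorem deg_sub {K : Type u} [Field K] {r m : ℕ} (θ : MvPolynomial (Fin r) K)
    (f : Fin r → MvPolynomial (Fin m) K) (hf : ∀ l, (f l).totalDegree ≤ 1) :
    (bind₁ f θ).totalDegree ≤ θ.totalDegree := by
  have h1 : bind₁ f θ = ∑ s ∈ θ.support, C (coeff s θ) * ∏ l, f l ^ s l := by
    rw [bind₁, aeval_def, eval₂_eq']
    rfl
  rw [h1]
  refine totalDegree_finsetSum_le fun s hs => ?_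
  have h2 := le_totalDegree hs
  refine (totalDegree_mul _ _).trans ?_
  rw [totalDegree_C, zero_add]
  refine (totalDegree_finsetProd _ _).trans ?_
  refine le_trans ?_ h2
  rw [Finsupp.sum_fintype _ _ (fun _ => rfl)]
  refine Finset.sum_le_sum fun l _ => ?_
  refine (totalDegree_pow _ _).trans ?_
  calc s l * (f l).totalDegree ≤ s l * 1 := Nat.mul_le_mul_left _ (hf l)
    _ = s l := Nat.mul_one _

end TauPolyAux

open TauPolyAux MvPolynomial in
theorem tauPoly : TauPolyProp.{u} := by
  intro K _ _ B _ _ _ P N hτ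
  let β : Module.Basis (Fin (Module.finrank K B)) K B := Module.finBasis K B
  set A := Mx β ^ (P + N) with hA
  set D := Mx β ^ P with hD
  -- operators from matrices
  have hext : ∀ (b : B) (τ : K),
      (∀ i j, β.repr (pw K b (P + N) (β j)) i = τ * β.repr (pw K b P (β j)) i) →
      ∀ a, pw K b (P + N) a = τ • pw K b P a := by
    intro b τ h
    have h1 : pw K b (P + N) = τ • pw K b P := by
      apply β.ext
      intro j
      apply β.repr.injective
      ext i
      rw [h i j, LinearMap.smul_apply, map_smul, Finsupp.smul_apply, smul_eq_mul]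
    intro a
    rw [h1, LinearMap.smul_apply]
  have hsum : ∀ b : B, ∑ l, β.repr b l • β l = b := fun b => β.sum_repr b
  -- the polynomial identity
  have hcross : ∀ i j i' j', D i' j' * A i j = A i' j' * D i j := by
    intro i j i' j'
    apply MvPolynomial.funext
    intro ξ
    obtain ⟨τ, hτ'⟩ := hτ (∑ l, ξ l • β l)
    rw [map_mul, map_mul, hA, hD, Mx_pow_eval, Mx_pow_eval, Mx_pow_eval, Mx_pow_eval, hτ' (β j),
      hτ' (β j'), map_smul, map_smul, Finsupp.smul_apply, Finsupp.smul_apply, smul_eq_mul,
      smul_eq_mul]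
    ring
  -- the polynomial θ
  obtain ⟨θ, hθdeg, hθ⟩ : ∃ θ : MvPolynomial (Fin (Module.finrank K B)) K,
      θ.totalDegree ≤ N ∧ ∀ i j, A i j = θ * D i j := by
    by_cases hz : ∀ i j, D i j = 0
    · refine ⟨0, by rw [totalDegree_zero]; exact Nat.zero_le _, fun i j => ?_⟩
      rw [zero_mul]
      apply MvPolynomial.funext
      intro ξ
      obtain ⟨τ, hτ'⟩ := hτ (∑ l, ξ l • β l)
      have h1 := congrArg (eval ξ) (hz i j)
      rw [hD, Mx_pow_eval, map_zero] at h1
      rw [hA, Mx_pow_eval, hτ' (β j), map_smul, Finsupp.smul_apply, h1, smul_zero, map_zero]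
    · push Not at hz
      obtain ⟨i', j', hg⟩ := hz
      have hpow : ∀ m : ℕ, (D i' j') ^ m • Mx β ^ (P + m * N) = (A i' j') ^ m • D := by
        intro m
        induction m with
        | zero => rw [pow_zero, pow_zero, Nat.zero_mul, Nat.add_zero]
        | succ m ih =>
          have h1 : Mx β ^ (P + (m + 1) * N) = Mx β ^ (P + m * N) * Mx β ^ N := by
            rw [← pow_add]
            congr 1
            ring
          have h2 : D i' j' • A = A i' j' • D := by
            ext1 i j
            rw [Matrix.smul_apply, Matrix.smul_apply, smul_eq_mul, smul_eq_mul]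
            exact hcross i j i' j'
          have h3 : A = D * Mx β ^ N := by rw [hA, hD, pow_add]
          calc (D i' j') ^ (m + 1) • Mx β ^ (P + (m + 1) * N)
              = D i' j' • (((D i' j') ^ m • Mx β ^ (P + m * N)) * Mx β ^ N) := by
                rw [h1, Matrix.smul_mul, smul_smul, pow_succ']
            _ = D i' j' • (((A i' j') ^ m • D) * Mx β ^ N) := by rw [ih]
            _ = (A i' j') ^ m • (D i' j' • A) := by
                rw [Matrix.smul_mul, ← h3, smul_comm]
            _ = (A i' j') ^ (m + 1) • D := by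
                rw [h2, smul_smul, pow_succ]
      have hdvd : D i' j' ∣ A i' j' := by
        apply dvd_of_pow hg
        intro m
        have h1 := congrFun (congrFun (hpow m) i') j'
        rw [Matrix.smul_apply, Matrix.smul_apply, smul_eq_mul, smul_eq_mul] at h1
        exact ⟨_, h1.symm⟩
      obtain ⟨θ, hθ⟩ := hdvd
      refine ⟨θ, ?_, fun i j => ?_⟩
      · by_cases hθ0 : θ = 0
        · rw [hθ0, totalDegree_zero]
          exact Nat.zero_le _
        · have hne : A i' j' ≠ 0 := by
            rw [hθ]
            exact mul_ne_zero hg hθ0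
          have h1 : (A i' j').totalDegree = P + N := (Mx_hom β (P + N) i' j').totalDegree hne
          have h2 : (D i' j').totalDegree = P := (Mx_hom β P i' j').totalDegree hg
          rw [hθ, totalDegree_mul_of_isDomain hg hθ0, h2] at h1
          omega
      · have h1 := hcross i j i' j'
        rw [hθ, mul_assoc] at h1
        exact mul_left_cancel₀ hg h1
  refine ⟨fun b => eval (fun l => β.repr b l) θ, ?_, ?_⟩
  · intro b
    apply hext
    intro i j
    have h1 := congrArg (eval fun l => β.repr b l) (hθ i j)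
    rw [map_mul, hA, hD, Mx_pow_eval, Mx_pow_eval, hsum] at h1
    exact h1
  · intro m c
    refine ⟨bind₁ (fun l => ∑ i, C (β.repr (c i) l) * X i) θ,
      (deg_sub _ _ fun l => ?_).trans hθdeg, fun t => ?_⟩
    · exact (IsHomogeneous.sum Finset.univ (fun i => C (β.repr (c i) l) * X i) 1
        (fun i _ => isHomogeneous_C_mul_X _ _)).totalDegree_le
    · have h1 : eval t (bind₁ (fun l => ∑ i, C (β.repr (c i) l) * X i) θ) =
          eval (fun l => eval t (∑ i, C (β.repr (c i) l) * X i)) θ :=
        eval₂Hom_bind₁ (RingHom.id K) t _ θ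
      rw [h1]
      show eval (fun l => β.repr (∑ i, t i • c i) l) θ = _
      congr 2
      funext l
      rw [map_sum, Finsupp.finset_sum_apply, map_sum]
      refine Finset.sum_congr rfl fun i _ => ?_
      rw [map_smul, Finsupp.smul_apply, smul_eq_mul, map_mul, eval_C, eval_X, mul_comm]

end Pool.Agent.Lib.MP_240c17_al.Rep
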