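import Pool.Agent.Lib.MP_240c17_al.Rep.Spec

/-!
# Finite codimension of an ideal containing all long words (helper25)
-/

set_option autoImplicit false

namespace Pool.Agent.Lib.MP_240c17_al.Rep

universe u

open Pool.Agent.Lib.MP_240c17_al Pool.Agent.Lib.MP_240c17_al.Two Pool.Agent.Lib.MP_240c17_al.Tor

/-- **Finite codimension.** -/
theorem wdCof : WdCofProp.{u} := by
  intro k _ F _ _ n x G N0 hx hG
  have hfin : ((fun q : Fin n × List (Fin n) => wd (x q.1) (q.2.map x)) ''
      (Set.univ ×ˢ {l : List (Fin n) | l.length < N0})).Finite :=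
    (Set.finite_univ.prod (List.finite_length_lt (Fin n) N0)).image _
  refine ⟨hfin.toFinset, ?_⟩
  rw [← words_span (k := k) hx, Submodule.span_le]
  rintro _ ⟨i, ls, rfl⟩
  by_cases h : N0 ≤ ls.length
  · exact Submodule.mem_sup_left (hG ls h (x i))
  · refine Submodule.mem_sup_right (Submodule.subset_span ?_)
    rw [Set.Finite.coe_toFinset]
    exact ⟨(i, ls), ⟨Set.mem_univ _, by simpa using h⟩, rfl⟩

end Pool.Agent.Lib.MP_240c17_al.Rep
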