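import Pool.Agent.Lib.MP_240c17_al.Rep.Spec

/-!
Several parameters.
-/

set_option autoImplicit false

namespace Pool.Agent.Lib.MP_240c17_al.Rep

universe u

open Pool.Agent.Lib.MP_240c17_al Pool.Agent.Lib.MP_240c17_al.Two Pool.Agent.Lib.MP_240c17_al.Tor

theorem x0Line (h1 : X0OneProp.{u}) : X0LineProp.{u} := by
  intro k _ _ X _ _ r d a b z T hz hT hzz hTT hzT hrel
  have key : ∀ (t₀ t : Fin r → k) (w : X),
      (z t₀ ^ (d * (a + b) + 1)) ((T t ^ a) w - (z t ^ b) w) = 0 := by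
    intro t₀ t w
    have h := h1 k X d a b (fun c => z (t₀ + c • (t - t₀))) (fun c => T (t₀ + c • (t - t₀)))
      (fun w => hz t₀ (t - t₀) w) (fun w => hT t₀ (t - t₀) w) (fun μ μ' => hzz _ _)
      (fun μ μ' => hTT _ _) (fun μ μ' => hzT _ _) (fun μ => hrel _) 0 1 w
    simpa only [zero_smul, add_zero, one_smul, add_sub_cancel] using h
  refine ⟨⨆ t, LinearMap.range (T t ^ a - z t ^ b), d * (a + b) + 1, ?_, ?_, ?_⟩
  · intro ψ hψz hψT w hw
    have hle : (⨆ t, LinearMap.range (T t ^ a - z t ^ b)) ≤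
        (⨆ t, LinearMap.range (T t ^ a - z t ^ b)).comap ψ := by
      refine iSup_le fun t => ?_
      rintro _ ⟨v, rfl⟩
      have hc : Commute ψ (T t ^ a - z t ^ b) :=
        ((hψT t).pow_right a).sub_right ((hψz t).pow_right b)
      have he : ψ ((T t ^ a - z t ^ b) v) = (T t ^ a - z t ^ b) (ψ v) :=
        LinearMap.congr_fun hc.eq v
      rw [Submodule.mem_comap, he]
      exact Submodule.mem_iSup_of_mem t ⟨ψ v, rfl⟩
    exact hle hw
  · intro t w hw
    have hle : (⨆ t, LinearMap.range (T t ^ a - z t ^ b)) ≤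
        LinearMap.ker (z t ^ (d * (a + b) + 1)) := by
      refine iSup_le fun t' => ?_
      rintro _ ⟨v, rfl⟩
      rw [LinearMap.mem_ker, LinearMap.sub_apply]
      exact key t t' v
    exact LinearMap.mem_ker.mp (hle hw)
  · intro t w
    exact Submodule.mem_iSup_of_mem t ⟨w, by rw [LinearMap.sub_apply]⟩

end Pool.Agent.Lib.MP_240c17_al.Rep
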